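import Mathlib
import Pool.Agent.Lib.MP_551055_al.Trim.LS.PStmts
import Pool.Agent.Lib.MP_551055_al.Trim.LS.Stmts
import Pool.Agent.Lib.MP_551055_al.Trim.RI.LiftNil
import Pool.Agent.Lib.MP_551055_al.Trim.RI.Stmts
import Pool.Agent.Lib.MP_551055_al.Trim.X.MP_e6f638_al.F
import Pool.Agent.Lib.MP_551055_al.Trim.X.MP_e6f638_al.I1
import Pool.Agent.Lib.MP_551055_al.Trim.X.MP_e6f638_al.Stmts

/-!
# Even Artin groups without label four: definitions and statements of the modules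

All labels are half labels: `1` commuting, `2` label four, `0` infinity. The data `D : Dat G`, the
groups `D.Ah`, `D.E`, `D.Om` and the maps `D.phi`, `D.hh` are those of the splitting of an even
Artin group at a generator (`Lib/MP_e6f638_al`). The blueprint is `N4_blueprint.md` in the store.
-/

set_option autoImplicit false

namespace Pool.Agent.Lib.MP_551055_al
end Pool.Agent.Lib.MP_551055_al

namespace Pool.Agent.Lib.MP_e6f638_al
end Pool.Agent.Lib.MP_e6f638_al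

namespace Pool.Agent.Lib.MP_551055_al.LS
end Pool.Agent.Lib.MP_551055_al.LS

namespace Pool.Agent.Lib.MP_551055_al.RI
end Pool.Agent.Lib.MP_551055_al.RI

namespace Pool.Agent.Lib.MP_551055_al.N4

open Pool.Agent.Lib.MP_551055_al

open Pool.Agent.Lib.MP_e6f638_al (Dat EA gen par rho del IsDatOf IsAxis)

open Pool.Agent.Lib.MP_551055_al.LS (TreeAct ZN)

open Pool.Agent.Lib.MP_551055_al.RI (BTree stabV LiftData)

open Multiplicative

/-! ## Hereditarily good groups -/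

/-- `H` acts on finitely many trees such that `f` is injective on the stabilisers of the tuples of
vertices. -/
def Lift {G H : Type} [Group G] [Group H] (f : H →* G) : Prop :=
  ∃ (J : Type) (_ : Finite J) (τ : J → BTree H), ∀ v : ∀ j, (τ j).V, ∀ x ∈ stabV τ v,
    f x = 1 → x = 1

/-! ## The data -/

section

variable {G : Type} [Group G] (D : Dat G)

/-- `x i = t i u`. -/
noncomputable def xi (i : D.ι) : D.Ah := D.ofG (D.t i) * D.u

/-- The image of `E` in `Ah`. -/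
noncomputable def RE : Subgroup D.Ah := D.phi.range

/-- The subgroup generated by `B` and the `z i`. -/
noncomputable def RR : Subgroup D.Ah :=
  Subgroup.closure (D.ofG '' D.B ∪ Set.range fun i => xi D i ^ D.l i)

/-- The retraction which kills `u`. -/
noncomputable def ret : D.Ah →* G := HNNExtension.lift (MonoidHom.id G) 1 (by
  intro a
  rw [one_mul, mul_one]
  rfl)

/-- All labels are at least three, and the base case of condition (W). -/
structure Three : Prop where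
  three : ∀ i, 3 ≤ D.l i
  w : ∀ (i j : D.ι) (ε : ℤˣ) (b : G), b ∈ D.B → (i = j → ¬ Commute b (D.t i)) →
    D.t i ^ (ε : ℤ) * b * D.t j ^ ((-ε : ℤˣ) : ℤ) ∉ D.B

/-- Condition (V). -/
def V : Prop :=
  ∀ (ε : ℤˣ) (i i' j j' : D.ι) (β₁ β₂ b b' : G), β₁ ∈ D.B → β₂ ∈ D.B → b ∈ D.B → b' ∈ D.B →
    D.t i ^ (ε : ℤ) * β₁ * D.t i' ^ ((-ε : ℤˣ) : ℤ) =
      b * D.t j ^ (ε : ℤ) * β₂ * D.t j' ^ ((-ε : ℤˣ) : ℤ) * b' →
    D.t i ^ ((-ε : ℤˣ) : ℤ) * b * D.t j ^ (ε : ℤ) ∉ D.B →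
    D.t i ^ (ε : ℤ) * β₁ * D.t i' ^ ((-ε : ℤˣ) : ℤ) ∈ D.B

/-- The facts on words. -/
structure Wd : Prop where
  inj : Function.Injective D.phi
  range : ∀ e : D.E, D.phi e ∈ D.ofG.range → ∃ a : D.h.ker, e = D.inE a
  c1 : ∀ (i : D.ι) (r : ℕ) (g : G), 1 ≤ r → r < D.l i → xi D i ^ r * D.ofG g ∉ RE D
  c0 : ∀ (i j : D.ι) (r s : ℕ) (g : G), 1 ≤ r → r < D.l i → 1 ≤ s → s < D.l j →
    xi D i ^ r * D.ofG g * (xi D j ^ s)⁻¹ ∈ RE D →
      (r = 1 ∧ s = 1 ∧ g ∈ D.B) ∨ (i = j ∧ r = s ∧ g ∈ D.B ∧ Commute g (D.t i)) ∨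
        (r + 1 = D.l i ∧ s + 1 = D.l j ∧ (D.t i)⁻¹ * g * D.t j ∈ D.B)

/-- The special elements of `Q`. -/
def Sp (q : D.Ah) : Prop :=
  q ∈ RE D ∨ ∃ a ∈ RE D, ∃ a' ∈ RE D, q = a * D.x * a' ∨ q = a * D.x⁻¹ * a'

/-- The conclusion of module S1. -/
def S1 : Prop := ∀ y ∈ RE D, D.x * y * D.x⁻¹ ∈ RE D → y ∈ RR D

/-- The conclusion of module S2. -/
def S2 : Prop :=
  ∀ q ∈ D.hh.ker, ∀ y ∈ RE D, y ≠ 1 → ret D y = 1 → q⁻¹ * y * q ∈ RE D → Sp D q

end

/-- Module W. Words. -/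
def StWd : Prop := ∀ (G : Type) [Group G] (D : Dat G), Three D → Wd D

/-- Module S1. -/
def StS1 : Prop := ∀ (G : Type) [Group G] (D : Dat G), Three D → Wd D → S1 D

/-- Module S2. -/
def StS2 : Prop := ∀ (G : Type) [Group G] (D : Dat G), Three D → Wd D → V D → S2 D

/-- Module L. The axis of `g` lies in every invariant subgraph in which a vertex is connected to
its translate. -/
def StLine : Prop :=
  ∀ (G : Type) [Group G] (V : Type) [MulAction G V] (T H : SimpleGraph V), TreeAct G V T →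
    H ≤ T → ∀ (g : G) (γ : ℤ → V) (n : ℤ), IsAxis T g γ n →
      (∀ v w, H.Adj v w ↔ H.Adj (g • v) (g • w)) → ∀ v₀, H.Reachable v₀ (g • v₀) →
        ∀ i, H.Adj (γ i) (γ (i + 1))

/-- Module A. Even Artin groups: the conditions for the splitting at `u`. -/
def StArt : Prop :=
  ∀ (S : Type) [Finite S] (l : S → S → ℕ), (∀ s t, l s t = l t s) → ∀ u : S,
    (∀ s, s ≠ u → l u s ≠ 2) →
    (∀ t c, t ≠ u → c ≠ u → 3 ≤ l u t → l u c = 1 → l t c ≠ 2) →
    ∀ D : Dat (EA (del l u)), IsDatOf l u D → Finite D.ι ∧ Three D ∧ V D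

end Pool.Agent.Lib.MP_551055_al.N4
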