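import Mathlib
import Pool.Agent.Lib.MP_551055_al.Trim.N4.Stmts
import Pool.Agent.Lib.MP_551055_al.Trim.RI.Stmts
import Pool.Agent.Lib.MP_551055_al.Trim.W17.Main
import Pool.Agent.Lib.MP_551055_al.Trim.W17.Peel
import Pool.Agent.Lib.MP_551055_al.Trim.X.MP_e6f638_al.I1
import Pool.Agent.Lib.MP_551055_al.Trim.X.MP_e6f638_al.Stmts

/-!
# Module A, first half: the base case of condition (W)
-/

set_option autoImplicit false

namespace Pool.Agent.Lib.MP_551055_al
end Pool.Agent.Lib.MP_551055_al

namespace Pool.Agent.Lib.MP_e6f638_al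
end Pool.Agent.Lib.MP_e6f638_al

namespace Pool.Agent.Lib.MP_551055_al.N4

open Pool.Agent.Lib.MP_551055_al

open Pool.Agent.Lib.MP_e6f638_al (Dat EA gen par rho del IsDatOf IsAxis stI1)

open Multiplicative

namespace Art4

section

variable {S : Type} {l : S → S → ℕ} (hsymm : ∀ s t, l s t = l t s) {u : S}
  {D : Dat (EA (del l u))} (hD : IsDatOf l u D)

include hsymm hD

/-- Weights. -/
theorem wt (k : D.ι) : ∃ w : EA (del l u) →* Multiplicative ℤ, w (D.t k) = ofAdd 1 ∧
    (∀ i, i ≠ k → w (D.t i) = 1) ∧ ∀ b ∈ D.B, w b = 1 := by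
  classical
  choose s hs hls using hD.t
  have hsymm' : ∀ a b, del l u a b = del l u b a := fun a b => hsymm a b
  have hsinj : Function.Injective s := fun a b hab => hD.inj (by rw [hs, hs, hab])
  obtain ⟨w, hw⟩ := (stI1 _ (del l u) hsymm').1 (fun x => if x = s k then 1 else 0)
  refine ⟨w, ?_, ?_, ?_⟩
  · rw [hs, hw, if_pos rfl]
  · intro i hi
    rw [hs, hw, if_neg (fun h => hi (hsinj h)), ofAdd_zero]
  · have h2 : D.B ≤ w.ker := by
      rw [hD.B, par, Subgroup.closure_le]
      rintro _ ⟨c, hc, rfl⟩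
      have h3 : c ≠ s k := by
        rintro rfl
        have := D.two_le k
        rw [← hls k] at this
        have h4 : l u (s k) = 1 := hc
        omega
      rw [SetLike.mem_coe, MonoidHom.mem_ker, hw, if_neg h3, ofAdd_zero]
    exact fun b hb => h2 hb

/-- Retractions. -/
theorem rt (k : D.ι) : ∃ ρ : EA (del l u) →* EA (del l u), ρ (D.t k) = 1 ∧
    (∀ i, i ≠ k → ρ (D.t i) = D.t i) ∧ ∀ b ∈ D.B, ρ b = b := by
  classical
  choose s hs hls using hD.t
  have hsymm' : ∀ a b, del l u a b = del l u b a := fun a b => hsymm a b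
  have hsinj : Function.Injective s := fun a b hab => hD.inj (by rw [hs, hs, hab])
  obtain ⟨ρ, hρ, hρ'⟩ := (stI1 _ (del l u) hsymm').2.1 {x | x ≠ s k}
  refine ⟨ρ, ?_, ?_, ?_⟩
  · rw [hs]
    exact hρ' _ (fun h => h rfl)
  · intro i hi
    rw [hs]
    exact hρ _ (fun h => hi (hsinj h))
  · have h2 : D.B ≤ MonoidHom.eqLocus ρ (MonoidHom.id _) := by
      rw [hD.B, par, Subgroup.closure_le]
      rintro _ ⟨c, hc, rfl⟩
      have h3 : c ≠ s k := by
        rintro rfl
        have := D.two_le k
        rw [← hls k] at this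
        have h4 : l u (s k) = 1 := hc
        omega
      exact hρ c h3
    exact fun b hb => h2 hb

/-- The base case of condition (W). -/
theorem three (h2 : ∀ s, s ≠ u → l u s ≠ 2) : Three D where
  three i := by
    obtain ⟨s, _, hs⟩ := hD.t i
    have h3 := D.two_le i
    have h4 := h2 s s.2
    omega
  w := by
    intro i j ε b hb hij hmem
    by_cases h : i = j
    · subst h
      obtain ⟨ρ, h3, _, h5⟩ := rt hsymm hD i
      have h6 := h5 _ hmem
      rw [map_mul, map_mul, map_zpow, map_zpow, h3, one_zpow, one_zpow, one_mul, mul_one,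
        h5 b hb] at h6
      refine hij rfl ?_
      have h7 : Commute b (D.t i ^ (ε : ℤ)) := by
        change b * D.t i ^ (ε : ℤ) = D.t i ^ (ε : ℤ) * b
        rw [Units.val_neg, zpow_neg] at h6
        exact (eq_mul_inv_iff_mul_eq.1 h6)
      rcases Int.units_eq_one_or ε with h8 | h8
      · subst h8
        rwa [Units.val_one, zpow_one] at h7
      · subst h8
        rw [Units.val_neg, Units.val_one, zpow_neg, zpow_one] at h7
        exact Commute.inv_right_iff.1 h7
    · obtain ⟨w, h3, h4, h5⟩ := wt hsymm hD i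
      have h6 := h5 _ hmem
      rw [map_mul, map_mul, map_zpow, map_zpow, h3, h4 j (fun h' => h h'.symm), one_zpow, h5 b hb,
        mul_one, mul_one] at h6
      rcases Int.units_eq_one_or ε with h8 | h8 <;> subst h8 <;> simp at h6

omit hsymm in
theorem finite_ι [Finite S] : Finite D.ι := by
  choose s hs _ using hD.t
  exact Finite.of_injective s fun a b hab => hD.inj (by rw [hs, hs, hab])

end

end Art4

end Pool.Agent.Lib.MP_551055_al.N4
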