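import Mathlib
import Pool.Agent.Lib.MP_551055_al.Trim.N4.ArtThree_4
import Pool.Agent.Lib.MP_551055_al.Trim.N4.Stmts
import Pool.Agent.Lib.MP_551055_al.Trim.RI.Stmts
import Pool.Agent.Lib.MP_551055_al.Trim.W17.Main
import Pool.Agent.Lib.MP_551055_al.Trim.W17.Peel
import Pool.Agent.Lib.MP_551055_al.Trim.X.MP_e6f638_al.F
import Pool.Agent.Lib.MP_551055_al.Trim.X.MP_e6f638_al.G2
import Pool.Agent.Lib.MP_551055_al.Trim.X.MP_e6f638_al.H
import Pool.Agent.Lib.MP_551055_al.Trim.X.MP_e6f638_al.I1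
import Pool.Agent.Lib.MP_551055_al.Trim.X.MP_e6f638_al.I2
import Pool.Agent.Lib.MP_551055_al.Trim.X.MP_e6f638_al.Stmts

/-!
# Module A: even Artin groups
-/

set_option autoImplicit false

namespace Pool.Agent.Lib.MP_551055_al
end Pool.Agent.Lib.MP_551055_al

namespace Pool.Agent.Lib.MP_e6f638_al
end Pool.Agent.Lib.MP_e6f638_al

namespace Pool.Agent.Lib.MP_551055_al.N4.Art4
end Pool.Agent.Lib.MP_551055_al.N4.Art4

namespace Pool.Agent.Lib.MP_551055_al.N4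

open Pool.Agent.Lib.MP_551055_al

open Pool.Agent.Lib.MP_e6f638_al (Dat EA gen par rho del IsDatOf IsAxis stI1 stI2 stH stG2 stF Letter wprod IsRed defects)

open Multiplicative

namespace Art4

section

variable {S : Type} [Finite S] {l : S → S → ℕ} (hsymm : ∀ s t, l s t = l t s) {u : S}
  {D : Dat (EA (del l u))} (hD : IsDatOf l u D)

include hsymm hD

/-- The case of one letter. -/
theorem v_core (h3 : ∀ t c, t ≠ u → c ≠ u → 3 ≤ l u t → l u c = 1 → l t c ≠ 2) (i : D.ι)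
    (hi : 3 ≤ D.l i) (ε : ℤˣ) {β₁ β₂ b b' : EA (del l u)} (hβ₁ : β₁ ∈ D.B) (hβ₂ : β₂ ∈ D.B)
    (hb : b ∈ D.B) (hb' : b' ∈ D.B) (n1 : ¬ Commute β₁ (D.t i)) (n2 : ¬ Commute β₂ (D.t i))
    (n3 : ¬ Commute b (D.t i)) : D.t i ^ (ε : ℤ) * β₁ * D.t i ^ ((-ε : ℤˣ) : ℤ) ≠
      b * D.t i ^ (ε : ℤ) * β₂ * D.t i ^ ((-ε : ℤˣ) : ℤ) * b' := by
  classical
  intro heq
  obtain ⟨s, hs, hls⟩ := hD.t i
  have hsymm' : ∀ a b, del l u a b = del l u b a := fun a b => hsymm a b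
  let X : Set {x : S // x ≠ u} := {x | l u x = 1 ∨ x = s}
  let lX : X → X → ℕ := fun a b => del l u a b
  obtain ⟨j, hj, hjinj⟩ := (stI1 _ (del l u) hsymm').2.2.2 X
  let N : Set X := {x | (x : {x : S // x ≠ u}) = s}
  have hs1 : l u s ≠ 1 := by
    rw [hls]
    omega
  have hB : D.B = (par lX Nᶜ).map j := by
    rw [hD.B, par, par, MonoidHom.map_closure]
    congr 1
    ext y
    constructor
    · rintro ⟨c, hc, rfl⟩
      have hc' : l u c = 1 := hc
      refine ⟨gen lX ⟨c, Or.inl hc'⟩, ⟨⟨c, Or.inl hc'⟩, ?_, rfl⟩, hj _⟩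
      intro h2
      have h4 : c = s := h2
      rw [h4] at hc'
      exact hs1 hc'
    · rintro ⟨_, ⟨x, hx, rfl⟩, rfl⟩
      refine ⟨x, ?_, (hj x).symm⟩
      rcases x.2 with h2 | h2
      · exact h2
      · exact absurd h2 hx
  have hβ : ∀ g : EA (del l u), g ∈ D.B → ∃ y ∈ par lX Nᶜ, j y = g := by
    intro g hg
    rw [hB] at hg
    exact Subgroup.mem_map.1 hg
  obtain ⟨y₁, hy₁, rfl⟩ := hβ _ hβ₁
  obtain ⟨y₂, hy₂, rfl⟩ := hβ _ hβ₂
  obtain ⟨y₃, hy₃, rfl⟩ := hβ _ hb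
  obtain ⟨y₄, hy₄, rfl⟩ := hβ _ hb'
  let τ : X := ⟨s, Or.inr rfl⟩
  have hτ : j (gen lX τ) = D.t i := by
    rw [hj, hs]
  let L : List (Letter lX) := [(τ, ε, y₁⁻¹), (τ, -ε, y₃), (τ, ε, y₂), (τ, -ε, y₄)]
  have nc : ∀ y, ¬ Commute (j y) (D.t i) → ¬ Commute y (gen lX τ) := fun y hn hc => by
    have h4 := hc.map j
    rw [hτ] at h4
    exact hn h4
  have hne : wprod lX L ∉ par lX Nᶜ := by
    refine stH (stG2 stF) stI1 stI2 X lX (fun a b => hsymm _ _) N ?_ ?_ L (by simp [L]) ⟨?_, ?_⟩ ?_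
    · intro a ha b hb hab
      have ha' : (a : {x : S // x ≠ u}) = s := ha
      have hb' : (b : {x : S // x ≠ u}) = s := hb
      exact absurd (Subtype.ext (ha'.trans hb'.symm)) hab
    · intro a ha c hc
      have ha' : (a : {x : S // x ≠ u}) = s := ha
      have hc' : l u ((c : {x : S // x ≠ u}) : S) = 1 := by
        rcases c.2 with h4 | h4
        · exact h4
        · exact absurd h4 hc
      change l ((a : {x : S // x ≠ u}) : S) ((c : {x : S // x ≠ u}) : S) ≠ 2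
      rw [ha']
      exact h3 s c s.2 c.1.2 (by rw [hls]; exact hi) hc'
    · intro p hp
      simp only [L, List.mem_cons, List.not_mem_nil, or_false] at hp
      rcases hp with rfl | rfl | rfl | rfl
      · exact ⟨rfl, inv_mem hy₁⟩
      · exact ⟨rfl, hy₃⟩
      · exact ⟨rfl, hy₂⟩
      · exact ⟨rfl, hy₄⟩
    · simp only [L, List.isChain_cons_cons, List.isChain_singleton, and_true]
      refine ⟨fun _ _ hc => nc y₁ n1 (Commute.inv_left_iff.1 hc), fun _ _ => nc y₃ n3,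
        fun _ _ => nc y₂ n2⟩
    · rcases Int.units_eq_one_or ε with h | h
      · subst h
        simp [L, defects]
      · subst h
        simp [L, defects]
  refine hne ?_
  have h1 : wprod lX L = 1 := by
    refine hjinj ?_
    have h5 : j (wprod lX L) = D.t i ^ (ε : ℤ) * (j y₁)⁻¹ * (D.t i ^ ((-ε : ℤˣ) : ℤ) * j y₃ *
        (D.t i ^ (ε : ℤ) * j y₂ * (D.t i ^ ((-ε : ℤˣ) : ℤ) * j y₄))) := by
      simp [L, wprod, map_mul, map_zpow, hτ, mul_assoc]
    have h6 : D.t i ^ ((-ε : ℤˣ) : ℤ) = (D.t i ^ (ε : ℤ))⁻¹ := by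
      rw [Units.val_neg, zpow_neg]
    rw [h5, map_one]
    rw [h6] at heq ⊢
    have h7 : D.t i ^ (ε : ℤ) * (j y₁)⁻¹ * ((D.t i ^ (ε : ℤ))⁻¹ * j y₃ *
        (D.t i ^ (ε : ℤ) * j y₂ * ((D.t i ^ (ε : ℤ))⁻¹ * j y₄))) =
        (D.t i ^ (ε : ℤ) * j y₁ * (D.t i ^ (ε : ℤ))⁻¹)⁻¹ *
          (j y₃ * D.t i ^ (ε : ℤ) * j y₂ * (D.t i ^ (ε : ℤ))⁻¹ * j y₄) := by group
    rw [h7, heq, inv_mul_cancel]
  rw [h1]
  exact one_mem _

/-- Condition (V). -/
theorem v (h2 : ∀ s, s ≠ u → l u s ≠ 2)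
    (h3 : ∀ t c, t ≠ u → c ≠ u → 3 ≤ l u t → l u c = 1 → l t c ≠ 2) : V D := by
  classical
  intro ε i i' j j' β₁ β₂ b b' hβ₁ hβ₂ hb hb' heq hn
  have hthree := three hsymm hD h2
  have hneg : ∀ k, D.t k ^ ((-ε : ℤˣ) : ℤ) = (D.t k ^ (ε : ℤ))⁻¹ := fun k => by
    rw [Units.val_neg, zpow_neg]
  -- weights
  have hw : ∀ k : D.ι, ((if i = k then 1 else 0) - (if i' = k then 1 else 0) : ℤ) =
      (if j = k then 1 else 0) - (if j' = k then 1 else 0) := by
    intro k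
    obtain ⟨w, w1, w2, w3⟩ := wt hsymm hD k
    have hwt : ∀ m : D.ι, w (D.t m) = ofAdd (if m = k then (1 : ℤ) else 0) := by
      intro m
      by_cases hm : m = k
      · rw [if_pos hm, hm, w1]
      · rw [if_neg hm, w2 m hm, ofAdd_zero]
    have h4 := congrArg (fun x => toAdd (w x)) heq
    simp only [map_mul, map_zpow, hwt, w3 _ hβ₁, w3 _ hβ₂, w3 _ hb, w3 _ hb', toAdd_mul,
      toAdd_zpow, toAdd_ofAdd, toAdd_one] at h4
    rcases Int.units_eq_one_or ε with h | h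
    · subst h
      simp at h4
      split_ifs at h4 ⊢ <;> omega
    · subst h
      simp at h4
      split_ifs at h4 ⊢ <;> omega
  by_cases hii : i = i'
  · subst hii
    have hjj : j = j' := by
      by_contra hne
      have h4 := hw j
      rw [sub_self, if_pos (rfl : j = j), if_neg (fun h => hne h.symm)] at h4
      omega
    subst hjj
    by_cases hij : i = j
    · subst hij
      by_contra hnm
      have h5 : ∀ c : EA (del l u), Commute c (D.t i) →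
          D.t i ^ (ε : ℤ) * c * D.t i ^ ((-ε : ℤˣ) : ℤ) = c := fun c hc => by
        rw [hneg, (hc.symm.zpow_left (ε : ℤ)).eq, mul_inv_cancel_right]
      have n1 : ¬ Commute β₁ (D.t i) := fun hc => hnm (by rw [h5 _ hc]; exact hβ₁)
      have n2 : ¬ Commute β₂ (D.t i) := fun hc => hnm (by
        have h6 : b * D.t i ^ (ε : ℤ) * β₂ * D.t i ^ ((-ε : ℤˣ) : ℤ) * b' =
            b * (D.t i ^ (ε : ℤ) * β₂ * D.t i ^ ((-ε : ℤˣ) : ℤ)) * b' := by group
        rw [heq, h6, h5 _ hc]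
        exact mul_mem (mul_mem hb hβ₂) hb')
      have n3 : ¬ Commute b (D.t i) := fun hc => hn (by
        rw [hneg, (hc.symm.zpow_left (ε : ℤ)).inv_left.eq, inv_mul_cancel_right]
        exact hb)
      exact v_core hsymm hD h3 i (hthree.three i) ε hβ₁ hβ₂ hb hb' n1 n2 n3 heq
    · obtain ⟨ρ, r1, r2, r3⟩ := rt hsymm hD j
      have h4 := congrArg ρ heq
      simp only [map_mul, map_zpow, r1, r2 i hij, r3 _ hβ₁, r3 _ hβ₂, r3 _ hb, r3 _ hb', one_zpow,
        mul_one] at h4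
      rw [h4]
      exact mul_mem (mul_mem hb hβ₂) hb'
  · have h4 := hw i
    have h5 := hw i'
    rw [if_pos rfl, if_neg (fun h => hii h.symm)] at h4
    rw [if_neg hii, if_pos rfl] at h5
    have hji : j = i := by
      by_contra hne
      rw [if_neg hne] at h4
      split_ifs at h4 <;> omega
    have hji' : j' = i' := by
      by_contra hne
      rw [if_neg hne] at h5
      split_ifs at h5 <;> omega
    subst hji hji'
    exfalso
    obtain ⟨ρ, r1, r2, r3⟩ := rt hsymm hD j'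
    have h6 := congrArg ρ heq
    simp only [map_mul, map_zpow, r1, r2 j hii, r3 _ hβ₁, r3 _ hβ₂, r3 _ hb, r3 _ hb', one_zpow,
      mul_one] at h6
    refine hn ?_
    have h7 : (D.t j ^ (ε : ℤ))⁻¹ * b * D.t j ^ (ε : ℤ) = β₁ * b'⁻¹ * β₂⁻¹ := by
      have h8 : D.t j ^ (ε : ℤ) * β₁ * b'⁻¹ * β₂⁻¹ = b * D.t j ^ (ε : ℤ) := by
        rw [h6]
        group
      have h9 : (D.t j ^ (ε : ℤ))⁻¹ * b * D.t j ^ (ε : ℤ) =
          (D.t j ^ (ε : ℤ))⁻¹ * (b * D.t j ^ (ε : ℤ)) := by group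
      rw [h9, ← h8]
      group
    rw [hneg, h7]
    exact mul_mem (mul_mem hβ₁ (inv_mem hb')) (inv_mem hβ₂)

end

end Art4

open Art4 in
/-- Module A. -/
theorem stArt : StArt := fun _ _ _ hsymm _ h2 h3 _ hD =>
  ⟨finite_ι hD, three hsymm hD h2, v hsymm hD h2 h3⟩

end Pool.Agent.Lib.MP_551055_al.N4
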