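import Mathlib
import Pool.Agent.Lib.MP_551055_al.Trim.LS.Stmts3
import Pool.Agent.Lib.MP_551055_al.Trim.N4.Stmts
import Pool.Agent.Lib.MP_551055_al.Trim.RI.Stmts

/-!
# Module R: the rules for hereditarily good groups
-/

set_option autoImplicit false

namespace Pool.Agent.Lib.MP_551055_al
end Pool.Agent.Lib.MP_551055_al

namespace Pool.Agent.Lib.MP_551055_al.LS
end Pool.Agent.Lib.MP_551055_al.LS

namespace Pool.Agent.Lib.MP_551055_al.RI
end Pool.Agent.Lib.MP_551055_al.RI

namespace Pool.Agent.Lib.MP_551055_al.N4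

open Pool.Agent.Lib.MP_551055_al

open Pool.Agent.Lib.MP_551055_al.LS

open Pool.Agent.Lib.MP_551055_al.RI

theorem Lift.of_injective {G H : Type} [Group G] [Group H] {f : H →* G}
    (hf : Function.Injective f) : Lift f :=
  ⟨Empty, inferInstance, fun j => j.elim, fun _ x _ h => (injective_iff_map_eq_one f).1 hf x h⟩

theorem bar_ne {V : Type} (T : SimpleGraph V) : Bar T fun u v => u ≠ v where
  pro := fun u v w _ _ hd hw => by
    subst hw
    rw [SimpleGraph.dist_self] at hd
    omega
  ray := fun _ hx _ => ⟨1, le_rfl, (hx 0).ne⟩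

end Pool.Agent.Lib.MP_551055_al.N4
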