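import Mathlib
import Pool.Agent.Lib.MP_551055_al.Trim.LD.NG
import Pool.Agent.Lib.MP_551055_al.Trim.LS.BassClass
import Pool.Agent.Lib.MP_551055_al.Trim.LS.PStmts
import Pool.Agent.Lib.MP_551055_al.Trim.LS.Pos
import Pool.Agent.Lib.MP_551055_al.Trim.LS.Ray
import Pool.Agent.Lib.MP_551055_al.Trim.LS.Stmts
import Pool.Agent.Lib.MP_551055_al.Trim.LS.TreeB
import Pool.Agent.Lib.MP_551055_al.Trim.MT.Defs
import Pool.Agent.Lib.MP_551055_al.Trim.MT.Flow2
import Pool.Agent.Lib.MP_551055_al.Trim.N4.Stmts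
import Pool.Agent.Lib.MP_551055_al.Trim.RI.Basic
import Pool.Agent.Lib.MP_551055_al.Trim.RI.HNN
import Pool.Agent.Lib.MP_551055_al.Trim.RI.LiftNil
import Pool.Agent.Lib.MP_551055_al.Trim.RI.Stmts
import Pool.Agent.Lib.MP_551055_al.Trim.T4.Mods
import Pool.Agent.Lib.MP_551055_al.Trim.W17.Defs
import Pool.Agent.Lib.MP_551055_al.Trim.W17.Main
import Pool.Agent.Lib.MP_551055_al.Trim.W17.StK
import Pool.Agent.Lib.MP_551055_al.Trim.X.MP_e6f638_al.F
import Pool.Agent.Lib.MP_551055_al.Trim.X.MP_e6f638_al.GDefs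
import Pool.Agent.Lib.MP_551055_al.Trim.X.MP_e6f638_al.Stmts

/-!
# Module O: the group `Omega`
-/

set_option autoImplicit false

namespace Pool.Agent.Lib.MP_551055_al
end Pool.Agent.Lib.MP_551055_al

namespace Pool.Agent.Lib.MP_e6f638_al
end Pool.Agent.Lib.MP_e6f638_al

namespace Pool.Agent.Lib.MP_551055_al.LS
end Pool.Agent.Lib.MP_551055_al.LS

namespace Pool.Agent.Lib.MP_551055_al.RI
end Pool.Agent.Lib.MP_551055_al.RI

namespace Pool.Agent.Lib.MP_551055_al.N4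

open Pool.Agent.Lib.MP_551055_al

open Pool.Agent.Lib.MP_e6f638_al (Dat)

open Pool.Agent.Lib.MP_551055_al.LS (TreeAct ZN)

open Pool.Agent.Lib.MP_551055_al.RI (BTree stabV LiftData hV hT hB hT_treeAct mem_stab_hV)

open Multiplicative

section

variable {G : Type} [Group G] (D : Dat G)

theorem ret_of (g : G) : ret D (D.ofG g) = g := by
  rw [ret, HNNExtension.lift_of]
  rfl

theorem ret_u : ret D D.u = 1 := by
  rw [ret, HNNExtension.lift_t]

variable (hφ : D.IsPhi D.phi) (hinj : Function.Injective D.phi)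

/-- `E` in `Omega`. -/
noncomputable def OE : Subgroup (D.Om hφ hinj) := ((D.oQ hφ hinj).comp (D.phiQ hφ)).range

theorem oQ_inj : Function.Injective (D.oQ hφ hinj) := HNNExtension.of_injective _

theorem mem_OE (q : D.hh.ker) : D.oQ hφ hinj q ∈ OE D hφ hinj ↔ (q : D.Ah) ∈ RE D := by
  constructor
  · rintro ⟨e, he⟩
    have h1 : D.phiQ hφ e = q := oQ_inj D hφ hinj he
    exact ⟨e, congrArg Subtype.val h1⟩
  · rintro ⟨e, he⟩
    exact ⟨e, congrArg (D.oQ hφ hinj) (Subtype.ext he)⟩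

theorem OE_T (ε : ℤˣ) {y : D.Om hφ hinj} (hy : y ∈ OE D hφ hinj) :
    (D.T hφ hinj ^ (ε : ℤ))⁻¹ * y * D.T hφ hinj ^ (ε : ℤ) ∈ OE D hφ hinj := by
  obtain ⟨e, rfl⟩ := hy
  rw [MonoidHom.comp_apply]
  rcases Int.units_eq_one_or ε with rfl | rfl
  · refine ⟨D.tauE' e, ?_⟩
    have h1 := D.T_mul hφ hinj (D.tauE' e)
    have h2 : D.tauE (D.tauE' e) = e := DFunLike.congr_fun D.tau_tau' e
    rw [h2] at h1
    rw [MonoidHom.comp_apply, Units.val_one, zpow_one, mul_assoc, ← h1, inv_mul_cancel_left]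
  · refine ⟨D.tauE e, ?_⟩
    have h1 := D.T_mul hφ hinj e
    rw [MonoidHom.comp_apply, Units.val_neg, Units.val_one, zpow_neg, zpow_one, inv_inv, h1,
      mul_inv_cancel_right]

/-- The retraction of `Omega` to `G`. -/
noncomputable def rhoO : D.Om hφ hinj →* G :=
  HNNExtension.lift ((ret D).comp D.hh.ker.subtype) D.t₀ (by
    rintro ⟨q, e, rfl⟩
    rw [D.tauQ_apply]
    change D.t₀ * ret D (D.phi e) = ret D (D.phi (D.tauE e)) * D.t₀
    have h1 : (MulAut.conj D.t₀).toMonoidHom.comp ((ret D).comp D.phi) =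
        ((ret D).comp D.phi).comp D.tauE := by
      refine D.E_ext ?_ ?_
      · intro a
        simp only [MonoidHom.comp_apply, D.tauE_inE, hφ.1, ret_of]
        change D.t₀ * (a : G) * D.t₀⁻¹ = _
        rw [D.cj_coe]
      · intro i
        simp only [MonoidHom.comp_apply, D.tauE_z, map_mul, map_inv, hφ.1, hφ.2, ret_of, map_pow,
          ret_u, mul_one]
        rw [← map_pow]
        change D.t₀ * D.t i ^ D.l i * D.t₀⁻¹ =
          (D.t i * D.t₀⁻¹)⁻¹ * D.t i ^ D.l i * (D.t i * D.t₀⁻¹)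
        have h2 : D.t i ^ D.l i = (D.t i)⁻¹ * D.t i ^ D.l i * D.t i := by
          rw [mul_assoc, (Commute.refl (D.t i)).pow_left _ |>.eq, inv_mul_cancel_left]
        rw [mul_inv_rev, inv_inv]
        calc D.t₀ * D.t i ^ D.l i * D.t₀⁻¹
            = D.t₀ * ((D.t i)⁻¹ * D.t i ^ D.l i * D.t i) * D.t₀⁻¹ := by rw [← h2]
          _ = _ := by group
    have h2 := DFunLike.congr_fun h1 e
    change D.t₀ * ret D (D.phi e) * D.t₀⁻¹ = ret D (D.phi (D.tauE e)) at h2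
    rw [← h2, inv_mul_cancel_right])

theorem rhoO_oQ (q : D.hh.ker) : rhoO D hφ hinj (D.oQ hφ hinj q) = ret D q := by
  rw [rhoO, HNNExtension.lift_of]
  rfl

/-! ### The generators of `RR` in `E` -/

/-- `RR` in `E`. -/
noncomputable def REE : Subgroup D.E :=
  Subgroup.closure (D.inE '' {b | (b : G) ∈ D.B} ∪ Set.range D.z)

include hφ in
theorem exists_REE {y : D.Ah} (hy : y ∈ RR D) : ∃ e ∈ REE D, D.phi e = y := by
  have h1 : RR D ≤ (REE D).map D.phi := by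
    rw [RR, Subgroup.closure_le]
    rintro _ (⟨b, hb, rfl⟩ | ⟨i, rfl⟩)
    · have hb1 : b ∈ D.h.ker := D.h_B b hb
      exact ⟨D.inE ⟨b, hb1⟩, Subgroup.subset_closure (Or.inl ⟨⟨b, hb1⟩, hb, rfl⟩),
        hφ.1 ⟨b, hb1⟩⟩
    · exact ⟨D.z i, Subgroup.subset_closure (Or.inr ⟨i, rfl⟩), hφ.2 i⟩
  exact h1 hy

/-! ### The group `G₁` -/

variable {G₁ : Type} [Group G₁] (j : G →* G₁) (z : D.ι → G₁) (w : G₁)

/-- The map of `E` to `G₁`. -/
noncomputable def th (h2 : ∀ i, ∀ b ∈ D.B, Commute b (D.t i) → Commute (z i) (j b)) :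
    D.E →* G₁ :=
  D.liftE (j.comp D.h.ker.subtype) z (fun i b hb hc => (h2 i b hb hc).eq)

variable (h1 : ∀ i, Commute (z i) (j (D.t i)))
  (h2 : ∀ i, ∀ b ∈ D.B, Commute b (D.t i) → Commute (z i) (j b))
  (h3 : ∀ b ∈ D.B, Commute w (j b)) (h4 : ∀ i, Commute w (z i))

theorem th_inE (a : D.h.ker) : th D j z h2 (D.inE a) = j a := D.liftE_inE _ _ _ a

theorem th_z (i : D.ι) : th D j z h2 (D.z i) = z i := D.liftE_z _ _ _ i

include h1 in
theorem th_tau (e : D.E) : j D.t₀ * th D j z h2 e * (j D.t₀)⁻¹ = th D j z h2 (D.tauE e) := by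
  have h5 : (MulAut.conj (j D.t₀)).toMonoidHom.comp (th D j z h2) =
      (th D j z h2).comp D.tauE := by
    refine D.E_ext ?_ ?_
    · intro a
      simp only [MonoidHom.comp_apply, D.tauE_inE, th_inE]
      change j D.t₀ * j a * (j D.t₀)⁻¹ = _
      rw [D.cj_coe, map_mul, map_mul, map_inv]
    · intro i
      simp only [MonoidHom.comp_apply, D.tauE_z, map_mul, map_inv, th_inE, th_z]
      change j D.t₀ * z i * (j D.t₀)⁻¹ = (j (D.t i * D.t₀⁻¹))⁻¹ * z i * j (D.t i * D.t₀⁻¹)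
      have h6 : z i = (j (D.t i))⁻¹ * z i * j (D.t i) := by
        rw [mul_assoc, (h1 i).eq, inv_mul_cancel_left]
      rw [map_mul, map_inv, mul_inv_rev, inv_inv]
      calc j D.t₀ * z i * (j D.t₀)⁻¹
          = j D.t₀ * ((j (D.t i))⁻¹ * z i * j (D.t i)) * (j D.t₀)⁻¹ := by rw [← h6]
        _ = _ := by group
  exact DFunLike.congr_fun h5 e

include h3 h4 in
theorem th_comm {e : D.E} (he : e ∈ REE D) : Commute w (th D j z h2 e) := by
  have h5 : REE D ≤ (Subgroup.centralizer {w}).comap (th D j z h2) := by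
    rw [REE, Subgroup.closure_le]
    rintro _ (⟨b, hb, rfl⟩ | ⟨i, rfl⟩)
    · rw [SetLike.mem_coe, Subgroup.mem_comap, Subgroup.mem_centralizer_singleton_iff, th_inE]
      exact (h3 b hb).eq.symm
    · rw [SetLike.mem_coe, Subgroup.mem_comap, Subgroup.mem_centralizer_singleton_iff, th_z]
      exact (h4 i).eq.symm
  have h6 := h5 he
  rw [Subgroup.mem_comap, Subgroup.mem_centralizer_singleton_iff] at h6
  exact h6.symm

include h1 h3 h4 in
/-- `x^` conjugates like `tau` on `RR`. -/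
theorem th_xhat {e : D.E} (he : e ∈ REE D) :
    (j D.t₀ * w) * th D j z h2 e * (j D.t₀ * w)⁻¹ = th D j z h2 (D.tauE e) := by
  rw [← th_tau D j z h1 h2 e]
  have h5 := (th_comm D j z w h2 h3 h4 he).eq
  calc (j D.t₀ * w) * th D j z h2 e * (j D.t₀ * w)⁻¹
      = j D.t₀ * (w * th D j z h2 e) * w⁻¹ * (j D.t₀)⁻¹ := by group
    _ = _ := by rw [h5]; group

variable (π : G₁ →* D.Om hφ hinj) (p1 : π.comp j = D.psiG hφ hinj)
  (p2 : ∀ i, π (z i) = D.oQ hφ hinj (D.phiQ hφ (D.z i))) (p3 : π w = D.psiv hφ hinj)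

include p1 p2 in
theorem pi_th (e : D.E) : π (th D j z h2 e) = D.oQ hφ hinj (D.phiQ hφ e) := by
  have h5 : π.comp (th D j z h2) = (D.oQ hφ hinj).comp (D.phiQ hφ) := by
    refine D.E_ext ?_ ?_
    · intro a
      simp only [MonoidHom.comp_apply, th_inE]
      have h6 := DFunLike.congr_fun p1 (a : G)
      rw [MonoidHom.comp_apply] at h6
      rw [h6, D.psiG_of_one hφ hinj a.2]
      rfl
    · intro i
      simp only [MonoidHom.comp_apply, th_z, p2]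
  exact DFunLike.congr_fun h5 e

include p1 p3 in
theorem pi_xhat : π (j D.t₀ * w) = D.oQ hφ hinj D.xQ := by
  have h6 := DFunLike.congr_fun p1 D.t₀
  rw [MonoidHom.comp_apply, D.psiG_t₀] at h6
  rw [map_mul, h6, p3, Dat.psiv, mul_inv_cancel_left]

include h1 h2 h3 h4 p1 p2 p3 in
/-- Conjugation by `x`. -/
theorem x_conj {e : D.E} (he : e ∈ REE D) : D.x * D.phi e * D.x⁻¹ = D.phi (D.tauE e) := by
  have h5 := congrArg π (th_xhat D j z w h1 h2 h3 h4 he)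
  rw [map_mul, map_mul, map_inv, pi_xhat D hφ hinj j w π p1 p3,
    pi_th D hφ hinj j z h2 π p1 p2, pi_th D hφ hinj j z h2 π p1 p2, ← map_inv, ← map_mul,
    ← map_mul] at h5
  exact congrArg Subtype.val (oQ_inj D hφ hinj h5)

/-! ### The two cases -/

/-- Case (A). -/
def PA (g : D.Om hφ hinj) : Prop :=
  ∀ y ∈ OE D hφ hinj, g⁻¹ * y * g ∈ OE D hφ hinj → rhoO D hφ hinj y = 1 → y = 1

/-- Case (B). -/
def PBc (g : D.Om hφ hinj) : Prop :=
  ∃ gh : G₁, π gh = g ∧ ∀ e : D.E,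
    g⁻¹ * D.oQ hφ hinj (D.phiQ hφ e) * g ∈ OE D hφ hinj →
      gh⁻¹ * th D j z h2 e * gh ∈ (th D j z h2).range

theorem pBc_E (hπ : ∀ e, π (th D j z h2 e) = D.oQ hφ hinj (D.phiQ hφ e)) (e : D.E) :
    PBc D hφ hinj j z h2 π (D.oQ hφ hinj (D.phiQ hφ e)) :=
  ⟨th D j z h2 e, hπ e, fun e' _ => ⟨e⁻¹ * e' * e, by simp⟩⟩

include h1 in
theorem pBc_T (ε : ℤˣ) : PBc D hφ hinj j z h2 π (π (j D.t₀ ^ (ε : ℤ))) := by
  refine ⟨j D.t₀ ^ (ε : ℤ), rfl, fun e' _ => ?_⟩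
  rcases Int.units_eq_one_or ε with rfl | rfl
  · refine ⟨D.tauE' e', ?_⟩
    have h5 := th_tau D j z h1 h2 (D.tauE' e')
    have h6 : D.tauE (D.tauE' e') = e' := DFunLike.congr_fun D.tau_tau' e'
    rw [h6] at h5
    rw [← h5, Units.val_one, zpow_one]
    group
  · refine ⟨D.tauE e', ?_⟩
    rw [← th_tau D j z h1 h2 e', Units.val_neg, Units.val_one, zpow_neg, zpow_one, inv_inv]

/-- Products in case (B), if the conjugates are in `E` in the middle. -/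
theorem pBc_mul (hπ : ∀ e, π (th D j z h2 e) = D.oQ hφ hinj (D.phiQ hφ e))
    {g g' : D.Om hφ hinj} (hg : PBc D hφ hinj j z h2 π g) (hg' : PBc D hφ hinj j z h2 π g')
    (h : ∀ y ∈ OE D hφ hinj, (g * g')⁻¹ * y * (g * g') ∈ OE D hφ hinj →
      g⁻¹ * y * g ∈ OE D hφ hinj) : PBc D hφ hinj j z h2 π (g * g') := by
  obtain ⟨a, ha, ha'⟩ := hg
  obtain ⟨b, hb, hb'⟩ := hg'
  refine ⟨a * b, by rw [map_mul, ha, hb], fun e he => ?_⟩
  have h5 := h _ ⟨e, rfl⟩ he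
  obtain ⟨e₁, he₁⟩ := ha' e h5
  have h6 : D.oQ hφ hinj (D.phiQ hφ e₁) = g⁻¹ * D.oQ hφ hinj (D.phiQ hφ e) * g := by
    rw [← hπ, he₁, map_mul, map_mul, map_inv, ha, hπ]
  have h7 : g'⁻¹ * D.oQ hφ hinj (D.phiQ hφ e₁) * g' ∈ OE D hφ hinj := by
    rw [h6]
    have h8 : g'⁻¹ * (g⁻¹ * D.oQ hφ hinj (D.phiQ hφ e) * g) * g' =
        (g * g')⁻¹ * D.oQ hφ hinj (D.phiQ hφ e) * (g * g') := by group
    rw [h8]
    exact he
  have h8 := hb' e₁ h7
  rw [he₁] at h8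
  have h9 : (a * b)⁻¹ * th D j z h2 e * (a * b) = b⁻¹ * (a⁻¹ * th D j z h2 e * a) * b := by group
  rw [h9]
  exact h8

include hφ hinj h1 h2 h3 h4 p1 p2 p3 in
theorem pBc_x (hS1 : S1 D) : PBc D hφ hinj j z h2 π (D.oQ hφ hinj D.xQ) := by
  refine ⟨j D.t₀ * w, pi_xhat D hφ hinj j w π p1 p3, fun e he => ?_⟩
  rw [← map_inv, ← map_mul, ← map_mul, mem_OE] at he
  change D.x⁻¹ * D.phi e * D.x ∈ RE D at he
  have h5 : D.x⁻¹ * D.phi e * D.x ∈ RR D := by
    refine hS1 _ he ?_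
    have h6 : D.x * (D.x⁻¹ * D.phi e * D.x) * D.x⁻¹ = D.phi e := by group
    rw [h6]
    exact ⟨e, rfl⟩
  obtain ⟨e₂, he₂, h6⟩ := exists_REE D hφ h5
  have h7 := x_conj D hφ hinj j z w h1 h2 h3 h4 π p1 p2 p3 he₂
  rw [h6] at h7
  have h8 : D.phi e = D.phi (D.tauE e₂) := by
    rw [← h7]
    group
  have h9 := hinj h8
  refine ⟨e₂, ?_⟩
  rw [h9, ← th_xhat D j z w h1 h2 h3 h4 he₂]
  group

include hφ hinj h1 h2 h3 h4 p1 p3 in
theorem pBc_x' (hS1 : S1 D) : PBc D hφ hinj j z h2 π (D.oQ hφ hinj D.xQ⁻¹) := by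
  refine ⟨(j D.t₀ * w)⁻¹, by rw [map_inv, pi_xhat D hφ hinj j w π p1 p3, map_inv],
    fun e he => ?_⟩
  rw [← map_inv, ← map_mul, ← map_mul, mem_OE, inv_inv] at he
  change D.x * D.phi e * D.x⁻¹ ∈ RE D at he
  have h5 : D.phi e ∈ RR D := hS1 _ ⟨e, rfl⟩ he
  obtain ⟨e₂, he₂, h6⟩ := exists_REE D hφ h5
  have h7 := hinj h6
  subst h7
  refine ⟨D.tauE e₂, ?_⟩
  rw [inv_inv, th_xhat D j z w h1 h2 h3 h4 he₂]

theorem OE_conj {a y : D.Om hφ hinj} (ha : a ∈ OE D hφ hinj) :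
    a⁻¹ * y * a ∈ OE D hφ hinj ↔ y ∈ OE D hφ hinj := by
  constructor
  · intro h
    have h5 : y = a * (a⁻¹ * y * a) * a⁻¹ := by group
    rw [h5]
    exact mul_mem (mul_mem ha h) (inv_mem ha)
  · intro h
    exact mul_mem (mul_mem (inv_mem ha) h) ha

include hφ hinj h1 h2 h3 h4 p1 p2 p3 in
/-- The elements of `Q`. -/
theorem p_Q (hS1 : S1 D) (hS2 : S2 D) (q : D.hh.ker) :
    PA D hφ hinj (D.oQ hφ hinj q) ∨ PBc D hφ hinj j z h2 π (D.oQ hφ hinj q) := by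
  by_cases hA : PA D hφ hinj (D.oQ hφ hinj q)
  · exact Or.inl hA
  right
  unfold PA at hA
  push Not at hA
  obtain ⟨y, ⟨e, rfl⟩, hy1, hy2, hy3⟩ := hA
  rw [MonoidHom.comp_apply] at hy1 hy2 hy3
  have hπ := pi_th D hφ hinj j z h2 π p1 p2
  have h5 : Sp D q := by
    refine hS2 q q.2 (D.phi e) ⟨e, rfl⟩ ?_ ?_ ?_
    · intro h6
      apply hy3
      have h7 : D.phiQ hφ e = 1 := Subtype.ext h6
      rw [h7, map_one]
    · rw [rhoO_oQ] at hy2
      exact hy2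
    · rw [← map_inv, ← map_mul, ← map_mul, mem_OE] at hy1
      exact hy1
  have hmain : ∀ (e₁ e₂ : D.E) (q' : D.hh.ker), PBc D hφ hinj j z h2 π (D.oQ hφ hinj q') →
      PBc D hφ hinj j z h2 π (D.oQ hφ hinj (D.phiQ hφ e₁) * (D.oQ hφ hinj q' *
        D.oQ hφ hinj (D.phiQ hφ e₂))) := by
    intro e₁ e₂ q' hq'
    refine pBc_mul D hφ hinj j z h2 π hπ (pBc_E D hφ hinj j z h2 π hπ e₁)
      (pBc_mul D hφ hinj j z h2 π hπ hq' (pBc_E D hφ hinj j z h2 π hπ e₂) ?_) ?_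
    · intro y _ hy
      have h6 : (D.oQ hφ hinj q' * D.oQ hφ hinj (D.phiQ hφ e₂))⁻¹ * y *
          (D.oQ hφ hinj q' * D.oQ hφ hinj (D.phiQ hφ e₂)) =
          (D.oQ hφ hinj (D.phiQ hφ e₂))⁻¹ * ((D.oQ hφ hinj q')⁻¹ * y * D.oQ hφ hinj q') *
            D.oQ hφ hinj (D.phiQ hφ e₂) := by group
      rw [h6] at hy
      exact (OE_conj D hφ hinj ⟨e₂, rfl⟩).1 hy
    · intro y hy _
      exact (OE_conj D hφ hinj ⟨e₁, rfl⟩).2 hy
  rcases h5 with h5 | ⟨_, ⟨e₁, rfl⟩, _, ⟨e₂, rfl⟩, h5 | h5⟩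
  · obtain ⟨e₀, he₀⟩ := h5
    have h6 : q = D.phiQ hφ e₀ := Subtype.ext he₀.symm
    rw [h6]
    exact pBc_E D hφ hinj j z h2 π hπ e₀
  · have h6 : q = D.phiQ hφ e₁ * (D.xQ * D.phiQ hφ e₂) := by
      apply Subtype.ext
      rw [h5, mul_assoc]
      rfl
    rw [h6, map_mul, map_mul]
    exact hmain e₁ e₂ _ (pBc_x D hφ hinj j z w h1 h2 h3 h4 π p1 p2 p3 hS1)
  · have h6 : q = D.phiQ hφ e₁ * (D.xQ⁻¹ * D.phiQ hφ e₂) := by
      apply Subtype.ext
      rw [h5, mul_assoc]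
      rfl
    rw [h6, map_mul, map_mul]
    exact hmain e₁ e₂ _ (pBc_x' D hφ hinj j z w h1 h2 h3 h4 π p1 p3 hS1)

end

/-- The stabiliser of a segment fixes the first edge. -/
theorem exists_first {D : Type} [Group D] {V : Type} [MulAction D V] {T : SimpleGraph V}
    (hT : TreeAct D V T) {a b : V} {n : ℕ} (hn : T.dist a b = n + 1) :
    ∃ w, T.Adj a w ∧ T.dist w b = n ∧ ∀ γ : D, γ • a = a → γ • b = b → γ • w = w := by
  have hn' : T.dist b a = n + 1 := by rw [SimpleGraph.dist_comm, hn]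
  obtain ⟨w, hw, hw'⟩ := LS.tree_exists_pred hT.tree hn'
  refine ⟨w, hw.symm, by rw [SimpleGraph.dist_comm, hw'], fun γ ha hb => ?_⟩
  have h1 : T.dist w a = 1 := T.dist_eq_one_iff_adj.2 hw
  have h2 : T.dist (γ • w) a = 1 := by
    have := LS.dist_smul_smul hT γ w a
    rw [ha] at this
    rw [this, h1]
  have h3 : T.dist b (γ • w) = n := by
    have := LS.dist_smul_smul hT γ b w
    rw [hb] at this
    rw [this, hw']
  exact LS.tree_eq_of_dist hT.tree (x := b) (z := a) (by rw [hn', h3, h2])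
    (by rw [hn', hw', h1]) (by rw [h3, hw'])

/-- Britton's lemma for one pair of letters. -/
theorem britton {K : Type} [Group K] {A : Subgroup K} {φ : A ≃* A} (u : ℤˣ) (g : K)
    (h : (HNNExtension.t ^ (u : ℤ))⁻¹ * HNNExtension.of g * HNNExtension.t ^ (u : ℤ) ∈ hB A A φ) :
    g ∈ A := by
  by_contra hn
  let w : HNNExtension.NormalWord.ReducedWord K A A :=
    { head := 1
      toList := [(-u, g), (u, 1)]
      chain := by
        rw [List.isChain_cons_cons]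
        refine ⟨fun h5 => absurd ?_ hn, List.isChain_singleton _⟩
        rcases Int.units_eq_one_or (-u) with h6 | h6
        · rw [h6] at h5
          exact h5
        · rw [h6] at h5
          exact h5 }
  have h5 : w.prod φ = (HNNExtension.t ^ (u : ℤ))⁻¹ * HNNExtension.of g *
      HNNExtension.t ^ (u : ℤ) := by
    simp [w, HNNExtension.NormalWord.ReducedWord.prod, zpow_neg]
  have h6 := HNNExtension.ReducedWord.toList_eq_nil_of_mem_of_range φ w (by rw [h5]; exact h)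
  exact absurd h6 (by simp [w])

section

variable {G : Type} [Group G] (D : Dat G) (hφ : D.IsPhi D.phi) (hinj : Function.Injective D.phi)

variable {G₁ : Type} [Group G₁] (j : G →* G₁) (z : D.ι → G₁)
  (h2 : ∀ i, ∀ b ∈ D.B, Commute b (D.t i) → Commute (z i) (j b)) (π : G₁ →* D.Om hφ hinj)

/-- The vertices. -/
noncomputable abbrev vO (g : D.Om hφ hinj) : hV (D.phiQ hφ).range (D.phiQ hφ).range (D.tauQ hφ hinj) :=
  (g : hV (D.phiQ hφ).range (D.phiQ hφ).range (D.tauQ hφ hinj))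

theorem smul_vO (a g : D.Om hφ hinj) : a • vO D hφ hinj g = vO D hφ hinj (a * g) := rfl

theorem p_all (hπ : ∀ e, π (th D j z h2 e) = D.oQ hφ hinj (D.phiQ hφ e))
    (hQ : ∀ q, PA D hφ hinj (D.oQ hφ hinj q) ∨ PBc D hφ hinj j z h2 π (D.oQ hφ hinj q))
    (hT' : ∀ ε : ℤˣ, PBc D hφ hinj j z h2 π (D.T hφ hinj ^ (ε : ℤ))) :
    ∀ (n : ℕ) (g : D.Om hφ hinj),
      (hT (D.phiQ hφ).range (D.phiQ hφ).range (D.tauQ hφ hinj)).dist
        (vO D hφ hinj 1) (vO D hφ hinj g) = n →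
      PA D hφ hinj g ∨ PBc D hφ hinj j z h2 π g := by
  have hact := hT_treeAct (D.phiQ hφ).range (D.phiQ hφ).range (D.tauQ hφ hinj)
  intro n
  induction n with
  | zero =>
    intro g hg
    have h5 := (hact.tree.connected.dist_eq_zero_iff).1 hg
    rw [QuotientGroup.eq, inv_one, one_mul] at h5
    obtain ⟨q, rfl⟩ := h5
    exact hQ q
  | succ n ih =>
    intro g hg
    obtain ⟨w, hw, hw', hfix⟩ := exists_first hact hg
    obtain ⟨h, ε, h5, rfl⟩ := hw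
    rw [QuotientGroup.eq, inv_one, one_mul] at h5
    obtain ⟨q, rfl⟩ := h5
    have hg' := ih ((D.oQ hφ hinj q * D.T hφ hinj ^ (ε : ℤ))⁻¹ * g) (by
      rw [← hw']
      have h6 := LS.dist_smul_smul hact (D.oQ hφ hinj q * D.T hφ hinj ^ (ε : ℤ))
        (vO D hφ hinj 1) (vO D hφ hinj ((D.oQ hφ hinj q * D.T hφ hinj ^ (ε : ℤ))⁻¹ * g))
      rw [smul_vO, smul_vO, mul_one, mul_inv_cancel_left] at h6
      exact h6.symm)
    have hmid : ∀ y ∈ OE D hφ hinj, g⁻¹ * y * g ∈ OE D hφ hinj →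
        (D.oQ hφ hinj q)⁻¹ * y * D.oQ hφ hinj q ∈ OE D hφ hinj := by
      rintro _ ⟨e, rfl⟩ ⟨e', he'⟩
      rw [MonoidHom.comp_apply] at he' ⊢
      have h6 : D.oQ hφ hinj (D.phiQ hφ e) • vO D hφ hinj 1 = vO D hφ hinj 1 := by
        rw [mem_stab_hV, inv_one, one_mul, mul_one]
        exact ⟨_, rfl⟩
      have h7 : D.oQ hφ hinj (D.phiQ hφ e) • vO D hφ hinj g = vO D hφ hinj g := by
        rw [mem_stab_hV]
        exact ⟨_, he'⟩
      have h8 := hfix _ h6 h7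
      rw [mem_stab_hV] at h8
      have h9 : (D.oQ hφ hinj q * D.T hφ hinj ^ (ε : ℤ))⁻¹ * D.oQ hφ hinj (D.phiQ hφ e) *
          (D.oQ hφ hinj q * D.T hφ hinj ^ (ε : ℤ)) = (D.T hφ hinj ^ (ε : ℤ))⁻¹ *
          D.oQ hφ hinj (q⁻¹ * D.phiQ hφ e * q) * D.T hφ hinj ^ (ε : ℤ) := by
        rw [map_mul, map_mul, map_inv]
        group
      rw [h9] at h8
      have h10 := britton ε _ h8
      obtain ⟨e₁, he₁⟩ := h10
      refine ⟨e₁, ?_⟩
      rw [MonoidHom.comp_apply, he₁, map_mul, map_mul, map_inv]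
    have hsplit : g = D.oQ hφ hinj q * (D.T hφ hinj ^ (ε : ℤ) *
        ((D.oQ hφ hinj q * D.T hφ hinj ^ (ε : ℤ))⁻¹ * g)) := by group
    rcases hQ q with hq | hq
    · left
      exact fun y hy hy' hρ => hq y hy (hmid y hy hy') hρ
    rcases hg' with hg' | hg'
    · left
      intro y hy hy' hρ
      have h6 := OE_T D hφ hinj ε (hmid y hy hy')
      have h7 := hg' _ h6 (by
        have h8 : ((D.oQ hφ hinj q * D.T hφ hinj ^ (ε : ℤ))⁻¹ * g)⁻¹ *
            ((D.T hφ hinj ^ (ε : ℤ))⁻¹ * ((D.oQ hφ hinj q)⁻¹ * y * D.oQ hφ hinj q) *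
              D.T hφ hinj ^ (ε : ℤ)) *
            ((D.oQ hφ hinj q * D.T hφ hinj ^ (ε : ℤ))⁻¹ * g) = g⁻¹ * y * g := by group
        rw [h8]
        exact hy') (by
        simp only [map_mul, hρ, map_inv]
        group)
      have h8 : y = D.oQ hφ hinj q * (D.T hφ hinj ^ (ε : ℤ) *
          ((D.T hφ hinj ^ (ε : ℤ))⁻¹ * ((D.oQ hφ hinj q)⁻¹ * y * D.oQ hφ hinj q) *
              D.T hφ hinj ^ (ε : ℤ)) * (D.T hφ hinj ^ (ε : ℤ))⁻¹) * (D.oQ hφ hinj q)⁻¹ := by group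
      rw [h8, h7]
      group
    · right
      rw [hsplit]
      refine pBc_mul D hφ hinj j z h2 π hπ hq (pBc_mul D hφ hinj j z h2 π hπ (hT' ε) hg' ?_) ?_
      · exact fun y hy _ => OE_T D hφ hinj ε hy
      · intro y hy hy'
        rw [← hsplit] at hy'
        exact hmid y hy hy'

end

/-- Conjugates of lifts. -/
theorem liftData_conj {G H : Type} [Group G] [Group H] {f : H →* G} {D₀ : Subgroup G}
    {D' : Subgroup H} {g₀ : G} {t : H} (h : LiftData f D₀ D' g₀ t) {D : Subgroup G} (k : G)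
    (hD : ∀ x, x ∈ D ↔ k⁻¹ * x * k ∈ D₀) {g : G} (hg : g = k * g₀ * k⁻¹) :
    LiftData ((MulAut.conj k).toMonoidHom.comp f) D D' g t where
  map x hx := by
    rw [hD]
    have h1 : k⁻¹ * (k * f x * k⁻¹) * k = f x := by group
    change k⁻¹ * (k * f x * k⁻¹) * k ∈ D₀
    rw [h1]
    exact h.map x hx
  surj y hy := by
    obtain ⟨x, hx, hxy⟩ := h.surj _ ((hD y).1 hy)
    refine ⟨x, hx, ?_⟩
    change k * f x * k⁻¹ = y
    rw [hxy]
    group
  inj x hx h1 := by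
    refine h.inj x hx ?_
    have h2 : k * f x * k⁻¹ = 1 := h1
    have h3 : f x = k⁻¹ * (k * f x * k⁻¹) * k := by group
    rw [h3, h2]
    group
  ft := by
    change k * f t * k⁻¹ = g
    rw [h.ft, hg]
  conj x hx h1 := by
    refine h.conj x hx ?_
    rw [hD] at h1
    have h2 : k⁻¹ * (g⁻¹ * ((MulAut.conj k).toMonoidHom.comp f) x * g) * k = g₀⁻¹ * f x * g₀ := by
      change k⁻¹ * (g⁻¹ * (k * f x * k⁻¹) * g) * k = g₀⁻¹ * f x * g₀
      rw [hg]
      group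
    rwa [h2] at h1

theorem lift_of_injective {G H : Type} [Group G] [Group H] (f : H →* G)
    (hf : Function.Injective f) : Lift f :=
  ⟨Empty, inferInstance, fun j => j.elim, fun _ x _ hx => (injective_iff_map_eq_one f).1 hf x hx⟩

end Pool.Agent.Lib.MP_551055_al.N4
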