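import Mathlib
import Pool.Agent.Lib.MP_551055_al.Trim.LS.PStmts
import Pool.Agent.Lib.MP_551055_al.Trim.LS.Stmts
import Pool.Agent.Lib.MP_551055_al.Trim.N4.O_17
import Pool.Agent.Lib.MP_551055_al.Trim.N4.R_4
import Pool.Agent.Lib.MP_551055_al.Trim.N4.Stmts
import Pool.Agent.Lib.MP_551055_al.Trim.RI.HNN
import Pool.Agent.Lib.MP_551055_al.Trim.RI.HNN2
import Pool.Agent.Lib.MP_551055_al.Trim.RI.HNN3
import Pool.Agent.Lib.MP_551055_al.Trim.RI.LiftNil
import Pool.Agent.Lib.MP_551055_al.Trim.RI.Stmts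
import Pool.Agent.Lib.MP_551055_al.Trim.X.MP_e6f638_al.F
import Pool.Agent.Lib.MP_551055_al.Trim.X.MP_e6f638_al.GDefs
import Pool.Agent.Lib.MP_551055_al.Trim.X.MP_e6f638_al.I1
import Pool.Agent.Lib.MP_551055_al.Trim.X.MP_e6f638_al.Stmts

/-!
# The rules for classes of groups

The modules O, R and G1 for an arbitrary class of groups closed under lifts and the edge rule.
-/

set_option autoImplicit false

namespace Pool.Agent.Lib.MP_551055_al
end Pool.Agent.Lib.MP_551055_al

namespace Pool.Agent.Lib.MP_e6f638_al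
end Pool.Agent.Lib.MP_e6f638_al

namespace Pool.Agent.Lib.MP_551055_al.LS
end Pool.Agent.Lib.MP_551055_al.LS

namespace Pool.Agent.Lib.MP_551055_al.RI
end Pool.Agent.Lib.MP_551055_al.RI

namespace Pool.Agent.Lib.MP_551055_al.N4

open Pool.Agent.Lib.MP_551055_al

open Pool.Agent.Lib.MP_e6f638_al (Dat EA gen par rho del IsDatOf IsAxis)

open Pool.Agent.Lib.MP_551055_al.LS (TreeAct ZN)

open Pool.Agent.Lib.MP_551055_al.RI

open Multiplicative

/-- Classes of groups closed under lifts and under actions on trees with lifts for the pairs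
(edge stabiliser, element). -/
structure Rules (P : ∀ (G : Type) [Group G], Prop) : Prop where
  lift : ∀ (G H : Type) [Group G] [Group H] (f : H →* G), Lift f → P G → P H
  edge : ∀ (G : Type) [Group G] (t : BTree G), (∀ v : t.V, P (MulAction.stabilizer G v)) →
    (∀ u v : t.V, t.T.Adj u v → ∀ g : G, ∃ (G₁ : Type) (_ : Group G₁) (a : G₁ →* G)
      (D₁ : Subgroup G₁) (s : G₁), LiftData a (MulAction.stabilizer G (u, v)) D₁ g s ∧ P G₁) →
    P G

namespace Rules

variable {P : ∀ (G : Type) [Group G], Prop} (hP : Rules P)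

include hP

/-- HNN extensions with a homomorphism which is injective on the associated subgroup. -/
theorem hnn (K : Type) [Group K] (A B : Subgroup K) (φ : A ≃* B) (Q : Type) [Group Q]
    (f : HNNExtension K A B φ →* Q) (hK : P K) (hQ : P Q)
    (hA : ∀ x ∈ A, f (HNNExtension.of x) = 1 → x = 1) : P (HNNExtension K A B φ) := by
  refine hP.edge _ ⟨hV A B φ, inferInstance, hT A B φ, hT_treeAct A B φ⟩ (fun v => ?_)
    fun u v huv g => ?_
  · obtain ⟨i, hi⟩ := exists_stab_hV (φ := φ) v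
    exact hP.lift K _ i (Lift.of_injective hi) hK
  · refine ⟨LH (MulAction.stabilizer (HNNExtension K A B φ) (u, v)) g, inferInstance, lf _ g,
      lD _ g, HNNExtension.t, liftData_hnn _ g, ?_⟩
    refine hP.lift Q _ (f.comp (lf _ g)) ⟨Unit, inferInstance, fun _ =>
      ⟨hV (lA _ g) (lB _ g) (lE _ g), inferInstance, hT (lA _ g) (lB _ g) (lE _ g),
        hT_treeAct _ _ _⟩, fun w x hx h1 => ?_⟩ hQ
    refine lf_stab_inj _ g (hx ()) ?_
    obtain ⟨c, hc⟩ := lf_stab_mem (MulAction.stabilizer (HNNExtension K A B φ) (u, v)) g (w ())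
    have h2 : c⁻¹ * lf _ g x * c ∈ MulAction.stabilizer (HNNExtension K A B φ) (u, v) :=
      hc x (hx ())
    have h3 : (c⁻¹ * lf _ g x * c) • (u, v) = (u, v) := h2
    have h4 : c⁻¹ * lf _ g x * c = 1 := by
      refine hnn_edge_inj f hA huv (congrArg Prod.fst h3) (congrArg Prod.snd h3) ?_
      have h5 : f (lf _ g x) = 1 := h1
      rw [map_mul, map_mul, h5, mul_one, ← map_mul, inv_mul_cancel, map_one]
    have h6 : lf _ g x = c * (c⁻¹ * lf _ g x * c) * c⁻¹ := by group
    rw [h6, h4, mul_one, mul_inv_cancel]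

/-- Centralisers may be extended. -/
theorem cent (K : Type) [Group K] (C : Subgroup K) (hK : P K) :
    P (HNNExtension K C C (MulEquiv.refl C)) := by
  have h2 : ∀ a : C, (1 : K) * MonoidHom.id K a = MonoidHom.id K (MulEquiv.refl C a : K) * 1 :=
    fun a => by rw [one_mul, mul_one]; rfl
  refine hP.hnn K C C (MulEquiv.refl C) K (HNNExtension.lift (MonoidHom.id K) 1 h2) hK hK
    fun x _ h => ?_
  rw [HNNExtension.lift_of] at h
  exact h

/-- One step: a new element which commutes with the elements of `X`. -/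
theorem one {G : Type} [Group G] (hG : P G) (X : Set G) :
    ∃ (G₁ : Type) (_ : Group G₁) (j : G →* G₁) (w : G₁), P G₁ ∧
      (∀ x ∈ X, Commute w (j x)) ∧
      ∀ (K : Type) [Group K] (f : G →* K) (w' : K), (∀ x ∈ X, Commute w' (f x)) →
        ∃ F : G₁ →* K, F.comp j = f ∧ F w = w' := by
  refine ⟨HNNExtension G (Subgroup.closure X) (Subgroup.closure X) (MulEquiv.refl _),
    inferInstance, HNNExtension.of, HNNExtension.t, hP.cent G _ hG, fun x hx => ?_,
    fun K _ f w' h => ?_⟩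
  · exact HNNExtension.t_mul_of (φ := MulEquiv.refl _) (⟨x, Subgroup.subset_closure hx⟩ :
      Subgroup.closure X)
  · have h1 : ∀ a ∈ Subgroup.closure X, Commute w' (f a) := by
      intro a ha
      induction ha using Subgroup.closure_induction with
      | mem x hx => exact h x hx
      | one => rw [map_one]; exact Commute.one_right _
      | mul x y _ _ hx hy => rw [map_mul]; exact hx.mul_right hy
      | inv x _ hx => rw [map_inv]; exact hx.inv_right
    have h2 : ∀ a : Subgroup.closure X,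
        w' * f a = f (MulEquiv.refl (Subgroup.closure X) a : G) * w' := fun a => h1 a a.2
    refine ⟨HNNExtension.lift (φ := MulEquiv.refl (Subgroup.closure X)) f w' h2, ?_, ?_⟩
    · ext g
      exact HNNExtension.lift_of f w' h2 g
    · exact HNNExtension.lift_t f w' h2

/-- Finitely many new elements. -/
theorem many {G : Type} [Group G] (hG : P G) (ι : Type) [Finite ι] :
    ∀ X : ι → Set G, ∃ (G₁ : Type) (_ : Group G₁) (j : G →* G₁) (z : ι → G₁), P G₁ ∧
      (∀ i, ∀ x ∈ X i, Commute (z i) (j x)) ∧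
      ∀ (K : Type) [Group K] (f : G →* K) (z' : ι → K), (∀ i, ∀ x ∈ X i, Commute (z' i) (f x)) →
        ∃ F : G₁ →* K, F.comp j = f ∧ ∀ i, F (z i) = z' i := by
  induction ι using Finite.induction_empty_option with
  | of_equiv e ih =>
    intro X
    obtain ⟨G₁, iG, j, z, h1, h2, h3⟩ := ih fun a => X (e a)
    refine ⟨G₁, iG, j, fun b => z (e.symm b), h1, fun i x hx => h2 _ x (by simpa using hx),
      fun K _ f z' h => ?_⟩
    obtain ⟨F, hF, hz⟩ := h3 K f (fun a => z' (e a)) fun i x hx => h _ x hx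
    exact ⟨F, hF, fun i => by rw [hz]; simp⟩
  | h_empty =>
    intro X
    refine ⟨G, inferInstance, MonoidHom.id G, fun i => i.elim, hG, fun i => i.elim,
      fun K _ f z' _ => ⟨f, MonoidHom.comp_id f, fun i => i.elim⟩⟩
  | h_option ih =>
    intro X
    obtain ⟨G₁, iG, j, z, h1, h2, h3⟩ := ih fun a => X (some a)
    obtain ⟨G₂, iG₂, j₂, w, k1, k2, k3⟩ := hP.one h1 (j '' X none)
    refine ⟨G₂, iG₂, j₂.comp j, fun o => o.elim w fun a => j₂ (z a), k1, fun i x hx => ?_,
      fun K _ f z' h => ?_⟩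
    · cases i with
      | none => exact k2 _ ⟨x, hx, rfl⟩
      | some a => exact (h2 a x hx).map j₂
    · obtain ⟨F, hF, hz⟩ := h3 K f (fun a => z' (some a)) fun i x hx => h _ x hx
      obtain ⟨F₂, hF₂, hw⟩ := k3 K F (z' none) (by
        rintro _ ⟨x, hx, rfl⟩
        have : F (j x) = f x := congrArg (fun φ : G →* K => φ x) hF
        rw [this]
        exact h none x hx)
      refine ⟨F₂, by rw [← MonoidHom.comp_assoc, hF₂, hF], fun i => ?_⟩
      cases i with
      | none => exact hw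
      | some a =>
        have : F₂ (j₂ (z a)) = F (z a) := congrArg (fun φ : G₁ →* K => φ (z a)) hF₂
        exact this.trans (hz a)

/-- The iterated centraliser extension. -/
theorem g1 (G : Type) [Group G] (D : Dat G) (hfin : Finite D.ι) (hG : P G) :
    ∃ (G₁ : Type) (_ : Group G₁) (j : G →* G₁) (z : D.ι → G₁) (w : G₁), P G₁ ∧
      (∀ i, Commute (z i) (j (D.t i))) ∧
      (∀ i, ∀ b ∈ D.B, Commute b (D.t i) → Commute (z i) (j b)) ∧
      (∀ b ∈ D.B, Commute w (j b)) ∧ (∀ i, Commute w (z i)) ∧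
      ∀ (K : Type) [Group K] (f : G →* K) (z' : D.ι → K) (w' : K),
        (∀ i, Commute (z' i) (f (D.t i))) →
        (∀ i, ∀ b ∈ D.B, Commute b (D.t i) → Commute (z' i) (f b)) →
        (∀ b ∈ D.B, Commute w' (f b)) → (∀ i, Commute w' (z' i)) →
        ∃ F : G₁ →* K, F.comp j = f ∧ (∀ i, F (z i) = z' i) ∧ F w = w' := by
  obtain ⟨G₁, iG, j, z, h1, h2, h3⟩ := hP.many hG D.ι
    fun i => {D.t i} ∪ {b | b ∈ D.B ∧ Commute b (D.t i)}
  obtain ⟨G₂, iG₂, j₂, w, k1, k2, k3⟩ := hP.one h1 (j '' D.B ∪ Set.range z)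
  refine ⟨G₂, iG₂, j₂.comp j, fun i => j₂ (z i), w, k1,
    fun i => (h2 i _ (Or.inl rfl)).map j₂, fun i b hb hc => (h2 i b (Or.inr ⟨hb, hc⟩)).map j₂,
    fun b hb => k2 _ (Or.inl ⟨b, hb, rfl⟩), fun i => k2 _ (Or.inr ⟨i, rfl⟩),
    fun K _ f z' w' a1 a2 a3 a4 => ?_⟩
  obtain ⟨F, hF, hz⟩ := h3 K f z' (by
    rintro i x (rfl | ⟨hb, hc⟩)
    · exact a1 i
    · exact a2 i x hb hc)
  obtain ⟨F₂, hF₂, hw⟩ := k3 K F w' (by
    rintro _ (⟨x, hx, rfl⟩ | ⟨i, rfl⟩)
    · have : F (j x) = f x := congrArg (fun φ : G →* K => φ x) hF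
      rw [this]
      exact a3 x hx
    · rw [hz]
      exact a4 i)
  refine ⟨F₂, by rw [← MonoidHom.comp_assoc, hF₂, hF], fun i => ?_, hw⟩
  have : F₂ (j₂ (z i)) = F (z i) := congrArg (fun φ : G₁ →* K => φ (z i)) hF₂
  exact this.trans (hz i)

/-- The group `Omega`. -/
theorem omega (G : Type) [Group G] (D : Dat G) (hfin : Finite D.ι) (hS1 : S1 D) (hS2 : S2 D)
    (hG : P G) (hφ : D.IsPhi D.phi) (hinj : Function.Injective D.phi) :
    P (D.Om hφ hinj) := by
  obtain ⟨G₁, _, j, z, w, hG₁, h1, h2, h3, h4, huniv⟩ := hP.g1 G D hfin hG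
  have hpow := D.psi_pow hφ hinj
  have hc1 : ∀ i, Commute (D.oQ hφ hinj (D.phiQ hφ (D.z i))) (D.psiG hφ hinj (D.t i)) := by
    intro i
    have h5 := D.psi_rel hφ hinj i
    rw [hpow] at h5
    exact h5
  obtain ⟨π, p1, p2, p3⟩ := huniv (D.Om hφ hinj) (D.psiG hφ hinj)
    (fun i => D.oQ hφ hinj (D.phiQ hφ (D.z i))) (D.psiv hφ hinj) hc1 (by
      intro i b hb hc
      have hb1 := D.h_B b hb
      rw [D.psiG_of_one hφ hinj hb1]
      change D.oQ hφ hinj (D.phiQ hφ (D.z i)) * D.oQ hφ hinj (D.phiQ hφ (D.inE ⟨b, hb1⟩)) = _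
      rw [← map_mul, ← map_mul, D.z_comm i ⟨b, hb1⟩ hb hc, map_mul, map_mul]
      rfl) (fun b hb => (D.psi_comm hφ hinj b hb).symm) (by
      intro i
      have h5 := hc1 i
      have h6 : Commute (D.psiG hφ hinj (D.t i) * D.psiv hφ hinj)
          (D.oQ hφ hinj (D.phiQ hφ (D.z i))) := by
        rw [← hpow]
        exact (Commute.refl _).pow_right _
      have h7 : D.psiv hφ hinj = (D.psiG hφ hinj (D.t i))⁻¹ *
          (D.psiG hφ hinj (D.t i) * D.psiv hφ hinj) := by group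
      rw [h7]
      exact (h5.symm.inv_left).mul_left h6)
  have hπ := pi_th D hφ hinj j z h2 π p1 p2
  have hAh : P D.Ah := hP.cent G D.B hG
  have hQ : P D.hh.ker :=
    hP.lift _ _ D.hh.ker.subtype (lift_of_injective _ (Subgroup.subtype_injective _)) hAh
  have hOE : P (OE D hφ hinj) := by
    have h5 : Function.Injective ((D.oQ hφ hinj).comp (D.phiQ hφ)) := by
      intro a b hab
      exact D.phiQ_inj hφ hinj (oQ_inj D hφ hinj hab)
    refine hP.lift _ _ ((D.phiQ hφ).comp (MonoidHom.ofInjective h5).symm.toMonoidHom)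
      (lift_of_injective _ ?_) hQ
    exact (D.phiQ_inj hφ hinj).comp (MonoidHom.ofInjective h5).symm.injective
  have hp := fun g => p_all D hφ hinj j z h2 π hπ
    (fun q => p_Q D hφ hinj j z w h1 h2 h3 h4 π p1 p2 p3 hS1 hS2 q) (fun ε => by
      have h5 := pBc_T D hφ hinj j z h1 h2 π ε
      have h6 := DFunLike.congr_fun p1 D.t₀
      rw [MonoidHom.comp_apply, D.psiG_t₀] at h6
      rwa [map_zpow, h6] at h5) _ g rfl
  refine hP.edge (D.Om hφ hinj) ⟨_, inferInstance, _,
    hT_treeAct (D.phiQ hφ).range (D.phiQ hφ).range (D.tauQ hφ hinj)⟩ (fun v => ?_)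
    (fun u v huv g => ?_)
  · obtain ⟨i, hi⟩ := RI.exists_stab_hV v
    exact hP.lift _ _ i (lift_of_injective _ hi) hQ
  · obtain ⟨k, ε, rfl, rfl⟩ := huv
    have hD : ∀ x, x ∈ MulAction.stabilizer (D.Om hφ hinj) (vO D hφ hinj k,
        vO D hφ hinj (k * HNNExtension.t ^ (ε : ℤ))) ↔ k⁻¹ * x * k ∈ OE D hφ hinj := by
      intro x
      rw [MulAction.mem_stabilizer_iff, Prod.smul_mk, Prod.mk.injEq, mem_stab_hV, mem_stab_hV]
      constructor
      · rintro ⟨⟨q, hq⟩, h6⟩
        have h7 : (k * HNNExtension.t ^ (ε : ℤ))⁻¹ * x * (k * HNNExtension.t ^ (ε : ℤ)) =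
            (D.T hφ hinj ^ (ε : ℤ))⁻¹ * D.oQ hφ hinj q * D.T hφ hinj ^ (ε : ℤ) := by
          have h8 : D.oQ hφ hinj q = k⁻¹ * x * k := hq
          rw [h8]
          group
        rw [h7] at h6
        obtain ⟨e, rfl⟩ := britton ε _ h6
        exact ⟨e, hq⟩
      · intro h5
        have h6 := OE_T D hφ hinj ε h5
        refine ⟨?_, ?_⟩
        · obtain ⟨e, he⟩ := h5
          exact ⟨_, he⟩
        · obtain ⟨e, he⟩ := h6
          refine ⟨_, he.trans ?_⟩
          group
    have hg : g = k * (k⁻¹ * g * k) * k⁻¹ := by group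
    rcases hp (k⁻¹ * g * k) with h5 | ⟨gh, h5, h6⟩
    · refine ⟨RI.LH (OE D hφ hinj) (k⁻¹ * g * k), inferInstance, _, _, HNNExtension.t,
        liftData_conj (D₀ := OE D hφ hinj) (RI.liftData_hnn (OE D hφ hinj) (k⁻¹ * g * k)) k hD hg,
        ?_⟩
      refine hP.hnn _ _ _ _ G ((rhoO D hφ hinj).comp (RI.lf (OE D hφ hinj) (k⁻¹ * g * k))) hOE hG
        fun x hx h6 => ?_
      rw [MonoidHom.comp_apply, RI.lf_of] at h6
      rw [RI.mem_lA] at hx
      have h7 := h5 _ hx (by
        have h8 : (k⁻¹ * g * k)⁻¹ * (k⁻¹ * g * k * (x : D.Om hφ hinj) * (k⁻¹ * g * k)⁻¹) *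
          (k⁻¹ * g * k) = x := by group
        rw [h8]
        exact x.2) (by
        simp only [map_mul, map_inv] at h6 ⊢
        rw [h6]
        group)
      apply Subtype.ext
      have h8 : (x : D.Om hφ hinj) = (k⁻¹ * g * k)⁻¹ *
          (k⁻¹ * g * k * (x : D.Om hφ hinj) * (k⁻¹ * g * k)⁻¹) * (k⁻¹ * g * k) := by group
      rw [h8, h7, mul_one, inv_mul_cancel]
      rfl
    · refine ⟨G₁, inferInstance, _, (th D j z h2).range, gh,
        liftData_conj (D₀ := OE D hφ hinj) (g₀ := k⁻¹ * g * k) (f := π) ?_ k hD hg, hG₁⟩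
      refine ⟨?_, ?_, ?_, h5, ?_⟩
      · rintro _ ⟨e, rfl⟩
        rw [hπ]
        exact ⟨e, rfl⟩
      · rintro _ ⟨e, rfl⟩
        exact ⟨_, ⟨e, rfl⟩, hπ e⟩
      · rintro _ ⟨e, rfl⟩ h7
        rw [hπ] at h7
        have h8 : D.phiQ hφ e = 1 := oQ_inj D hφ hinj (by rw [h7, map_one])
        have h9 : e = 1 := D.phiQ_inj hφ hinj (by rw [h8, map_one])
        rw [h9, map_one]
      · rintro _ ⟨e, rfl⟩ h7
        rw [hπ] at h7
        exact h6 e h7

end Rules

end Pool.Agent.Lib.MP_551055_al.N4
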