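import Mathlib
import Pool.Agent.Lib.MP_551055_al.Trim.EA.Stmts
import Pool.Agent.Lib.MP_551055_al.Trim.EA.TD
import Pool.Agent.Lib.MP_551055_al.Trim.LO.Base
import Pool.Agent.Lib.MP_551055_al.Trim.LS.Clo2
import Pool.Agent.Lib.MP_551055_al.Trim.LS.PStmts
import Pool.Agent.Lib.MP_551055_al.Trim.LS.Stmts
import Pool.Agent.Lib.MP_551055_al.Trim.LS.Stmts3
import Pool.Agent.Lib.MP_551055_al.Trim.N4.R_4
import Pool.Agent.Lib.MP_551055_al.Trim.N4.Rules_17
import Pool.Agent.Lib.MP_551055_al.Trim.N4.Stmts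
import Pool.Agent.Lib.MP_551055_al.Trim.RI.FinalH
import Pool.Agent.Lib.MP_551055_al.Trim.RI.HNN
import Pool.Agent.Lib.MP_551055_al.Trim.RI.HNN2
import Pool.Agent.Lib.MP_551055_al.Trim.RI.LiftNil
import Pool.Agent.Lib.MP_551055_al.Trim.RI.Stmts
import Pool.Agent.Lib.MP_551055_al.Trim.T4.FinalT
import Pool.Agent.Lib.MP_551055_al.Trim.T4.Geo
import Pool.Agent.Lib.MP_551055_al.Trim.VNDefs
import Pool.Agent.Lib.MP_551055_al.Trim.W17.StF
import Pool.Agent.Lib.MP_551055_al.Trim.X.MP_e6f638_al.A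
import Pool.Agent.Lib.MP_551055_al.Trim.X.MP_e6f638_al.I1
import Pool.Agent.Lib.MP_551055_al.Trim.X.MP_e6f638_al.Stmts

/-!
# Groups which are good for all homomorphisms with small kernels
-/

set_option autoImplicit false

namespace Pool.Agent.Lib.MP_551055_al
end Pool.Agent.Lib.MP_551055_al

namespace Pool.Agent.Lib.MP_e6f638_al
end Pool.Agent.Lib.MP_e6f638_al

namespace Pool.Agent.Lib.MP_551055_al.LS
end Pool.Agent.Lib.MP_551055_al.LS

namespace Pool.Agent.Lib.MP_551055_al.RI
end Pool.Agent.Lib.MP_551055_al.RI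

namespace Pool.Agent.Lib.MP_551055_al.W17
end Pool.Agent.Lib.MP_551055_al.W17

namespace Pool.Agent.Lib.MP_551055_al.N4

open Pool.Agent.Lib.MP_551055_al

open Pool.Agent.Lib.MP_e6f638_al (Dat EA gen par rho del IsDatOf IsAxis)

open Pool.Agent.Lib.MP_551055_al.LS (TreeAct ZN)

open Pool.Agent.Lib.MP_551055_al.RI

open Pool.Agent.Lib.MP_551055_al.W17 (SF)

open Multiplicative

/-- `H` acts on finitely many trees such that the elements of the kernel of `f` which fix a tuple of
vertices form a group of tree dimension at most `j`. -/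
def LiftJ (j : ℕ) {G H : Type} [Group G] [Group H] (f : H →* G) : Prop :=
  ∃ (J : Type) (_ : Finite J) (τ : J → BTree H), ∀ v : ∀ j, (τ j).V,
    EA.TD j (f.ker ⊓ stabV τ v : Subgroup H)

/-- All groups with a homomorphism to `G` with small kernel are good. -/
def HerJ (j : ℕ) (G : Type) [Group G] : Prop :=
  ∀ (H : Type) [Group H] (f : H →* G), LiftJ j f → ∀ n : ℕ, VN.ProjStFree (H × ZN n)

variable {j : ℕ}

/-- Subgroups. -/
theorem td_map {n : ℕ} {G H : Type} [Group G] [Group H] {A : Subgroup G} {B : Subgroup H}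
    (h : EA.TD n A) (f : H →* G) (h1 : ∀ x ∈ B, f x ∈ A) (h2 : ∀ x ∈ B, f x = 1 → x = 1) :
    EA.TD n B := by
  refine h.of_injective B ((f.comp B.subtype).codRestrict A fun x => h1 x x.2) ?_
  rw [injective_iff_map_eq_one]
  intro x hx
  exact Subtype.ext (h2 x x.2 (congrArg Subtype.val hx))

theorem LiftJ.comp {G H K : Type} [Group G] [Group H] [Group K] {f : H →* G} {k : K →* H}
    (hf : Lift f) (hk : LiftJ j k) : LiftJ j (f.comp k) := by
  obtain ⟨J, _, τ, h⟩ := hf
  obtain ⟨I, _, σ, h'⟩ := hk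
  refine ⟨I ⊕ J, inferInstance, Sum.elim σ fun j => (τ j).res k, fun v => ?_⟩
  refine td_map (h' fun i => v (Sum.inl i)) (MonoidHom.id K) (fun x hx => ⟨?_, fun i =>
    hx.2 (Sum.inl i)⟩) fun x _ h => h
  exact h (fun j => v (Sum.inr j)) (k x) (fun j => hx.2 (Sum.inr j)) hx.1

/-- Restriction to a subgroup of the source and of the target. -/
theorem LiftJ.restrict {G H K G' : Type} [Group G] [Group H] [Group K] [Group G'] {f : H →* G}
    (hf : LiftJ j f) (i : K →* H) (hi : Function.Injective i) (φ : K →* G') (c : G' →* G)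
    (hc : ∀ x, c (φ x) = f (i x)) : LiftJ j φ := by
  obtain ⟨J, _, τ, h⟩ := hf
  refine ⟨J, inferInstance, fun j => (τ j).res i, fun v => ?_⟩
  refine td_map (h v) i (fun x hx => ⟨?_, fun j => hx.2 j⟩) fun x _ h1 =>
    (injective_iff_map_eq_one i).1 hi x h1
  have h1 : φ x = 1 := hx.1
  change f (i x) = 1
  rw [← hc, h1, map_one]

theorem herJ_lift (G H : Type) [Group G] [Group H] (f : H →* G) (hf : Lift f) (hG : HerJ j G) :
    HerJ j H := fun K _ _ hk => hG K _ (LiftJ.comp hf hk)

theorem herJ_edge (G : Type) [Group G] (t : BTree G)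
    (hstab : ∀ v : t.V, HerJ j (MulAction.stabilizer G v))
    (hE : ∀ u v : t.V, t.T.Adj u v → ∀ g : G, ∃ (G₁ : Type) (_ : Group G₁) (a : G₁ →* G)
      (D₁ : Subgroup G₁) (s : G₁), LiftData a (MulAction.stabilizer G (u, v)) D₁ g s ∧
        HerJ j G₁) : HerJ j G := by
  intro H _ f hf n
  let tH : BTree H := t.res f
  have hv : ∀ v : tH.V, ∀ m, VN.ProjStFree (MulAction.stabilizer H v × ZN m) := by
    intro v m
    let φ : MulAction.stabilizer H v →* MulAction.stabilizer G (show t.V from v) :=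
      (f.comp (MulAction.stabilizer H v).subtype).codRestrict _ fun x => x.2
    exact hstab v _ φ (hf.restrict (MulAction.stabilizer H v).subtype Subtype.val_injective φ
      (MulAction.stabilizer G (show t.V from v)).subtype fun x => rfl) m
  have he : ∀ u v : tH.V, ∀ m, VN.ProjStFree (MulAction.stabilizer H (u, v) × ZN m) := by
    intro u v m
    have h3 : ∀ x : MulAction.stabilizer H (u, v),
        f x ∈ MulAction.stabilizer G (show t.V from u) := fun x =>
      congrArg Prod.fst (MulAction.mem_stabilizer_iff.1 x.2)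
    let φ : MulAction.stabilizer H (u, v) →* MulAction.stabilizer G (show t.V from u) :=
      (f.comp (MulAction.stabilizer H (u, v)).subtype).codRestrict _ h3
    exact hstab u _ φ (hf.restrict (MulAction.stabilizer H (u, v)).subtype Subtype.val_injective φ
      (MulAction.stabilizer G (show t.V from u)).subtype fun x => rfl) m
  refine stFinalH n H tH.V tH.T tH.tree (fun v => hv v n) (fun u v _ => he u v (n + 1))
    (fun u v => u ≠ v) (bar_ne _) fun u v huv _ => Or.inr (Or.inr fun g _ => ?_)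
  refine ⟨LH (MulAction.stabilizer H (u, v)) g, inferInstance, lf _ g, lD _ g, HNNExtension.t,
    liftData_hnn _ g, ?_⟩
  obtain ⟨w, hw, hle⟩ := T4.exists_edge_stab tH.tree huv
  obtain ⟨G₁, _, a, D₁, s, hL, hH⟩ := hE w v hw (f g)
  -- the map to `G₁`
  have hfD : ∀ x ∈ MulAction.stabilizer H (u, v), f x ∈
      MulAction.stabilizer G ((show t.V from w), (show t.V from v)) := by
    intro x hx
    exact hle hx
  have hb : Function.Bijective ((a.comp D₁.subtype).codRestrict
      (MulAction.stabilizer G ((show t.V from w), (show t.V from v))) fun x => hL.map x x.2) := by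
    constructor
    · rw [injective_iff_map_eq_one]
      intro x hx
      exact Subtype.ext (hL.inj x x.2 (congrArg Subtype.val hx))
    · rintro ⟨y, hy⟩
      obtain ⟨x, hx, hxy⟩ := hL.surj y hy
      exact ⟨⟨x, hx⟩, Subtype.ext hxy⟩
  let e : D₁ ≃* MulAction.stabilizer G ((show t.V from w), (show t.V from v)) :=
    MulEquiv.ofBijective _ hb
  have hae : ∀ y, a (e.symm y) = y := fun y => congrArg Subtype.val (e.apply_symm_apply y)
  let θ₀ : MulAction.stabilizer H (u, v) →* G₁ := D₁.subtype.comp (e.symm.toMonoidHom.comp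
    ((f.comp (Subgroup.subtype _)).codRestrict _ fun x => hfD x x.2))
  have hθm : ∀ x, θ₀ x ∈ D₁ := fun x => (e.symm _).2
  have hθa : ∀ x, a (θ₀ x) = f x := fun x => hae _
  have hinj : ∀ x ∈ D₁, ∀ y ∈ D₁, a x = a y → x = y := fun x hx y hy hxy => by
    have h1 := hL.inj (x * y⁻¹) (D₁.mul_mem hx (D₁.inv_mem hy)) (by
      rw [map_mul, map_inv, hxy, mul_inv_cancel])
    exact mul_inv_eq_one.1 h1
  have hθ : ∀ x : lA (MulAction.stabilizer H (u, v)) g,
      s * θ₀ x = θ₀ (lE (MulAction.stabilizer H (u, v)) g x) * s := by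
    intro x
    have h1 : f (lE (MulAction.stabilizer H (u, v)) g x : MulAction.stabilizer H (u, v)) =
        f g * f x.1 * (f g)⁻¹ := by
      rw [← map_mul, ← map_inv, ← map_mul]
      rfl
    have h2 := hL.conj (θ₀ (lE (MulAction.stabilizer H (u, v)) g x)) (hθm _) (by
      rw [hθa, h1]
      have h3 : (f g)⁻¹ * (f g * f x.1 * (f g)⁻¹) * f g = f x.1 := by group
      rw [h3]
      exact hfD _ x.1.2)
    have h4 : s⁻¹ * θ₀ (lE (MulAction.stabilizer H (u, v)) g x) * s = θ₀ x := by
      refine hinj _ h2 _ (hθm _) ?_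
      rw [map_mul, map_mul, map_inv, hL.ft, hθa, hθa, h1]
      group
    rw [← h4]
    group
  let θ : LH (MulAction.stabilizer H (u, v)) g →* G₁ := HNNExtension.lift θ₀ s hθ
  have hθf : ∀ x, a (θ x) = f (lf _ g x) := by
    have h1 : a.comp θ = f.comp (lf _ g) := by
      refine HNNExtension.hom_ext ?_ ?_
      · ext x
        change a (θ (HNNExtension.of x)) = f (lf _ g (HNNExtension.of x))
        rw [lf_of, HNNExtension.lift_of, hθa]
      · change a (θ HNNExtension.t) = f (lf _ g HNNExtension.t)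
        rw [lf_t, HNNExtension.lift_t, hL.ft]
    exact fun x => congrArg (fun φ : _ →* G => φ x) h1
  refine hH _ θ ?_ n
  obtain ⟨J, _, τ, hτ⟩ := hf
  let τ0 : BTree (LH (MulAction.stabilizer H (u, v)) g) :=
    ⟨hV (lA (MulAction.stabilizer H (u, v)) g) (lB _ g) (lE _ g), inferInstance,
      hT (lA _ g) (lB _ g) (lE _ g), hT_treeAct _ _ _⟩
  refine ⟨Option J, inferInstance, fun o => o.elim τ0 fun j => (τ j).res (lf _ g),
    fun w => ?_⟩
  refine td_map (hτ fun j => w (some j)) (lf _ g) (fun x hx => ⟨?_, fun j => hx.2 (some j)⟩)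
    fun x hx h1 => lf_stab_inj _ g (hx.2 none) h1
  have h1 : θ x = 1 := hx.1
  change f (lf _ g x) = 1
  rw [← hθf, h1, map_one]

theorem rules (j : ℕ) : Rules (HerJ j) where
  lift := herJ_lift
  edge := herJ_edge

/-- Directed unions. -/
theorem herJ_union (G : Type) [Group G]
    (h : ∀ s : Finset G, ∃ H : Subgroup G, (s : Set G) ⊆ H ∧ HerJ j H) : HerJ j G := by
  classical
  intro K _ f hf n
  refine LS.closure_local n K fun s => ?_
  obtain ⟨H, hs, hH⟩ := h (s.image f)
  have hs' : ∀ g ∈ s, f g ∈ H := fun g hg => hs (by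
    rw [Finset.coe_image]
    exact ⟨g, hg, rfl⟩)
  let A : Subgroup K := H.comap f
  refine ⟨A, inferInstance, A.subtype, fun g => if h : g ∈ A then ⟨g, h⟩ else 1, fun g hg => ?_,
    fun a ha b hb hab => ?_, ?_⟩
  · beta_reduce
    rw [dif_pos (show g ∈ A from hs' g hg)]
    rfl
  · beta_reduce
    rw [dif_pos (show a ∈ A from hs' a ha), dif_pos (show b ∈ A from hs' b hb),
      dif_pos (show a * b ∈ A from hs' _ hab)]
    rfl
  · exact hH A ((f.comp A.subtype).codRestrict H fun x => x.2)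
      (hf.restrict A.subtype Subtype.val_injective _ H.subtype fun x => rfl) n

/-- Actions on a tree with homomorphisms which are injective on the edge stabilisers. -/
theorem Rules.tree_hom {P : ∀ (G : Type) [Group G], Prop} (hP : Rules P) (G : Type) [Group G]
    (t : BTree G) (hv : ∀ v : t.V, P (MulAction.stabilizer G v))
    (he : ∀ u v : t.V, t.T.Adj u v → ∃ (Q : Type) (_ : Group Q) (f : G →* Q), P Q ∧
      ∀ x ∈ MulAction.stabilizer G (u, v), f x = 1 → x = 1) : P G := by
  refine hP.edge G t hv fun u v huv g => ?_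
  obtain ⟨Q, _, f, hQ, hf⟩ := he u v huv
  refine ⟨LH (MulAction.stabilizer G (u, v)) g, inferInstance, lf _ g,
    lD _ g, HNNExtension.t, liftData_hnn _ g, ?_⟩
  refine hP.lift Q _ (f.comp (lf _ g)) ⟨Unit, inferInstance, fun _ =>
    ⟨hV (lA _ g) (lB _ g) (lE _ g), inferInstance, hT (lA _ g) (lB _ g) (lE _ g),
      hT_treeAct _ _ _⟩, fun w x hx h1 => ?_⟩ hQ
  refine lf_stab_inj _ g (hx ()) ?_
  obtain ⟨c, hc⟩ := lf_stab_mem (MulAction.stabilizer G (u, v)) g (w ())
  have h2 : c⁻¹ * lf _ g x * c ∈ MulAction.stabilizer G (u, v) := hc x (hx ())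
  have h4 : c⁻¹ * lf _ g x * c = 1 := by
    refine hf _ h2 ?_
    have h5 : f (lf _ g x) = 1 := h1
    rw [map_mul, map_mul, h5, mul_one, ← map_mul, inv_mul_cancel, map_one]
  have h6 : lf _ g x = c * (c⁻¹ * lf _ g x * c) * c⁻¹ := by group
  rw [h6, h4, mul_one, mul_inv_cancel]

end Pool.Agent.Lib.MP_551055_al.N4
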