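import Mathlib
import Pool.Agent.Lib.MP_551055_al.Trim.LS.PStmts
import Pool.Agent.Lib.MP_551055_al.Trim.LS.Stmts
import Pool.Agent.Lib.MP_551055_al.Trim.MT.Flow2
import Pool.Agent.Lib.MP_551055_al.Trim.MT.K1
import Pool.Agent.Lib.MP_551055_al.Trim.N4.Stmts
import Pool.Agent.Lib.MP_551055_al.Trim.RI.HNN
import Pool.Agent.Lib.MP_551055_al.Trim.RI.LiftNil
import Pool.Agent.Lib.MP_551055_al.Trim.RI.Stmts
import Pool.Agent.Lib.MP_551055_al.Trim.T4.GlDim
import Pool.Agent.Lib.MP_551055_al.Trim.X.MP_e6f638_al.F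
import Pool.Agent.Lib.MP_551055_al.Trim.X.MP_e6f638_al.GDefs
import Pool.Agent.Lib.MP_551055_al.Trim.X.MP_e6f638_al.Stmts

/-!
# The tile graph in the tree of `Ah` and its local structure
-/

set_option autoImplicit false

namespace Pool.Agent.Lib.MP_551055_al
end Pool.Agent.Lib.MP_551055_al

namespace Pool.Agent.Lib.MP_e6f638_al
end Pool.Agent.Lib.MP_e6f638_al

namespace Pool.Agent.Lib.MP_551055_al.LS
end Pool.Agent.Lib.MP_551055_al.LS

namespace Pool.Agent.Lib.MP_551055_al.RI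
end Pool.Agent.Lib.MP_551055_al.RI

namespace Pool.Agent.Lib.MP_551055_al.N4

open Pool.Agent.Lib.MP_551055_al

open Pool.Agent.Lib.MP_e6f638_al (Dat)

open Pool.Agent.Lib.MP_551055_al.LS (TreeAct ZN)

open Pool.Agent.Lib.MP_551055_al.RI (BTree stabV LiftData hV hT hB hX hX_of hX_t hX_base hT_treeAct mem_stab_hV)

open Multiplicative

/-! ## Connected subgraphs of trees -/

/-- The first step of a geodesic between vertices of a connected subgraph. -/
theorem step_mem {V : Type} {T H : SimpleGraph V} (hT : T.IsTree) (hH : H ≤ T) {a b w : V}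
    (hr : H.Reachable a b) (hw : T.Adj a w) (hd : T.dist a b = T.dist w b + 1) :
    H.Adj a w ∧ H.Reachable w b := by
  obtain ⟨p, hp⟩ := hr.exists_isPath
  obtain ⟨q, hq⟩ := hT.connected.exists_walk_length_eq_dist w b
  have h2 : (SimpleGraph.Walk.cons hw q).IsPath := SimpleGraph.Walk.isPath_of_length_eq_dist _ (by
    rw [SimpleGraph.Walk.length_cons, hq, hd])
  have h3 : p.mapLe hH = SimpleGraph.Walk.cons hw q :=
    (hT.existsUnique_path a b).unique ((SimpleGraph.Walk.mapLe_isPath hH).2 hp) h2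
  cases p with
  | nil =>
    have h4 := congrArg SimpleGraph.Walk.length h3
    simp at h4
  | cons h p₀ =>
    rename_i c
    have h4 : (SimpleGraph.Walk.cons (hH h) (p₀.mapLe hH)).getVert 1 =
        (SimpleGraph.Walk.cons hw q).getVert 1 := congrArg (fun x => x.getVert 1) h3
    have h5 : c = w := by simpa using h4
    subst h5
    exact ⟨h, p₀.reachable⟩

section

variable {G : Type} [Group G] (D : Dat G)

/-- The vertices of the tree of `Ah`. -/
noncomputable abbrev AV : Type := hV D.B D.B (MulEquiv.refl D.B)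

/-- The tree of `Ah`. -/
noncomputable abbrev AT : SimpleGraph (AV D) := hT D.B D.B (MulEquiv.refl D.B)

theorem at_act : TreeAct D.Ah (AV D) (AT D) := hT_treeAct D.B D.B (MulEquiv.refl D.B)

/-- The vertex of `p`. -/
noncomputable abbrev pt (p : D.Ah) : AV D := (p : AV D)

theorem smul_pt (a p : D.Ah) : a • pt D p = pt D (a * p) := rfl

theorem pt_eq {p q : D.Ah} : pt D p = pt D q ↔ ∃ g : G, q = p * D.ofG g := by
  rw [QuotientGroup.eq]
  constructor
  · rintro ⟨g, hg⟩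
    exact ⟨g, by rw [hg, mul_inv_cancel_left]⟩
  · rintro ⟨g, rfl⟩
    exact ⟨g, by rw [inv_mul_cancel_left]⟩

theorem pt_mul_ofG (p : D.Ah) (g : G) : pt D (p * D.ofG g) = pt D p :=
  ((pt_eq D).2 ⟨g, rfl⟩).symm

theorem exists_pt (v : AV D) : ∃ p, v = pt D p := by
  induction v using QuotientGroup.induction_on with
  | H p => exact ⟨p, rfl⟩

/-- Directed edges. -/
def Dir (v w : AV D) : Prop := ∃ p : D.Ah, v = pt D p ∧ w = pt D (p * D.u)

theorem at_adj (v w : AV D) : (AT D).Adj v w ↔ Dir D v w ∨ Dir D w v := by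
  constructor
  · rintro ⟨h, u, rfl, rfl⟩
    rcases Int.units_eq_one_or u with rfl | rfl
    · left
      exact ⟨h, rfl, by rw [Units.val_one, zpow_one]⟩
    · right
      refine ⟨h * D.u⁻¹, ?_, by rw [inv_mul_cancel_right]⟩
      rw [Units.val_neg, Units.val_one, zpow_neg, zpow_one]
  · rintro (⟨p, rfl, rfl⟩ | ⟨p, rfl, rfl⟩)
    · exact ⟨p, 1, rfl, by rw [Units.val_one, zpow_one]⟩
    · refine SimpleGraph.Adj.symm ?_
      exact ⟨p, 1, rfl, by rw [Units.val_one, zpow_one]⟩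

theorem hX_ofG (g : G) : hX D.B D.B (MulEquiv.refl D.B) (D.ofG g) = 1 := hX_of _ _ _ g

theorem hX_u : hX D.B D.B (MulEquiv.refl D.B) D.u = ofAdd 1 := hX_t _ _ _

/-- The orientation is intrinsic. -/
theorem dir_asymm {v w : AV D} (h : Dir D v w) (h' : Dir D w v) : False := by
  obtain ⟨p, rfl, rfl⟩ := h
  obtain ⟨q, h1, h2⟩ := h'
  obtain ⟨g, hg⟩ := (pt_eq D).1 h1
  obtain ⟨g', hg'⟩ := (pt_eq D).1 h2
  rw [hg] at hg'
  have h3 := congrArg (fun x => toAdd (hX D.B D.B (MulEquiv.refl D.B) x)) hg'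
  simp only [map_mul, hX_ofG, hX_u, toAdd_mul, toAdd_ofAdd, toAdd_one] at h3
  omega

/-- Britton's lemma for one pair of letters. -/
theorem britton_u {g g' : G} (h : D.ofG g * D.u = D.u * D.ofG g') : g ∈ D.B := by
  by_contra hn
  let w : HNNExtension.NormalWord.ReducedWord G D.B D.B :=
    { head := 1
      toList := [(-1, g), (1, 1)]
      chain := by
        rw [List.isChain_cons_cons]
        refine ⟨fun h5 => absurd ?_ hn, List.isChain_singleton _⟩
        rwa [D.toSubgroup_eq] at h5 }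
  have h5 : w.prod (MulEquiv.refl D.B) = D.ofG g' := by
    have h6 : w.prod (MulEquiv.refl D.B) = D.u⁻¹ * (D.ofG g * D.u) := by
      simp [w, HNNExtension.NormalWord.ReducedWord.prod, mul_assoc]
    rw [h6, h, inv_mul_cancel_left]
  have h6 := HNNExtension.ReducedWord.toList_eq_nil_of_mem_of_range (MulEquiv.refl D.B) w
    (by rw [h5]; exact ⟨g', rfl⟩)
  exact absurd h6 (by simp [w])

/-- The name of a directed edge is unique. -/
theorem dir_uniq {p q : D.Ah} (h1 : pt D p = pt D q) (h2 : pt D (p * D.u) = pt D (q * D.u)) :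
    ∃ b ∈ D.B, q = p * D.ofG b := by
  obtain ⟨g, hg⟩ := (pt_eq D).1 h1
  obtain ⟨g', hg'⟩ := (pt_eq D).1 h2
  refine ⟨g, ?_, hg⟩
  rw [hg] at hg'
  refine britton_u D (g := g) (g' := g') ?_
  have h3 : p * (D.ofG g * D.u) = p * (D.u * D.ofG g') := by
    rw [← mul_assoc, hg', mul_assoc]
  exact mul_left_cancel h3

/-! ## Heights -/

theorem hh_ofG (g : G) : D.hh (D.ofG g) = D.h g := D.hh_of g

theorem hh_xi (i : D.ι) : D.hh (xi D i) = 1 := by
  rw [xi, map_mul, D.hh_of, D.hh_u, D.h_t, ← ofAdd_add]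
  simp

theorem hh_RE {e : D.Ah} (he : e ∈ RE D) : D.hh e = 1 := by
  obtain ⟨e, rfl⟩ := he
  exact D.phi_mem D.isPhi_phi e

theorem ofG_mem_RE {g : G} (hg : D.h g = 1) : D.ofG g ∈ RE D :=
  ⟨D.inE ⟨g, hg⟩, D.isPhi_phi.1 _⟩

theorem zi_mem_RE (i : D.ι) : xi D i ^ D.l i ∈ RE D := ⟨D.z i, D.isPhi_phi.2 i⟩

theorem ofG_mem_RE_iff {g : G} : D.ofG g ∈ RE D ↔ D.h g = 1 := by
  constructor
  · intro h
    rw [← hh_ofG]
    exact hh_RE D h
  · exact ofG_mem_RE D

/-! ## The tile graph -/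

/-- The directed edges of the tiles of `k E`. -/
def Ed (k : D.Ah) (v w : AV D) : Prop :=
  ∃ e ∈ RE D, ∃ (i : D.ι) (r : ℕ), r < D.l i ∧ v = pt D (k * e * xi D i ^ r) ∧
    w = pt D (k * e * xi D i ^ (r + 1))

/-- Main vertices. -/
def Mn (k : D.Ah) (v : AV D) : Prop := ∃ e ∈ RE D, v = pt D (k * e)

theorem Ed.name {D : Dat G} {k : D.Ah} {v w : AV D} (h : Ed D k v w) :
    ∃ p : D.Ah, v = pt D p ∧ w = pt D (p * D.u) ∧ D.hh p = D.hh k * ofAdd 1 := by
  obtain ⟨e, he, i, r, _, rfl, rfl⟩ := h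
  refine ⟨k * e * xi D i ^ r * D.ofG (D.t i), (pt_mul_ofG D _ _).symm, ?_, ?_⟩
  · rw [pow_succ, ← mul_assoc, mul_assoc _ (D.ofG (D.t i)) D.u]
    rfl
  · rw [map_mul, map_mul, map_mul, map_pow, hh_xi, one_pow, mul_one, hh_RE D he, mul_one, hh_ofG,
      D.h_t]

theorem Ed.dir {D : Dat G} {k : D.Ah} {v w : AV D} (h : Ed D k v w) : Dir D v w := by
  obtain ⟨p, h1, h2, _⟩ := h.name
  exact ⟨p, h1, h2⟩

/-- The tile graph. -/
def TK (k : D.Ah) : SimpleGraph (AV D) where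
  Adj v w := Ed D k v w ∨ Ed D k w v
  symm := ⟨fun _ _ h => h.symm⟩
  loopless := ⟨fun v h => by
    rcases h with h | h
    · exact dir_asymm D h.dir h.dir
    · exact dir_asymm D h.dir h.dir⟩

theorem tk_le (k : D.Ah) : TK D k ≤ AT D := by
  intro v w h
  rw [at_adj]
  rcases h with h | h
  · exact Or.inl h.dir
  · exact Or.inr h.dir

theorem Ed.smul {D : Dat G} {k : D.Ah} {v w : AV D} (h : Ed D k v w) (a : D.Ah) :
    Ed D (a * k) (a • v) (a • w) := by
  obtain ⟨e, he, i, r, hr, rfl, rfl⟩ := h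
  refine ⟨e, he, i, r, hr, ?_, ?_⟩
  · simp only [smul_pt, mul_assoc]
  · simp only [smul_pt, mul_assoc]

theorem Ed.right {D : Dat G} {k : D.Ah} {v w : AV D} (h : Ed D k v w) {a : D.Ah}
    (ha : a ∈ RE D) : Ed D (k * a) v w := by
  obtain ⟨e, he, i, r, hr, rfl, rfl⟩ := h
  refine ⟨a⁻¹ * e, mul_mem (inv_mem ha) he, i, r, hr, ?_, ?_⟩
  · congr 2
    group
  · congr 2
    group

theorem Ed.conj {D : Dat G} {k y : D.Ah} (hy : k⁻¹ * y * k ∈ RE D) {v w : AV D}
    (h : Ed D k v w) : Ed D k (y • v) (y • w) := by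
  have h1 := (h.smul y).right (inv_mem hy)
  have h2 : y * k * (k⁻¹ * y * k)⁻¹ = k := by group
  rwa [h2] at h1

theorem tk_smul (k : D.Ah) {y : D.Ah} (hy : k⁻¹ * y * k ∈ RE D) (v w : AV D) :
    (TK D k).Adj v w ↔ (TK D k).Adj (y • v) (y • w) := by
  constructor
  · rintro (h | h)
    · exact Or.inl (h.conj hy)
    · exact Or.inr (h.conj hy)
  · have hy' : k⁻¹ * y⁻¹ * k ∈ RE D := by
      have h1 : k⁻¹ * y⁻¹ * k = (k⁻¹ * y * k)⁻¹ := by group
      rw [h1]
      exact inv_mem hy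
    rintro (h | h)
    · have h1 := h.conj hy'
      rw [inv_smul_smul, inv_smul_smul] at h1
      exact Or.inl h1
    · have h1 := h.conj hy'
      rw [inv_smul_smul, inv_smul_smul] at h1
      exact Or.inr h1

theorem tile_reach (k : D.Ah) {e : D.Ah} (he : e ∈ RE D) (i : D.ι) (r : ℕ) (hr : r ≤ D.l i) :
    (TK D k).Reachable (pt D (k * e)) (pt D (k * e * xi D i ^ r)) := by
  induction r with
  | zero => rw [pow_zero, mul_one]
  | succ r ih =>
    refine (ih (by omega)).trans (SimpleGraph.Adj.reachable ?_)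
    exact Or.inl ⟨e, he, i, r, by omega, rfl, rfl⟩

/-- (L0) The main vertices are connected. -/
theorem tk_reach (k : D.Ah) {e e' : D.Ah} (he : e ∈ RE D) (he' : e' ∈ RE D) :
    (TK D k).Reachable (pt D (k * e)) (pt D (k * e')) := by
  have key : ∀ a : D.E, ∀ e ∈ RE D,
      (TK D k).Reachable (pt D (k * e)) (pt D (k * (e * D.phi a))) := by
    intro a
    have ha : a ∈ Subgroup.closure (Set.range D.inE ∪ Set.range D.z) := by
      rw [D.closure_E]
      trivial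
    induction ha using Subgroup.closure_induction with
    | mem x hx =>
      intro e he
      rcases hx with ⟨b, rfl⟩ | ⟨i, rfl⟩
      · rw [D.isPhi_phi.1, ← mul_assoc, pt_mul_ofG]
      · rw [D.isPhi_phi.2, ← mul_assoc]
        exact tile_reach D k he i _ le_rfl
    | one => intro e he; rw [map_one, mul_one]
    | mul x y _ _ hx hy =>
      intro e he
      rw [map_mul, ← mul_assoc e]
      exact (hx e he).trans (hy _ (mul_mem he ⟨x, rfl⟩))
    | inv x _ hx =>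
      intro e he
      have h1 := hx (e * D.phi x⁻¹) (mul_mem he ⟨_, rfl⟩)
      rw [mul_assoc e, ← map_mul, inv_mul_cancel, map_one, mul_one] at h1
      exact h1.symm
  obtain ⟨a, ha⟩ : e⁻¹ * e' ∈ RE D := mul_mem (inv_mem he) he'
  have h1 := key a e he
  rwa [ha, mul_inv_cancel_left] at h1

/-! ## The local structure -/

variable {D} (hW : Wd D)

include hW in
/-- (L1) Interior vertices are not main vertices. -/
theorem not_mn (k : D.Ah) {e : D.Ah} (he : e ∈ RE D) {i : D.ι} {r : ℕ} (h1 : 1 ≤ r)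
    (h2 : r < D.l i) : ¬ Mn D k (pt D (k * e * xi D i ^ r)) := by
  rintro ⟨e', he', h3⟩
  obtain ⟨g, hg⟩ := (pt_eq D).1 h3
  refine hW.c1 i r g h1 h2 ?_
  have h4 : xi D i ^ r * D.ofG g = e⁻¹ * e' := by
    have h5 : k * e' = k * e * (xi D i ^ r * D.ofG g) := by rw [hg, mul_assoc]
    have h6 : e' = e * (xi D i ^ r * D.ofG g) := by
      apply mul_left_cancel (a := k)
      rw [h5, mul_assoc]
    rw [h6, inv_mul_cancel_left]
  rw [h4]
  exact mul_mem (inv_mem he) he'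

include hW in
/-- The comparison of two tiles. -/
theorem tile_cmp (k : D.Ah) {e e' : D.Ah} (he : e ∈ RE D) (he' : e' ∈ RE D) {i j : D.ι}
    {r s : ℕ} (hr : 1 ≤ r) (hr' : r < D.l i) (hs : s < D.l j)
    (h : pt D (k * e * xi D i ^ r) = pt D (k * e' * xi D j ^ s)) :
    1 ≤ s ∧ ∃ g : G, e' * xi D j ^ s = e * xi D i ^ r * D.ofG g ∧
      ((r = 1 ∧ s = 1 ∧ g ∈ D.B) ∨ (i = j ∧ r = s ∧ g ∈ D.B ∧ Commute g (D.t i)) ∨
        (r + 1 = D.l i ∧ s + 1 = D.l j ∧ (D.t i)⁻¹ * g * D.t j ∈ D.B)) := by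
  have h0 : 1 ≤ s := by
    by_contra hn
    have h1 : s = 0 := by omega
    rw [h1, pow_zero, mul_one] at h
    exact not_mn hW k he hr hr' ⟨e', he', h⟩
  obtain ⟨g, hg⟩ := (pt_eq D).1 h
  have h1 : e' * xi D j ^ s = e * xi D i ^ r * D.ofG g := by
    apply mul_left_cancel (a := k)
    rw [← mul_assoc, hg]
    simp only [mul_assoc]
  refine ⟨h0, g, h1, hW.c0 i j r s g hr hr' h0 hs ?_⟩
  have h2 : xi D i ^ r * D.ofG g * (xi D j ^ s)⁻¹ = e⁻¹ * e' := by
    have h3 : e' = e * xi D i ^ r * D.ofG g * (xi D j ^ s)⁻¹ := by rw [← h1, mul_inv_cancel_right]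
    rw [h3]
    group
  rw [h2]
  exact mul_mem (inv_mem he) he'

include hW in
/-- (L2) The outgoing edges of interior vertices. -/
theorem ed_out (k : D.Ah) {e : D.Ah} (he : e ∈ RE D) {i : D.ι} {r : ℕ} (hr : 1 ≤ r)
    (hr' : r < D.l i) {c : AV D} (h : Ed D k (pt D (k * e * xi D i ^ r)) c) :
    c = pt D (k * e * xi D i ^ (r + 1)) ∨
      (r = 1 ∧ ∃ g ∈ D.B, ∃ j, c = pt D (k * e * xi D i * D.ofG g * xi D j)) := by
  obtain ⟨e', he', j, s, hs, h1, rfl⟩ := h
  obtain ⟨_, g, h3, h4⟩ := tile_cmp hW k he he' hr hr' hs h1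
  have h5 : k * e' * xi D j ^ (s + 1) = k * e * xi D i ^ r * D.ofG g * xi D j := by
    have h6 : k * e' * xi D j ^ (s + 1) = k * (e' * xi D j ^ s) * xi D j := by
      rw [pow_succ]
      simp only [mul_assoc]
    rw [h6, h3]
    simp only [mul_assoc]
  rcases h4 with ⟨rfl, _, hg⟩ | ⟨rfl, rfl, hg, hc⟩ | ⟨_, _, hg⟩
  · right
    refine ⟨rfl, g, hg, j, ?_⟩
    rw [h5, pow_one]
  · left
    have h6 : Commute (D.ofG g) (xi D i) := (hc.map D.ofG).mul_right (D.commute_u hg)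
    rw [h5, mul_assoc _ (D.ofG g), h6.eq, ← mul_assoc, pt_mul_ofG, mul_assoc _ (_ ^ r), ← pow_succ]
  · left
    rw [h5, (pt_eq D)]
    refine ⟨((D.t i)⁻¹ * g * D.t j)⁻¹, ?_⟩
    have h6 : D.ofG g * xi D j = xi D i * D.ofG ((D.t i)⁻¹ * g * D.t j) := by
      have h7 := D.u_comm hg
      have h8 : xi D i * D.ofG ((D.t i)⁻¹ * g * D.t j) =
          D.ofG (D.t i) * (D.u * D.ofG ((D.t i)⁻¹ * g * D.t j)) := mul_assoc _ _ _
      rw [h8, h7, xi, map_mul, map_mul, map_inv]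
      group
    rw [mul_assoc _ (D.ofG g), h6, pow_succ]
    simp only [mul_assoc]
    rw [← map_mul, mul_inv_cancel, map_one, mul_one]

include hW in
/-- (L2) The incoming edges of interior vertices. -/
theorem ed_in (k : D.Ah) {e : D.Ah} (he : e ∈ RE D) {i : D.ι} {r : ℕ} (hr : 1 ≤ r)
    (hr' : r < D.l i) {c : AV D} (h : Ed D k c (pt D (k * e * xi D i ^ r))) :
    c = pt D (k * e * xi D i ^ (r - 1)) ∨
      (r + 1 = D.l i ∧ ∃ g ∈ D.B, ∃ j,
        c = pt D (k * e * xi D i ^ D.l i * D.ofG g * (xi D j ^ 2)⁻¹)) := by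
  obtain ⟨e', he', j, s, hs, rfl, h1⟩ := h
  by_cases hs' : s + 1 = D.l j
  · exfalso
    refine not_mn hW k he hr hr' ⟨e' * xi D j ^ D.l j, mul_mem he' (zi_mem_RE D j), ?_⟩
    rw [h1, hs', mul_assoc]
  obtain ⟨_, g, h3, h4⟩ := tile_cmp hW k he he' hr hr' (s := s + 1) (by omega) h1
  have h5 : k * e' * xi D j ^ s = k * e * xi D i ^ r * D.ofG g * (xi D j)⁻¹ := by
    have h6 : k * e' * xi D j ^ s = k * (e' * xi D j ^ (s + 1)) * (xi D j)⁻¹ := by
      rw [pow_succ]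
      group
    rw [h6, h3]
    simp only [mul_assoc]
  obtain ⟨r, rfl⟩ : ∃ r', r = r' + 1 := ⟨r - 1, by omega⟩
  rw [Nat.add_sub_cancel]
  rcases h4 with ⟨hr1, _, hg⟩ | ⟨rfl, hrs, hg, hc⟩ | ⟨hrl, _, hg⟩
  · left
    have hr2 : r = 0 := by omega
    subst hr2
    rw [h5, (pt_eq D)]
    refine ⟨(D.t i * g * (D.t j)⁻¹)⁻¹, ?_⟩
    have h6 := D.u_comm hg
    have h7 : xi D i * D.ofG g * (xi D j)⁻¹ = D.ofG (D.t i * g * (D.t j)⁻¹) := by
      rw [xi, xi, mul_assoc (D.ofG (D.t i)), h6, map_mul, map_mul, map_inv]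
      group
    rw [zero_add, pow_one, mul_assoc (k * e), mul_assoc (k * e), h7, pow_zero, mul_one, mul_assoc,
      ← map_mul, mul_inv_cancel, map_one, mul_one]
  · left
    have h6 : Commute (D.ofG g) (xi D i) := (hc.map D.ofG).mul_right (D.commute_u hg)
    rw [h5, mul_assoc _ (D.ofG g), h6.inv_right.eq, ← mul_assoc, pt_mul_ofG, pow_succ]
    congr 1
    group
  · right
    refine ⟨hrl, _, hg, j, ?_⟩
    rw [h5]
    have h6 : D.u * D.ofG ((D.t i)⁻¹ * g * D.t j) * D.u⁻¹ = D.ofG ((D.t i)⁻¹ * g * D.t j) := by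
      rw [D.u_comm hg, mul_inv_cancel_right]
    have h7 : xi D i * D.ofG ((D.t i)⁻¹ * g * D.t j) * (xi D j ^ 2)⁻¹ =
        D.ofG g * (xi D j)⁻¹ * D.ofG 1 := by
      rw [pow_two, xi, xi]
      have h8 : D.ofG (D.t i) * D.u * D.ofG ((D.t i)⁻¹ * g * D.t j) *
          (D.ofG (D.t j) * D.u * (D.ofG (D.t j) * D.u))⁻¹ =
          D.ofG (D.t i) * (D.u * D.ofG ((D.t i)⁻¹ * g * D.t j) * D.u⁻¹) * (D.ofG (D.t j))⁻¹ *
            (D.ofG (D.t j) * D.u)⁻¹ := by group
      rw [h8, h6, map_mul, map_mul, map_inv]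
      simp only [map_one, mul_one]
      group
    rw [← hrl, pow_succ _ (r + 1), mul_assoc _ (D.ofG g), ← mul_assoc (k * e) _ (xi D i),
      mul_assoc _ (xi D i), mul_assoc _ (xi D i * _), h7, map_one, mul_one]

end

end Pool.Agent.Lib.MP_551055_al.N4
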