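import Mathlib
import Pool.Agent.Lib.MP_551055_al.Trim.LS.PStmts
import Pool.Agent.Lib.MP_551055_al.Trim.LS.Stmts
import Pool.Agent.Lib.MP_551055_al.Trim.LS.TreeB
import Pool.Agent.Lib.MP_551055_al.Trim.MT.Flow2
import Pool.Agent.Lib.MP_551055_al.Trim.MT.K1
import Pool.Agent.Lib.MP_551055_al.Trim.N4.Loc_17
import Pool.Agent.Lib.MP_551055_al.Trim.N4.Stmts
import Pool.Agent.Lib.MP_551055_al.Trim.RI.HNN
import Pool.Agent.Lib.MP_551055_al.Trim.T4.GlDim
import Pool.Agent.Lib.MP_551055_al.Trim.X.MP_e6f638_al.F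
import Pool.Agent.Lib.MP_551055_al.Trim.X.MP_e6f638_al.Stmts

/-!
# Module S1: the intersection of `E` and its conjugate by `x`
-/

set_option autoImplicit false

namespace Pool.Agent.Lib.MP_551055_al
end Pool.Agent.Lib.MP_551055_al

namespace Pool.Agent.Lib.MP_e6f638_al
end Pool.Agent.Lib.MP_e6f638_al

namespace Pool.Agent.Lib.MP_551055_al.LS
end Pool.Agent.Lib.MP_551055_al.LS

namespace Pool.Agent.Lib.MP_551055_al.N4.S14
end Pool.Agent.Lib.MP_551055_al.N4.S14

namespace Pool.Agent.Lib.MP_551055_al.N4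

open Pool.Agent.Lib.MP_551055_al

open Pool.Agent.Lib.MP_e6f638_al (Dat)

open Pool.Agent.Lib.MP_551055_al.LS (TreeAct ZN)

open Multiplicative

namespace S14

variable {G : Type} [Group G] {D : Dat G}

/-- The first step of a geodesic. -/
theorem next_vtx {a b : AV D} (h : a ≠ b) :
    ∃ w, (AT D).Adj a w ∧ (AT D).dist a b = (AT D).dist w b + 1 := by
  have hc := (at_act D).tree.connected
  obtain ⟨n, hn⟩ : ∃ n, (AT D).dist b a = n + 1 :=
    ⟨(AT D).dist b a - 1, by have := hc.pos_dist_of_ne h.symm; omega⟩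
  obtain ⟨w, h1, h2⟩ := LS.tree_exists_pred (at_act D).tree hn
  refine ⟨w, h1.symm, ?_⟩
  rw [SimpleGraph.dist_comm, hn, SimpleGraph.dist_comm, h2]

theorem dist_le_one {a b c : AV D} (h : (AT D).Adj a b) :
    (AT D).dist a c ≤ (AT D).dist b c + 1 := by
  have h1 : (AT D).dist a c ≤ (AT D).dist a b + (AT D).dist b c :=
    (at_act D).tree.connected.dist_triangle
  rw [SimpleGraph.dist_eq_one_iff_adj.2 h] at h1
  omega

theorem x_eq (i : D.ι) : D.x = D.ofG (D.t₀ * (D.t i)⁻¹) * xi D i := by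
  rw [Dat.x, xi, map_mul, map_inv]
  group

theorem h_div (i : D.ι) (g : G) (hg : g ∈ D.B) : D.h (D.t₀ * g * (D.t i)⁻¹) = 1 := by
  rw [map_mul, map_mul, map_inv, D.h_t₀, D.h_t, D.h_B g hg, mul_one, mul_inv_cancel]

theorem e_mem (i : D.ι) (g : G) (hg : g ∈ D.B) : D.ofG (D.t₀ * g * (D.t i)⁻¹) ∈ RE D :=
  ofG_mem_RE D (h_div i g hg)

theorem e_mem' (i : D.ι) : D.ofG (D.t₀ * (D.t i)⁻¹) ∈ RE D := by
  have := e_mem (D := D) i 1 (one_mem _)
  rwa [mul_one] at this

/-- `RR` and its conjugate are in `RE`. -/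
theorem rr_le {e : D.Ah} (he : e ∈ RR D) : e ∈ RE D ∧ D.x * e * D.x⁻¹ ∈ RE D := by
  induction he using Subgroup.closure_induction with
  | mem e he =>
    rcases he with ⟨b, hb, rfl⟩ | ⟨i, rfl⟩
    · refine ⟨ofG_mem_RE D (D.h_B b hb), ?_⟩
      have h1 : D.x * D.ofG b * D.x⁻¹ = D.ofG (D.t₀ * b * D.t₀⁻¹) := by
        rw [Dat.x, mul_assoc (D.ofG D.t₀), D.u_comm hb, map_mul, map_mul, map_inv]
        group
      rw [h1]
      refine ofG_mem_RE D ?_
      rw [map_mul, map_mul, map_inv, D.h_B b hb, mul_one, mul_inv_cancel]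
    · refine ⟨zi_mem_RE D i, ?_⟩
      have h1 : D.x * xi D i ^ D.l i * D.x⁻¹ = D.ofG (D.t₀ * (D.t i)⁻¹) * xi D i ^ D.l i *
          (D.ofG (D.t₀ * (D.t i)⁻¹))⁻¹ := by
        rw [x_eq i]
        have h2 : xi D i * xi D i ^ D.l i = xi D i ^ D.l i * xi D i := by
          rw [← pow_succ', ← pow_succ]
        calc D.ofG (D.t₀ * (D.t i)⁻¹) * xi D i * xi D i ^ D.l i *
              (D.ofG (D.t₀ * (D.t i)⁻¹) * xi D i)⁻¹
            = D.ofG (D.t₀ * (D.t i)⁻¹) * (xi D i * xi D i ^ D.l i) * (xi D i)⁻¹ *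
              (D.ofG (D.t₀ * (D.t i)⁻¹))⁻¹ := by group
          _ = _ := by rw [h2]; group
      rw [h1]
      exact mul_mem (mul_mem (e_mem' i) (zi_mem_RE D i)) (inv_mem (e_mem' i))
  | one =>
    rw [mul_one, mul_inv_cancel]
    exact ⟨one_mem _, one_mem _⟩
  | mul a b _ _ ha hb =>
    refine ⟨mul_mem ha.1 hb.1, ?_⟩
    have h1 : D.x * (a * b) * D.x⁻¹ = (D.x * a * D.x⁻¹) * (D.x * b * D.x⁻¹) := by group
    rw [h1]
    exact mul_mem ha.2 hb.2
  | inv a _ ha =>
    refine ⟨inv_mem ha.1, ?_⟩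
    have h1 : D.x * a⁻¹ * D.x⁻¹ = (D.x * a * D.x⁻¹)⁻¹ := by group
    rw [h1]
    exact inv_mem ha.2

variable (hW : Wd D)

include hW in
/-- A geodesic which goes down in a tile reaches the main vertex. -/
theorem follow_back {e y : D.Ah} (he : e ∈ RE D) (hy : y ∈ RE D) (j : D.ι) : ∀ r : ℕ, 1 ≤ r →
    r + 2 ≤ D.l j → (TK D 1).Reachable (pt D (e * xi D j ^ r)) (pt D y) →
    (AT D).dist (pt D (e * xi D j ^ (r + 1))) (pt D y) =
      (AT D).dist (pt D (e * xi D j ^ r)) (pt D y) + 1 →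
    (AT D).dist (pt D e) (pt D y) + r ≤ (AT D).dist (pt D (e * xi D j ^ r)) (pt D y) + 2 := by
  intro r
  induction r with
  | zero => intro h; omega
  | succ r ih =>
    intro _ hl hR hd
    rcases Nat.eq_zero_or_pos r with h0 | h0
    · subst h0
      have h1 : (AT D).Adj (pt D e) (pt D (e * xi D j ^ (0 + 1))) := by
        refine tk_le D 1 (Or.inl ⟨e, he, j, 0, by omega, ?_, ?_⟩)
        · rw [pow_zero, mul_one, one_mul]
        · rw [one_mul]
      have := dist_le_one (c := pt D y) h1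
      omega
    · have hne : pt D (e * xi D j ^ (r + 1)) ≠ pt D y := fun h => by
        refine not_mn hW 1 he (i := j) (r := r + 1) (by omega) (by omega) ⟨y, hy, ?_⟩
        rw [one_mul, one_mul, h]
      obtain ⟨w, hw, hwd⟩ := next_vtx hne
      obtain ⟨hadj, hR'⟩ := step_mem (at_act D).tree (tk_le D 1) hR hw hwd
      have hwr : w = pt D (e * xi D j ^ r) := by
        rcases hadj with h | h
        · rw [← one_mul e] at h
          rcases ed_out hW 1 he (by omega) (by omega) h with h | ⟨h, _⟩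
          · exfalso
            rw [one_mul] at h
            rw [h] at hwd
            omega
          · omega
        · rw [← one_mul e] at h
          rcases ed_in hW 1 he (by omega) (by omega) h with h | ⟨h, _⟩
          · rw [one_mul, Nat.add_sub_cancel] at h
            exact h
          · omega
      subst hwr
      have := ih h0 (by omega) hR' hwd
      omega

include hW in
/-- A geodesic which goes up in a tile reaches the main vertex. -/
theorem follow_fwd {k e e₂ y : D.Ah} (he : e ∈ RE D) (he₂ : e₂ ∈ RE D) (hy : y ∈ RE D) (j : D.ι)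
    (hk : k * e₂ * xi D j = e) : ∀ (m r : ℕ), r + 1 + m = D.l j → 1 ≤ r →
    (TK D 1).Reachable (pt D (e * xi D j ^ r)) (pt D y) →
    (TK D k).Reachable (pt D (e * xi D j ^ r)) (pt D y) →
    (AT D).dist (pt D (e * xi D j ^ (r - 1))) (pt D y) =
      (AT D).dist (pt D (e * xi D j ^ r)) (pt D y) + 1 →
    (AT D).dist (pt D (e * xi D j ^ D.l j)) (pt D y) + (m + 1) ≤
      (AT D).dist (pt D (e * xi D j ^ r)) (pt D y) + 2 := by
  intro m
  induction m with
  | zero =>
    intro r hr _ _ _ _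
    have h1 : (AT D).Adj (pt D (e * xi D j ^ D.l j)) (pt D (e * xi D j ^ r)) := by
      refine (tk_le D 1 (Or.inl ⟨e, he, j, r, by omega, ?_, ?_⟩)).symm
      · rw [one_mul]
      · rw [one_mul, ← hr]
    have := dist_le_one (c := pt D y) h1
    omega
  | succ m ih =>
    intro r hr hr1 hR hR2 hd
    have hne : pt D (e * xi D j ^ r) ≠ pt D y := fun h => by
      refine not_mn hW 1 he (i := j) (r := r) (by omega) (by omega) ⟨y, hy, ?_⟩
      rw [one_mul, one_mul, h]
    obtain ⟨w, hw, hwd⟩ := next_vtx hne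
    obtain ⟨hadj, hR'⟩ := step_mem (at_act D).tree (tk_le D 1) hR hw hwd
    obtain ⟨hadj2, hR2'⟩ := step_mem (at_act D).tree (tk_le D k) hR2 hw hwd
    have hk' : ∀ s, e * xi D j ^ s = k * e₂ * xi D j ^ (s + 1) := fun s => by
      rw [← hk, pow_succ']
      simp only [mul_assoc]
    have hwr : w = pt D (e * xi D j ^ (r + 1)) := by
      rcases hadj with h | h
      · rcases hadj2 with h' | h'
        · rw [hk'] at h'
          rcases ed_out hW k he₂ (by omega) (by omega) h' with h4 | ⟨h4, _⟩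
          · rw [h4, hk']
          · omega
        · exact absurd h.dir fun h4 => dir_asymm D h4 h'.dir
      · exfalso
        rw [← one_mul e] at h
        rcases ed_in hW 1 he (by omega) (by omega) h with h4 | ⟨h4, _⟩
        · rw [one_mul] at h4
          rw [h4] at hwd
          omega
        · omega
    subst hwr
    have := ih (r + 1) (by omega) (by omega) hR' hR2' (by rw [Nat.add_sub_cancel]; exact hwd)
    omega

/-- The case without tiles. -/
theorem s1_empty (hι : IsEmpty D.ι) : S1 D := by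
  intro y hy hxy
  have key : ∀ a : D.E, ∃ b : D.h.ker, a = D.inE b := by
    intro a
    have ha : a ∈ Subgroup.closure (Set.range D.inE ∪ Set.range D.z) := by
      rw [D.closure_E]
      trivial
    induction ha using Subgroup.closure_induction with
    | mem x hx =>
      rcases hx with ⟨b, rfl⟩ | ⟨i, rfl⟩
      · exact ⟨b, rfl⟩
      · exact hι.elim i
    | one => exact ⟨1, (map_one _).symm⟩
    | mul x y _ _ hx hy =>
      obtain ⟨b, rfl⟩ := hx
      obtain ⟨c, rfl⟩ := hy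
      exact ⟨b * c, (map_mul _ _ _).symm⟩
    | inv x _ hx =>
      obtain ⟨b, rfl⟩ := hx
      exact ⟨b⁻¹, (map_inv _ _).symm⟩
  have key2 : ∀ e ∈ RE D, ∃ g : G, e = D.ofG g := by
    rintro _ ⟨a, rfl⟩
    obtain ⟨b, rfl⟩ := key a
    exact ⟨b, D.isPhi_phi.1 b⟩
  obtain ⟨g, rfl⟩ := key2 y hy
  obtain ⟨g', hg'⟩ := key2 _ hxy
  have h1 : D.ofG (D.t₀⁻¹ * g' * D.t₀) * D.u = D.u * D.ofG g := by
    rw [map_mul, map_mul, map_inv, ← hg', Dat.x]
    group
  have h2 := britton_u D h1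
  rw [← D.u_comm h2] at h1
  have h4 : D.t₀⁻¹ * g' * D.t₀ = g := HNNExtension.of_injective _ (mul_left_cancel h1)
  rw [h4] at h2
  exact Subgroup.subset_closure (Or.inl ⟨g, h2, rfl⟩)

end S14

open S14 in
/-- Module S1. -/
theorem stS1 : StS1 := by
  intro G _ D h3 hW
  by_cases hι : IsEmpty D.ι
  · exact s1_empty hι
  obtain ⟨i⟩ := not_isEmpty_iff.1 hι
  suffices h : ∀ (n : ℕ) (y : D.Ah), y ∈ RE D → D.x * y * D.x⁻¹ ∈ RE D →
      (AT D).dist (pt D 1) (pt D y) = n → y ∈ RR D from fun y hy hxy => h _ y hy hxy rfl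
  intro n
  induction n using Nat.strong_induction_on with
  | h n ih =>
  intro y hy hxy hn
  -- the closing step
  have close : ∀ e ∈ RR D, (AT D).dist (pt D e) (pt D y) < n → y ∈ RR D := by
    intro e he hlt
    obtain ⟨h1, h2⟩ := rr_le he
    have h4 : e⁻¹ * y ∈ RR D := by
      refine ih _ hlt (e⁻¹ * y) (mul_mem (inv_mem h1) hy) ?_ ?_
      · have h5 : D.x * (e⁻¹ * y) * D.x⁻¹ = (D.x * e * D.x⁻¹)⁻¹ * (D.x * y * D.x⁻¹) := by group
        rw [h5]
        exact mul_mem (inv_mem h2) hxy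
      · rw [← LS.dist_smul_smul (at_act D) e, smul_pt, smul_pt, mul_one, mul_inv_cancel_left]
    have h5 := mul_mem he h4
    rwa [mul_inv_cancel_left] at h5
  have hB : ∀ b ∈ D.B, D.ofG b ∈ RR D := fun b hb => Subgroup.subset_closure (Or.inl ⟨b, hb, rfl⟩)
  have hz : ∀ j, xi D j ^ D.l j ∈ RR D := fun j => Subgroup.subset_closure (Or.inr ⟨j, rfl⟩)
  have hl : ∀ j, 3 ≤ D.l j := h3.three
  by_cases h0 : pt D 1 = pt D y
  · -- `y` is in `G`
    obtain ⟨g, hg⟩ := (pt_eq D).1 h0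
    rw [one_mul] at hg
    subst hg
    have h1 : xi D i ^ 1 * D.ofG g * (xi D i ^ 1)⁻¹ ∈ RE D := by
      have h2 : xi D i ^ 1 * D.ofG g * (xi D i ^ 1)⁻¹ = (D.ofG (D.t₀ * (D.t i)⁻¹))⁻¹ *
          (D.x * D.ofG g * D.x⁻¹) * D.ofG (D.t₀ * (D.t i)⁻¹) := by
        rw [x_eq i]
        group
      rw [h2]
      exact mul_mem (mul_mem (inv_mem (e_mem' i)) hxy) (e_mem' i)
    have hli := hl i
    rcases hW.c0 i i 1 1 g le_rfl (by omega) le_rfl (by omega) h1 with ⟨_, _, h2⟩ | ⟨_, _, h2, _⟩ |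
      ⟨h2, _⟩
    · exact hB g h2
    · exact hB g h2
    · omega
  -- the two subgraphs
  set k := D.x⁻¹ with hk
  set e₀ := D.ofG (D.t₀ * (D.t i)⁻¹) with he₀
  have hk1 : k * e₀ * xi D i ^ 1 = 1 := by
    rw [hk, pow_one, x_eq i, he₀]
    group
  have hR1 : (TK D 1).Reachable (pt D 1) (pt D y) := by
    have := tk_reach D 1 (one_mem (RE D)) hy
    rwa [one_mul, one_mul] at this
  have hR2 : (TK D k).Reachable (pt D 1) (pt D y) := by
    have h1 := tile_reach D k (e_mem' i) i 1 (by have := hl i; omega)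
    have hm : D.x * y * D.x⁻¹ * e₀ ∈ RE D := mul_mem hxy (e_mem' i)
    have h2 := tile_reach D k hm i 1 (by have := hl i; omega)
    have h4 := tk_reach D k (e_mem' i) hm
    rw [← he₀, hk1] at h1
    have h5 : k * (D.x * y * D.x⁻¹ * e₀) * xi D i ^ 1 = y := by
      have h6 : k * (D.x * y * D.x⁻¹ * e₀) * xi D i ^ 1 = y * (k * e₀ * xi D i ^ 1) := by
        rw [hk]
        group
      rw [h6, hk1, mul_one]
    rw [h5] at h2
    exact h1.symm.trans (h4.trans h2)
  obtain ⟨w, hw, hwd⟩ := next_vtx h0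
  obtain ⟨ha1, hr1⟩ := step_mem (at_act D).tree (tk_le D 1) hR1 hw hwd
  obtain ⟨ha2, hr2⟩ := step_mem (at_act D).tree (tk_le D k) hR2 hw hwd
  have hli := hl i
  rcases ha2 with h | h
  · -- outgoing
    obtain ⟨g, hg, j, rfl⟩ : ∃ g ∈ D.B, ∃ j, w = pt D (D.ofG g * xi D j) := by
      have h' : Ed D k (pt D (k * e₀ * xi D i ^ 1)) w := by rwa [hk1]
      rcases ed_out hW k (e_mem' i) le_rfl (by omega) h' with h4 | ⟨_, g, hg, j, h4⟩
      · refine ⟨1, one_mem _, i, ?_⟩
        rw [h4, map_one, one_mul, pow_succ, ← mul_assoc, ← he₀, hk1, one_mul]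
      · refine ⟨g, hg, j, ?_⟩
        rw [h4, ← he₀]
        rw [pow_one] at hk1
        rw [hk1, one_mul]
    have hlj := hl j
    have hek : k * D.ofG (D.t₀ * g * (D.t j)⁻¹) * xi D j = D.ofG g := by
      have h4 := D.u_comm hg
      have h5 : k * D.ofG (D.t₀ * g * (D.t j)⁻¹) * xi D j = D.u⁻¹ * (D.ofG g * D.u) := by
        rw [hk, Dat.x, xi, map_mul, map_mul, map_inv]
        group
      rw [h5, ← h4, inv_mul_cancel_left]
    have h6 := follow_fwd hW (ofG_mem_RE D (D.h_B g hg)) (e_mem j g hg) hy j hek (D.l j - 2) 1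
      (by omega) le_rfl (by rwa [pow_one]) (by rwa [pow_one]) (by
        rw [Nat.sub_self, pow_zero, mul_one, pow_one, ← hwd, ← one_mul (D.ofG g), pt_mul_ofG])
    rw [pow_one] at h6
    exact close _ (mul_mem (hB g hg) (hz j)) (by omega)
  · -- incoming
    have hw1 : w = pt D (xi D i)⁻¹ := by
      have h' : Ed D k w (pt D (k * e₀ * xi D i ^ 1)) := by rwa [hk1]
      rcases ed_in hW k (e_mem' i) le_rfl (by omega) h' with h4 | ⟨h4, _⟩
      · rw [h4, Nat.sub_self, pow_zero, mul_one, ← he₀]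
        congr 1
        rw [pow_one] at hk1
        exact eq_inv_of_mul_eq_one_left hk1
      · omega
    have hmz : (xi D i ^ D.l i)⁻¹ ∈ RE D := inv_mem (zi_mem_RE D i)
    obtain ⟨l', hl'⟩ : ∃ l', D.l i = l' + 1 := ⟨D.l i - 1, by omega⟩
    have hw2 : w = pt D (1 * (xi D i ^ D.l i)⁻¹ * xi D i ^ l') := by
      rw [hw1, one_mul, hl', pow_succ']
      congr 1
      group
    have hne : w ≠ pt D y := by
      intro h4
      refine not_mn hW 1 hmz (i := i) (r := l') (by omega) (by omega) ⟨y, hy, ?_⟩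
      rw [one_mul y, ← h4, hw2]
    obtain ⟨w₂, hw₂, hwd₂⟩ := next_vtx hne
    obtain ⟨ha3, hr3⟩ := step_mem (at_act D).tree (tk_le D 1) hr1 hw₂ hwd₂
    rw [hw2] at ha3
    obtain ⟨g, hg, j, rfl⟩ : ∃ g ∈ D.B, ∃ j, w₂ = pt D (D.ofG g * (xi D j ^ 2)⁻¹) := by
      rcases ha3 with h4 | h4
      · exfalso
        rcases ed_out hW 1 hmz (by omega) (by omega) h4 with h5 | ⟨h5, _⟩
        · rw [← hl', one_mul, inv_mul_cancel] at h5
          rw [h5] at hwd₂
          omega
        · omega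
      · rcases ed_in hW 1 hmz (by omega) (by omega) h4 with h5 | ⟨_, g, hg, j, h5⟩
        · refine ⟨1, one_mem _, i, ?_⟩
          rw [h5, map_one, one_mul, one_mul]
          congr 1
          obtain ⟨l'', rfl⟩ : ∃ l'', l' = l'' + 1 := ⟨l' - 1, by omega⟩
          rw [hl', Nat.add_sub_cancel, pow_succ', pow_succ', pow_two]
          group
        · exact ⟨g, hg, j, by rw [h5, one_mul, inv_mul_cancel, one_mul]⟩
    have hlj := hl j
    obtain ⟨m, hm⟩ : ∃ m, D.l j = m + 2 := ⟨D.l j - 2, by omega⟩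
    have hbm : D.ofG g * (xi D j ^ D.l j)⁻¹ ∈ RR D := mul_mem (hB g hg) (inv_mem (hz j))
    have hp2 : D.ofG g * (xi D j ^ D.l j)⁻¹ * xi D j ^ m = D.ofG g * (xi D j ^ 2)⁻¹ := by
      rw [hm, pow_add, mul_inv_rev]
      rw [mul_assoc (D.ofG g), mul_assoc (xi D j ^ 2)⁻¹, inv_mul_cancel, mul_one]
    have hp1 : pt D (D.ofG g * (xi D j ^ D.l j)⁻¹ * xi D j ^ (m + 1)) = w := by
      have h4 : D.ofG g * (xi D j ^ D.l j)⁻¹ * xi D j ^ (m + 1) = D.ofG g * (xi D j)⁻¹ := by
        rw [pow_succ, ← mul_assoc, hp2, pow_two]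
        group
      have h5 : D.ofG g * (xi D j)⁻¹ = (xi D i)⁻¹ * D.ofG (D.t i * g * (D.t j)⁻¹) := by
        have h6 := D.u_comm hg
        have h7 : (xi D i)⁻¹ * D.ofG (D.t i * g * (D.t j)⁻¹) =
            D.u⁻¹ * (D.ofG g * D.u) * D.u⁻¹ * (D.ofG (D.t j))⁻¹ := by
          rw [xi, map_mul, map_mul, map_inv]
          group
        rw [h7, ← h6, xi]
        group
      rw [h4, h5, pt_mul_ofG, hw1]
    have h6 := follow_back hW (rr_le hbm).1 hy j m (by omega) (by omega) (by rwa [hp2]) (by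
      rw [hp1, hp2, hwd₂])
    rw [hp2] at h6
    exact close _ hbm (by omega)

end Pool.Agent.Lib.MP_551055_al.N4
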