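import Mathlib
import Pool.Agent.Lib.MP_551055_al.Trim.LS.BassProj
import Pool.Agent.Lib.MP_551055_al.Trim.LS.PStmts
import Pool.Agent.Lib.MP_551055_al.Trim.LS.Stmts
import Pool.Agent.Lib.MP_551055_al.Trim.MT.Defs
import Pool.Agent.Lib.MP_551055_al.Trim.MT.Flow2
import Pool.Agent.Lib.MP_551055_al.Trim.N4.Stmts
import Pool.Agent.Lib.MP_551055_al.Trim.RI.Stmts
import Pool.Agent.Lib.MP_551055_al.Trim.X.MP_e6f638_al.GDefs
import Pool.Agent.Lib.MP_551055_al.Trim.X.MP_e6f638_al.I1
import Pool.Agent.Lib.MP_551055_al.Trim.X.MP_e6f638_al.Stmts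

/-!
# Module L: the axis lies in every invariant connected subgraph
-/

set_option autoImplicit false

namespace Pool.Agent.Lib.MP_551055_al
end Pool.Agent.Lib.MP_551055_al

namespace Pool.Agent.Lib.MP_e6f638_al
end Pool.Agent.Lib.MP_e6f638_al

namespace Pool.Agent.Lib.MP_551055_al.LS
end Pool.Agent.Lib.MP_551055_al.LS

namespace Pool.Agent.Lib.MP_551055_al.N4.Line4
end Pool.Agent.Lib.MP_551055_al.N4.Line4

namespace Pool.Agent.Lib.MP_551055_al.N4

open Pool.Agent.Lib.MP_551055_al

open Pool.Agent.Lib.MP_e6f638_al (Dat EA gen par rho del IsDatOf IsAxis)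

open Pool.Agent.Lib.MP_551055_al.LS (TreeAct ZN)

namespace Line4

variable {V : Type} {T : SimpleGraph V}

/-- If `y` is further from `a` than from `x`, then `x` and `y` are connected without the edge
`{a, b}`. -/
theorem reach_del (hT : T.Connected) (a b y : V) : ∀ (d : ℕ) (x : V), T.dist x y = d →
    d < T.dist a y → (T.deleteEdges {s(a, b)}).Reachable x y := by
  intro d
  induction d with
  | zero =>
    intro x hx _
    have : x = y := (hT x y).dist_eq_zero_iff.1 hx
    rw [this]
  | succ d ih =>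
    intro x hx ha
    obtain ⟨p, hp⟩ := (hT x y).exists_walk_length_eq_dist
    cases p with
    | nil => simp at hx
    | @cons _ x' _ h q =>
      rw [SimpleGraph.Walk.length_cons, hx] at hp
      have h1 : T.dist x' y ≤ d := le_trans (SimpleGraph.dist_le q) (by omega)
      have h2 : T.dist x y ≤ T.dist x x' + T.dist x' y := hT.dist_triangle
      have h3 : T.dist x x' = 1 := SimpleGraph.dist_eq_one_iff_adj.2 h
      have h4 : T.dist x' y = d := by omega
      have h5 := ih x' h4 (by omega)
      refine SimpleGraph.Reachable.trans (SimpleGraph.Adj.reachable ?_) h5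
      rw [SimpleGraph.deleteEdges_adj]
      refine ⟨h, fun hh => ?_⟩
      rw [Set.mem_singleton_iff, Sym2.eq_iff] at hh
      rcases hh with ⟨h6, _⟩ | ⟨_, h6⟩
      · rw [h6] at hx; omega
      · rw [h6] at h4; omega

end Line4

open Line4 in
/-- Module L. -/
theorem stLine : StLine := by
  intro G _ V _ T H hT hHT g γ n hγ hH v₀ hv₀ i
  obtain ⟨hn, hd, hg⟩ := hγ
  by_contra hne
  have hadj : ∀ j, T.Adj (γ j) (γ (j + 1)) := fun j => by
    rw [← SimpleGraph.dist_eq_one_iff_adj]
    have := hd j (j + 1)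
    have h1 : |j - (j + 1)| = 1 := by rw [show j - (j + 1) = -1 by ring]; rfl
    rw [h1] at this
    exact_mod_cast this
  have hinj : ∀ j k, γ j = γ k → j = k := fun j k h => by
    have := hd j k
    rw [h, SimpleGraph.dist_self] at this
    have h1 : |j - k| = 0 := by rw [← this]; rfl
    have := abs_eq_zero.1 h1
    omega
  set T' := T.deleteEdges {s(γ i, γ (i + 1))} with hT'
  have hHT' : H ≤ T' := fun v w h => by
    rw [hT', SimpleGraph.deleteEdges_adj]
    refine ⟨hHT h, fun hh => ?_⟩
    rw [Set.mem_singleton_iff, Sym2.eq_iff] at hh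
    rcases hh with ⟨h1, h2⟩ | ⟨h1, h2⟩
    · exact hne (by rw [← h1, ← h2]; exact h)
    · exact hne (by rw [← h1, ← h2]; exact h.symm)
  have hbr : ¬ T'.Reachable (γ i) (γ (i + 1)) := by
    have h1 := SimpleGraph.isAcyclic_iff_forall_isBridge.1 hT.tree.2
      (e := s(γ i, γ (i + 1))) (hadj i)
    exact SimpleGraph.isBridge_iff.1 h1
  have hup : ∀ k : ℕ, T'.Reachable (γ (i + 1)) (γ (i + 1 + k)) := by
    intro k
    induction k with
    | zero => simp
    | succ k ih =>
      refine ih.trans (SimpleGraph.Adj.reachable ?_)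
      rw [hT', SimpleGraph.deleteEdges_adj]
      refine ⟨by have := hadj (i + 1 + k); rwa [add_assoc (i + 1) (k : ℤ) 1] at this, fun hh => ?_⟩
      rw [Set.mem_singleton_iff, Sym2.eq_iff] at hh
      rcases hh with ⟨h1, h2⟩ | ⟨h1, h2⟩
      · have := hinj _ _ h1; omega
      · have := hinj _ _ h2; push_cast at this; omega
  have hdn : ∀ k : ℕ, T'.Reachable (γ i) (γ (i - k)) := by
    intro k
    induction k with
    | zero => simp
    | succ k ih =>
      refine ih.trans (SimpleGraph.Adj.reachable ?_).symm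
      rw [hT', SimpleGraph.deleteEdges_adj]
      refine ⟨by
        have := hadj (i - ((k + 1 : ℕ) : ℤ))
        rwa [show i - ((k + 1 : ℕ) : ℤ) + 1 = i - k by push_cast; ring] at this, fun hh => ?_⟩
      rw [Set.mem_singleton_iff, Sym2.eq_iff] at hh
      rcases hh with ⟨h1, h2⟩ | ⟨h1, h2⟩
      · have := hinj _ _ h1; push_cast at this; omega
      · have := hinj _ _ h1; push_cast at this; omega
  have hz : ∀ k : ℤ, ∀ j, g ^ k • γ j = γ (j + k * n) := by
    intro k
    induction k using Int.induction_on with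
    | zero => intro j; simp
    | succ k ih =>
      intro j
      rw [zpow_add_one, mul_smul, hg, ih]
      congr 1; ring
    | pred k ih =>
      intro j
      have h1 : g⁻¹ • γ j = γ (j - n) := by
        rw [inv_smul_eq_iff, hg]; congr 1; ring
      rw [zpow_sub_one, mul_smul, h1, ih]
      congr 1; ring
  have hTd : ∀ (k : G) (x y : V), T.dist (k • x) (k • y) = T.dist x y := by
    have h1 : ∀ (k : G) (x y : V), T.dist (k • x) (k • y) ≤ T.dist x y := by
      intro k x y
      obtain ⟨p, hp⟩ := (hT.tree.1 x y).exists_walk_length_eq_dist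
      let f : T →g T := ⟨fun v => k • v, fun {v w} h => hT.adj k v w h⟩
      rw [← hp, ← SimpleGraph.Walk.length_map f p]
      exact SimpleGraph.dist_le (p.map f)
    intro k x y
    refine le_antisymm (h1 k x y) ?_
    have := h1 k⁻¹ (k • x) (k • y)
    rwa [inv_smul_smul, inv_smul_smul] at this
  have hreach : ∀ k : ℤ, H.Reachable (g ^ k • v₀) (g ^ k • g • v₀) := by
    let f : H →g H := ⟨fun v => g • v, fun {v w} h => (hH v w).1 h⟩
    let f' : H →g H := ⟨fun v => g⁻¹ • v, fun {v w} h => (hH _ _).2 (by simpa using h)⟩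
    intro k
    induction k using Int.induction_on with
    | zero => simpa using hv₀
    | succ k ih =>
      have := ih.map f
      have e1 : ∀ v : V, f v = g • v := fun _ => rfl
      rw [e1, e1, ← mul_smul, ← mul_smul g, ← zpow_one_add, add_comm] at this
      exact this
    | pred k ih =>
      have := ih.map f'
      have e1 : ∀ v : V, f' v = g⁻¹ • v := fun _ => rfl
      rw [e1, e1, ← mul_smul, ← mul_smul g⁻¹, ← zpow_neg_one, ← zpow_add, add_comm,
        ← sub_eq_add_neg] at this
      exact this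
  have hreach' : ∀ (m : ℤ) (k : ℕ), H.Reachable (g ^ m • v₀) (g ^ (m + k) • v₀) := by
    intro m k
    induction k with
    | zero => simp
    | succ k ih =>
      refine ih.trans ?_
      have := hreach (m + k)
      rw [← mul_smul, ← zpow_add_one] at this
      rwa [Nat.cast_add, Nat.cast_one, ← add_assoc]
  -- the far points
  obtain ⟨d, hd0⟩ : ∃ d : ℕ, T.dist v₀ (γ 0) = d := ⟨_, rfl⟩
  obtain ⟨N, hN1, hN2⟩ : ∃ N : ℕ, (d : ℤ) + |i| + 1 < N * n ∧ 0 < N := by
    refine ⟨d + i.natAbs + 2, ?_, by omega⟩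
    have h1 : |i| = (i.natAbs : ℤ) := Int.abs_eq_natAbs i
    rw [h1]
    push_cast
    nlinarith
  have hi1 := le_abs_self i
  have hi2 := neg_abs_le i
  have hA : T'.Reachable (g ^ (N : ℤ) • v₀) (γ (N * n)) := by
    refine reach_del hT.tree.1 _ _ _ d _ ?_ ?_
    · rw [← hd0, ← hTd (g ^ (N : ℤ)) v₀ (γ 0), hz, zero_add]
    · have := hd i (N * n)
      have h1 : |i - N * n| = N * n - i := by rw [abs_sub_comm]; exact abs_of_pos (by linarith)
      rw [h1] at this
      omega
  have hB : T'.Reachable (g ^ (-(N : ℤ)) • v₀) (γ (-(N * n))) := by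
    refine reach_del hT.tree.1 _ _ _ d _ ?_ ?_
    · rw [← hd0, ← hTd (g ^ (-(N : ℤ))) v₀ (γ 0), hz, zero_add, neg_mul]
    · have := hd i (-(N * n))
      have h1 : |i - -(N * n)| = N * n + i := by
        rw [sub_neg_eq_add, add_comm]; exact abs_of_pos (by linarith)
      rw [h1] at this
      omega
  have hC : T'.Reachable (g ^ (-(N : ℤ)) • v₀) (g ^ (N : ℤ) • v₀) := by
    have := (hreach' (-(N : ℤ)) (2 * N)).mono hHT'
    rwa [show -(N : ℤ) + ((2 * N : ℕ) : ℤ) = N by push_cast; ring] at this
  have hD : T'.Reachable (γ i) (γ (-(N * n))) := by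
    have := hdn (i + N * n).toNat
    rwa [show i - ((i + N * n).toNat : ℤ) = -(N * n) by
      rw [Int.toNat_of_nonneg (by linarith)]; ring] at this
  have hE : T'.Reachable (γ (i + 1)) (γ (N * n)) := by
    have := hup (N * n - (i + 1)).toNat
    rwa [show i + 1 + ((N * n - (i + 1)).toNat : ℤ) = N * n by
      rw [Int.toNat_of_nonneg (by linarith)]; ring] at this
  exact hbr (hD.trans (hB.symm.trans (hC.trans (hA.trans hE.symm))))

end Pool.Agent.Lib.MP_551055_al.N4
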