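import Mathlib
import Pool.Agent.Lib.MP_551055_al.Trim.LD.NG
import Pool.Agent.Lib.MP_551055_al.Trim.LS.PStmts
import Pool.Agent.Lib.MP_551055_al.Trim.LS.Stmts
import Pool.Agent.Lib.MP_551055_al.Trim.MT.Flow2
import Pool.Agent.Lib.MP_551055_al.Trim.MT.K1
import Pool.Agent.Lib.MP_551055_al.Trim.N4.Line_4
import Pool.Agent.Lib.MP_551055_al.Trim.N4.Loc_17
import Pool.Agent.Lib.MP_551055_al.Trim.N4.Stmts
import Pool.Agent.Lib.MP_551055_al.Trim.RI.HNN
import Pool.Agent.Lib.MP_551055_al.Trim.RI.LiftNil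
import Pool.Agent.Lib.MP_551055_al.Trim.RI.Stmts
import Pool.Agent.Lib.MP_551055_al.Trim.X.MP_e6f638_al.B1
import Pool.Agent.Lib.MP_551055_al.Trim.X.MP_e6f638_al.F
import Pool.Agent.Lib.MP_551055_al.Trim.X.MP_e6f638_al.GDefs
import Pool.Agent.Lib.MP_551055_al.Trim.X.MP_e6f638_al.Stmts

/-!
# Module S2: two tilings of an axis
-/

set_option autoImplicit false

namespace Pool.Agent.Lib.MP_551055_al
end Pool.Agent.Lib.MP_551055_al

namespace Pool.Agent.Lib.MP_e6f638_al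
end Pool.Agent.Lib.MP_e6f638_al

namespace Pool.Agent.Lib.MP_551055_al.LS
end Pool.Agent.Lib.MP_551055_al.LS

namespace Pool.Agent.Lib.MP_551055_al.RI
end Pool.Agent.Lib.MP_551055_al.RI

namespace Pool.Agent.Lib.MP_551055_al.N4

open Pool.Agent.Lib.MP_551055_al

open Pool.Agent.Lib.MP_e6f638_al (Dat IsAxis)

open Pool.Agent.Lib.MP_551055_al.LS (TreeAct ZN)

open Pool.Agent.Lib.MP_551055_al.RI (BTree stabV LiftData hV hT hB hX hX_of hX_t hX_base hT_treeAct mem_stab_hV)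

open Multiplicative

section

variable {G : Type} [Group G] {D : Dat G}

theorem ofG_inj : Function.Injective D.ofG := HNNExtension.of_injective _

theorem ret_ofG (g : G) : ret D (D.ofG g) = g := by
  rw [ret, HNNExtension.lift_of]
  rfl

theorem ret_xi (i : D.ι) : ret D (xi D i) = D.t i := by
  rw [xi, map_mul, ret_ofG, ret, HNNExtension.lift_t, mul_one]

theorem tk_ed {k : D.Ah} {v w : AV D} (h : (TK D k).Adj v w) (hd : Dir D v w) : Ed D k v w := by
  rcases h with h | h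
  · exact h
  · exact (dir_asymm D hd h.dir).elim

/-! ### Vertices -/

theorem mn_or_int {k : D.Ah} {v w : AV D} (h : (TK D k).Adj v w) :
    Mn D k v ∨ ∃ e ∈ RE D, ∃ (i : D.ι) (r : ℕ), 1 ≤ r ∧ r < D.l i ∧
      v = pt D (k * e * xi D i ^ r) := by
  rcases h with ⟨e, he, i, r, hr, rfl, rfl⟩ | ⟨e, he, i, r, hr, rfl, rfl⟩
  · rcases Nat.eq_zero_or_pos r with rfl | h0
    · left
      exact ⟨e, he, by rw [pow_zero, mul_one]⟩
    · right
      exact ⟨e, he, i, r, h0, hr, rfl⟩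
  · by_cases h1 : r + 1 = D.l i
    · left
      refine ⟨e * xi D i ^ D.l i, mul_mem he (zi_mem_RE D i), ?_⟩
      rw [h1, mul_assoc]
    · right
      exact ⟨e, he, i, r + 1, by omega, by omega, rfl⟩

/-- `B` moves over the letters. -/
theorem xi_B (i : D.ι) {b : G} (hb : b ∈ D.B) : xi D i * D.ofG b = D.ofG (D.t i * b) * D.u := by
  rw [xi, mul_assoc, D.u_comm hb, ← mul_assoc, ← map_mul]

/-- The change of the tile at an outgoing edge. -/
theorem out_change (k e : D.Ah) (i j : D.ι) {g : G} (hg : g ∈ D.B) :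
    k * (e * D.ofG (D.t i * g * (D.t j)⁻¹)) * xi D j = k * e * xi D i * D.ofG g := by
  rw [mul_assoc _ (xi D i), xi_B i hg, xi, map_mul D.ofG (D.t i * g) (D.t j)⁻¹, map_inv]
  group

theorem h_change (i j : D.ι) {g : G} (hg : g ∈ D.B) : D.h (D.t i * g * (D.t j)⁻¹) = 1 := by
  rw [map_mul, map_mul, map_inv, D.h_t, D.h_t, D.h_B g hg, mul_one, mul_inv_cancel]

theorem change_mem {e : D.Ah} (he : e ∈ RE D) (i j : D.ι) {g : G} (hg : g ∈ D.B) :
    e * D.ofG (D.t i * g * (D.t j)⁻¹) ∈ RE D :=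
  mul_mem he (ofG_mem_RE D (h_change i j hg))

/-- The change of the tile at an incoming edge. -/
theorem in_change (m : D.Ah) (i j : D.ι) {g : G} (hg : g ∈ D.B) :
    pt D (m * D.ofG g * (xi D j)⁻¹) = pt D (m * (xi D i)⁻¹) := by
  have h1 : m * D.ofG g * (xi D j)⁻¹ = m * (xi D i)⁻¹ * D.ofG (D.t i * g * (D.t j)⁻¹) := by
    have h2 : D.u⁻¹ * D.ofG g = D.ofG g * D.u⁻¹ := by
      have h3 := D.u_comm hg
      rw [inv_mul_eq_iff_eq_mul, ← mul_assoc, h3, mul_inv_cancel_right]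
    have h4 : (xi D i)⁻¹ * D.ofG (D.t i * g * (D.t j)⁻¹) = D.ofG g * (xi D j)⁻¹ := by
      rw [xi, xi, map_mul, map_mul, map_inv, mul_inv_rev, mul_inv_rev]
      calc D.u⁻¹ * (D.ofG (D.t i))⁻¹ * (D.ofG (D.t i) * D.ofG g * (D.ofG (D.t j))⁻¹)
          = D.u⁻¹ * D.ofG g * (D.ofG (D.t j))⁻¹ := by group
        _ = D.ofG g * D.u⁻¹ * (D.ofG (D.t j))⁻¹ := by rw [h2]
        _ = _ := by group
    rw [mul_assoc, mul_assoc m, h4]
  rw [h1, pt_mul_ofG]

/-- A vertex in the interior of a tile, on a directed path. -/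
def Thr (D : Dat G) (k : D.Ah) (v₁ v₂ v₃ : AV D) : Prop :=
  ∃ e ∈ RE D, ∃ (i : D.ι) (r : ℕ), r + 1 < D.l i ∧ v₁ = pt D (k * e * xi D i ^ r) ∧
    v₂ = pt D (k * e * xi D i ^ (r + 1)) ∧ v₃ = pt D (k * e * xi D i ^ (r + 2))

/-- Outgoing corners. -/
def OutC (D : Dat G) (k : D.Ah) (v₁ v₂ v₃ : AV D) : Prop :=
  ∃ e ∈ RE D, ∃ i, v₂ = pt D (k * e * xi D i) ∧
    (∃ g ∈ D.B, ∃ j, v₁ = pt D (k * e * xi D i * D.ofG g * xi D j)) ∧
    (∃ g ∈ D.B, ∃ j, v₃ = pt D (k * e * xi D i * D.ofG g * xi D j))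

/-- Incoming corners. -/
def InC (D : Dat G) (k : D.Ah) (v₁ v₂ v₃ : AV D) : Prop :=
  ∃ e ∈ RE D, ∃ i, v₂ = pt D (k * (e * xi D i ^ D.l i) * (xi D i)⁻¹) ∧
    (∃ g ∈ D.B, ∃ j, v₁ = pt D (k * (e * xi D i ^ D.l i) * D.ofG g * (xi D j ^ 2)⁻¹)) ∧
    (∃ g ∈ D.B, ∃ j, v₃ = pt D (k * (e * xi D i ^ D.l i) * D.ofG g * (xi D j ^ 2)⁻¹))

variable (h3 : Three D) (hW : Wd D)

include h3 hW in
theorem thr {k : D.Ah} {v₁ v₂ v₃ : AV D} (h1 : Ed D k v₁ v₂) (h2 : Ed D k v₂ v₃)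
    (hn : ¬ Mn D k v₂) : Thr D k v₁ v₂ v₃ := by
  rcases mn_or_int (v := v₂) (w := v₃) (Or.inl h2) with h | ⟨e, he, i, r, hr, hr', rfl⟩
  · exact absurd h hn
  have h4 := ed_out hW k he hr hr' h2
  have h5 := ed_in hW k he hr hr' h1
  have h6 := h3.three i
  rcases h5 with h5 | ⟨h5, g, hg, j, h7⟩
  · rcases h4 with h4 | ⟨rfl, g, hg, j, h4⟩
    · refine ⟨e, he, i, r - 1, by omega, h5, ?_, ?_⟩
      · rw [Nat.sub_add_cancel hr]
      · rw [h4]
        congr 3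
        omega
    · refine ⟨_, change_mem he i j hg, j, 0, ?_, ?_, ?_, ?_⟩
      · have := h3.three j
        omega
      · rw [h5, Nat.sub_self, pow_zero, mul_one, pow_zero, mul_one, ← mul_assoc, pt_mul_ofG]
      · rw [zero_add, pow_one, pow_one, out_change k e i j hg, pt_mul_ofG]
      · rw [zero_add, pow_two, ← mul_assoc, out_change k e i j hg, h4]
  · have hj := h3.three j
    rcases h4 with h4 | ⟨h4, _⟩
    · have h8 : e * xi D i ^ D.l i * D.ofG g * (xi D j ^ D.l j)⁻¹ ∈ RE D :=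
        mul_mem (mul_mem (mul_mem he (zi_mem_RE D i)) (ofG_mem_RE D (D.h_B g hg)))
          (inv_mem (zi_mem_RE D j))
      have h9 : ∀ s, s ≤ D.l j → k * (e * xi D i ^ D.l i * D.ofG g * (xi D j ^ D.l j)⁻¹) *
          xi D j ^ s = k * (e * xi D i ^ D.l i) * D.ofG g * (xi D j ^ (D.l j - s))⁻¹ := by
        intro s hs
        have h10 : xi D j ^ D.l j = xi D j ^ s * xi D j ^ (D.l j - s) := by
          rw [← pow_add]
          congr 1
          omega
        have h11 : (xi D j ^ D.l j)⁻¹ * xi D j ^ s = (xi D j ^ (D.l j - s))⁻¹ := by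
          rw [h10, mul_inv_rev, mul_assoc, inv_mul_cancel, mul_one]
        rw [← h11]
        simp only [mul_assoc]
      refine ⟨_, h8, j, D.l j - 2, by omega, ?_, ?_, ?_⟩
      · rw [h9 _ (by omega), h7]
        have h10 : D.l j - (D.l j - 2) = 2 := by omega
        rw [h10]
        congr 1
        simp only [mul_assoc]
      · rw [h9 _ (by omega)]
        have h10 : D.l j - (D.l j - 2 + 1) = 1 := by omega
        rw [h10, pow_one, in_change _ i j hg]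
        congr 1
        rw [← h5, pow_succ]
        group
      · rw [h9 _ (by omega), h4]
        have h10 : D.l j - (D.l j - 2 + 2) = 0 := by omega
        rw [h10, pow_zero, inv_one, mul_one, pt_mul_ofG, h5, mul_assoc]
    · omega

include h3 hW in
theorem outC {k : D.Ah} {v₁ v₂ v₃ : AV D} (h1 : Ed D k v₂ v₁) (h2 : Ed D k v₂ v₃)
    (hne : v₁ ≠ v₃) (hn : ¬ Mn D k v₂) : OutC D k v₁ v₂ v₃ := by
  rcases mn_or_int (v := v₂) (w := v₃) (Or.inl h2) with h | ⟨e, he, i, r, hr, hr', rfl⟩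
  · exact absurd h hn
  have h4 := ed_out hW k he hr hr' h1
  have h5 := ed_out hW k he hr hr' h2
  have hr1 : r = 1 := by
    rcases h4 with h4 | ⟨h4, _⟩
    · rcases h5 with h5 | ⟨h5, _⟩
      · exact absurd (h4.trans h5.symm) hne
      · exact h5
    · exact h4
  subst hr1
  have key : ∀ c, (c = pt D (k * e * xi D i ^ (1 + 1)) ∨
      ((1 : ℕ) = 1 ∧ ∃ g ∈ D.B, ∃ j, c = pt D (k * e * xi D i * D.ofG g * xi D j))) →
      ∃ g ∈ D.B, ∃ j, c = pt D (k * e * xi D i * D.ofG g * xi D j) := by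
    rintro c (h | ⟨_, h⟩)
    · refine ⟨1, one_mem _, i, ?_⟩
      rw [h, map_one, mul_one, pow_succ, pow_one, ← mul_assoc]
    · exact h
  exact ⟨e, he, i, by rw [pow_one], key _ h4, key _ h5⟩

include h3 hW in
theorem inC {k : D.Ah} {v₁ v₂ v₃ : AV D} (h1 : Ed D k v₁ v₂) (h2 : Ed D k v₃ v₂)
    (hne : v₁ ≠ v₃) (hn : ¬ Mn D k v₂) : InC D k v₁ v₂ v₃ := by
  rcases mn_or_int (v := v₂) (w := v₃) (Or.inr h2) with h | ⟨e, he, i, r, hr, hr', rfl⟩
  · exact absurd h hn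
  have h4 := ed_in hW k he hr hr' h1
  have h5 := ed_in hW k he hr hr' h2
  have hr1 : r + 1 = D.l i := by
    rcases h4 with h4 | ⟨h4, _⟩
    · rcases h5 with h5 | ⟨h5, _⟩
      · exact absurd (h4.trans h5.symm) hne
      · exact h5
    · exact h4
  have key : ∀ c, (c = pt D (k * e * xi D i ^ (r - 1)) ∨
      (r + 1 = D.l i ∧ ∃ g ∈ D.B, ∃ j,
        c = pt D (k * e * xi D i ^ D.l i * D.ofG g * (xi D j ^ 2)⁻¹))) →
      ∃ g ∈ D.B, ∃ j, c = pt D (k * (e * xi D i ^ D.l i) * D.ofG g * (xi D j ^ 2)⁻¹) := by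
    rintro c (h | ⟨_, g, hg, j, h⟩)
    · refine ⟨1, one_mem _, i, ?_⟩
      rw [h, map_one, mul_one]
      obtain ⟨s, rfl⟩ : ∃ s, r = s + 1 := ⟨r - 1, by omega⟩
      rw [Nat.add_sub_cancel, ← hr1]
      have h6 : xi D i ^ (s + 1 + 1) = xi D i ^ s * xi D i ^ 2 := by rw [← pow_add]
      rw [h6]
      congr 1
      group
    · refine ⟨g, hg, j, ?_⟩
      rw [h, ← mul_assoc k]
  refine ⟨e, he, i, ?_, key _ h4, key _ h5⟩
  rw [← hr1, pow_succ]
  congr 1
  group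

/-! ### Special elements -/

variable {q : D.Ah} (hq : D.hh q = 1)

include hq in
theorem sp_eq {m m' : D.Ah} (hm : m ∈ RE D) (hm' : m' ∈ RE D) (h : pt D m = pt D (q * m')) :
    q ∈ RE D := by
  obtain ⟨g, hg⟩ := (pt_eq D).1 h
  have h1 := congrArg D.hh hg
  rw [map_mul, map_mul, hq, hh_RE D hm, hh_RE D hm', mul_one, one_mul, hh_ofG] at h1
  have h2 : q = m * D.ofG g * m'⁻¹ := by rw [← hg, mul_inv_cancel_right]
  rw [h2]
  exact mul_mem (mul_mem hm (ofG_mem_RE D h1.symm)) (inv_mem hm')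

include hq in
theorem sp_adj {m m' k : D.Ah} (hm : m ∈ RE D) (hm' : m' ∈ RE D) (hk : D.hh k = 1)
    (h : (TK D k).Adj (pt D m) (pt D (q * m'))) : Sp D q := by
  rcases h with h | h
  · obtain ⟨p, h1, h2, h4⟩ := h.name
    rw [hk, one_mul] at h4
    obtain ⟨g, hg⟩ := (pt_eq D).1 h1
    obtain ⟨g', hg'⟩ := (pt_eq D).1 h2.symm
    have h5 : D.h g = ofAdd 1 := by
      rw [hg, map_mul, hh_RE D hm, one_mul, hh_ofG] at h4
      exact h4
    have h6 : D.h g' = 1 := by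
      have h7 := congrArg D.hh hg'
      rw [map_mul, map_mul, map_mul, hq, hh_RE D hm', mul_one, h4, D.hh_u, hh_ofG, ← ofAdd_add,
        add_neg_cancel, ofAdd_zero, one_mul] at h7
      exact h7.symm
    right
    refine ⟨m * D.ofG (g * D.t₀⁻¹), mul_mem hm (ofG_mem_RE D ?_), D.ofG g' * m'⁻¹,
      mul_mem (ofG_mem_RE D h6) (inv_mem hm'), Or.inl ?_⟩
    · rw [map_mul, map_inv, h5, D.h_t₀, mul_inv_cancel]
    · have h7 : q = p * D.u * D.ofG g' * m'⁻¹ := by rw [← hg', mul_inv_cancel_right]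
      rw [h7, hg, Dat.x, map_mul, map_inv]
      group
  · obtain ⟨p, h1, h2, h4⟩ := h.name
    rw [hk, one_mul] at h4
    obtain ⟨g, hg⟩ := (pt_eq D).1 h1
    obtain ⟨g', hg'⟩ := (pt_eq D).1 h2.symm
    have h5 : D.h g = ofAdd 1 := by
      rw [hg, map_mul, map_mul, hq, one_mul, hh_RE D hm', one_mul, hh_ofG] at h4
      exact h4
    have h6 : D.h g' = 1 := by
      have h7 := congrArg D.hh hg'
      rw [map_mul, map_mul, hh_RE D hm, h4, D.hh_u, hh_ofG, ← ofAdd_add,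
        add_neg_cancel, ofAdd_zero, one_mul] at h7
      exact h7.symm
    right
    refine ⟨m * D.ofG g'⁻¹, mul_mem hm (ofG_mem_RE D ?_), D.ofG (D.t₀ * g⁻¹) * m'⁻¹,
      mul_mem (ofG_mem_RE D ?_) (inv_mem hm'), Or.inr ?_⟩
    · rw [map_inv, h6, inv_one]
    · rw [map_mul, map_inv, h5, D.h_t₀, mul_inv_cancel]
    · rw [hg', hg, Dat.x, map_mul, map_inv, map_inv]
      group

theorem out_name {A : D.Ah} {g g' : G} {j j' : D.ι}
    (h : pt D (A * D.ofG g * xi D j) = pt D (A * D.ofG g' * xi D j')) :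
    ∃ b ∈ D.B, g' * D.t j' = g * D.t j * b := by
  obtain ⟨b, hb, h1⟩ := dir_uniq D (p := A * D.ofG g * D.ofG (D.t j))
    (q := A * D.ofG g' * D.ofG (D.t j')) (by simp only [pt_mul_ofG]) (by
      rw [mul_assoc _ (D.ofG (D.t j)), mul_assoc _ (D.ofG (D.t j'))]
      exact h)
  refine ⟨b, hb, ?_⟩
  apply ofG_inj (D := D)
  apply mul_left_cancel (a := A)
  simp only [map_mul]
  simp only [mul_assoc] at h1 ⊢
  exact h1

theorem u_inv_B {g : G} (hg : g ∈ D.B) : D.u⁻¹ * D.ofG g = D.ofG g * D.u⁻¹ := by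
  have h3 := D.u_comm hg
  rw [inv_mul_eq_iff_eq_mul, ← mul_assoc, h3, mul_inv_cancel_right]

theorem in_rep (m : D.Ah) {g : G} (hg : g ∈ D.B) (j : D.ι) :
    pt D (m * D.ofG g * (xi D j ^ 2)⁻¹) =
      pt D (m * D.u⁻¹ * D.ofG (g * (D.t j)⁻¹) * D.u⁻¹) := by
  have h1 : m * D.ofG g * (xi D j ^ 2)⁻¹ =
      m * D.u⁻¹ * D.ofG (g * (D.t j)⁻¹) * D.u⁻¹ * D.ofG (D.t j)⁻¹ := by
    rw [mul_assoc m D.u⁻¹, map_mul, ← mul_assoc D.u⁻¹, u_inv_B hg, pow_two, xi, map_inv]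
    group
  rw [h1, pt_mul_ofG]

theorem in_name {A : D.Ah} {g g' : G} (h : pt D (A * D.ofG g * D.u⁻¹) =
    pt D (A * D.ofG g' * D.u⁻¹)) : ∃ b ∈ D.B, g' = g * b := by
  obtain ⟨b, hb, h1⟩ := dir_uniq D h (by
    rw [inv_mul_cancel_right, inv_mul_cancel_right, pt_mul_ofG, pt_mul_ofG])
  refine ⟨b, hb, ?_⟩
  rw [mul_assoc _ D.u⁻¹, u_inv_B hb, ← mul_assoc] at h1
  have h2 := mul_right_cancel h1
  rw [mul_assoc, ← map_mul] at h2
  exact ofG_inj (mul_left_cancel h2)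

theorem units_one_zpow (a : G) : a ^ ((1 : ℤˣ) : ℤ) = a := by
  rw [Units.val_one, zpow_one]

theorem units_neg_one_zpow (a : G) : a ^ ((-1 : ℤˣ) : ℤ) = a⁻¹ := by
  rw [Units.val_neg, Units.val_one, zpow_neg, zpow_one]

theorem out_out (hV : V D) {v₁ v₂ v₃ : AV D} (hne : v₁ ≠ v₃) (h : OutC D 1 v₁ v₂ v₃)
    (h' : OutC D q v₁ v₂ v₃) : q ∈ RE D := by
  obtain ⟨e, he, i, h1, ⟨g₁, hg₁, j₁, h2⟩, g₂, hg₂, j₂, h4⟩ := h
  obtain ⟨e', he', i', h1', ⟨g₁', hg₁', j₁', h2'⟩, g₂', hg₂', j₂', h4'⟩ := h'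
  rw [one_mul] at h1 h2 h4
  obtain ⟨p, hp⟩ := (pt_eq D).1 (h1.symm.trans h1')
  rw [hp] at h2' h4'
  rw [mul_assoc _ (D.ofG p), ← map_mul] at h2' h4'
  obtain ⟨β₁, hβ₁, h5⟩ := out_name (h2.symm.trans h2')
  obtain ⟨β₂, hβ₂, h6⟩ := out_name (h4.symm.trans h4')
  have h7 : p = g₁ * D.t j₁ * β₁ * (D.t j₁')⁻¹ * g₁'⁻¹ := by
    rw [← h5]
    group
  have h8 : p = g₂ * D.t j₂ * β₂ * (D.t j₂')⁻¹ * g₂'⁻¹ := by
    rw [← h6]
    group
  have h9 := hV 1 j₁ j₁' j₂ j₂' β₁ β₂ (g₁⁻¹ * g₂) (g₂'⁻¹ * g₁') hβ₁ hβ₂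
    (mul_mem (inv_mem hg₁) hg₂) (mul_mem (inv_mem hg₂') hg₁') (by
      rw [units_one_zpow, units_one_zpow, units_neg_one_zpow, units_neg_one_zpow]
      have h10 : D.t j₁ * β₁ * (D.t j₁')⁻¹ = g₁⁻¹ * p * g₁' := by
        rw [h7]
        group
      rw [h10, h8]
      group) (by
      rw [units_one_zpow, units_neg_one_zpow]
      intro hb
      apply hne
      have h10 : D.ofG g₂ * xi D j₂ = D.ofG g₁ * xi D j₁ *
          D.ofG ((D.t j₁)⁻¹ * (g₁⁻¹ * g₂) * D.t j₂) := by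
        rw [mul_assoc, xi_B j₁ hb, xi]
        simp only [map_mul, map_inv]
        group
      rw [h2, h4, mul_assoc _ (D.ofG g₂), h10, ← mul_assoc, pt_mul_ofG, mul_assoc])
  rw [units_one_zpow, units_neg_one_zpow] at h9
  have h10 : p ∈ D.B := by
    have h11 : p = g₁ * (D.t j₁ * β₁ * (D.t j₁')⁻¹) * g₁'⁻¹ := by
      rw [h7]
      group
    rw [h11]
    exact mul_mem (mul_mem hg₁ h9) (inv_mem hg₁')
  have h11 := out_change 1 e i i' h10
  rw [one_mul, one_mul] at h11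
  rw [← h11] at hp
  have h12 := mul_right_cancel hp
  have h13 : q = e * D.ofG (D.t i * p * (D.t i')⁻¹) * e'⁻¹ := by
    rw [← h12, mul_inv_cancel_right]
  rw [h13]
  exact mul_mem (change_mem he i i' h10) (inv_mem he')

theorem in_vertex (m : D.Ah) (i : D.ι) : pt D (m * (xi D i)⁻¹) = pt D (m * D.u⁻¹) := by
  have h1 : m * (xi D i)⁻¹ = m * D.u⁻¹ * D.ofG (D.t i)⁻¹ := by
    rw [xi, map_inv]
    group
  rw [h1, pt_mul_ofG]

theorem in_in (hV : V D) {v₁ v₂ v₃ : AV D} (hne : v₁ ≠ v₃) (h : InC D 1 v₁ v₂ v₃)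
    (h' : InC D q v₁ v₂ v₃) : q ∈ RE D := by
  obtain ⟨e, he, i, h1, ⟨g₁, hg₁, j₁, h2⟩, g₂, hg₂, j₂, h4⟩ := h
  obtain ⟨e', he', i', h1', ⟨g₁', hg₁', j₁', h2'⟩, g₂', hg₂', j₂', h4'⟩ := h'
  obtain ⟨m, hm⟩ : ∃ m, m = e * xi D i ^ D.l i := ⟨_, rfl⟩
  obtain ⟨m', hm'⟩ : ∃ m', m' = e' * xi D i' ^ D.l i' := ⟨_, rfl⟩
  have hmE : m ∈ RE D := by rw [hm]; exact mul_mem he (zi_mem_RE D i)
  have hmE' : m' ∈ RE D := by rw [hm']; exact mul_mem he' (zi_mem_RE D i')
  rw [one_mul, ← hm] at h1 h2 h4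
  rw [← hm'] at h1' h2' h4'
  rw [in_vertex] at h1 h1'
  rw [in_rep _ hg₁] at h2
  rw [in_rep _ hg₂] at h4
  rw [in_rep _ hg₁'] at h2'
  rw [in_rep _ hg₂'] at h4'
  obtain ⟨p, hp⟩ := (pt_eq D).1 (h1.symm.trans h1')
  rw [hp] at h2' h4'
  rw [mul_assoc _ (D.ofG p), ← map_mul] at h2' h4'
  obtain ⟨β₁, hβ₁, h5⟩ := in_name (h2.symm.trans h2')
  obtain ⟨β₂, hβ₂, h6⟩ := in_name (h4.symm.trans h4')
  have h7 : p = g₁ * (D.t j₁)⁻¹ * β₁ * D.t j₁' * g₁'⁻¹ := by
    rw [← h5]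
    group
  have h8 : p = g₂ * (D.t j₂)⁻¹ * β₂ * D.t j₂' * g₂'⁻¹ := by
    rw [← h6]
    group
  have hnn : ((- -1 : ℤˣ) : ℤ) = 1 := by simp
  have h9 := hV (-1) j₁ j₁' j₂ j₂' β₁ β₂ (g₁⁻¹ * g₂) (g₂'⁻¹ * g₁') hβ₁ hβ₂
    (mul_mem (inv_mem hg₁) hg₂) (mul_mem (inv_mem hg₂') hg₁') (by
      rw [hnn, zpow_one, zpow_one, units_neg_one_zpow, units_neg_one_zpow]
      have h10 : (D.t j₁)⁻¹ * β₁ * D.t j₁' = g₁⁻¹ * p * g₁' := by
        rw [h7]
        group
      rw [h10, h8]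
      group) (by
      rw [hnn, zpow_one, units_neg_one_zpow]
      intro hb
      apply hne
      have h10 : D.ofG (g₂ * (D.t j₂)⁻¹) * D.u⁻¹ = D.ofG (g₁ * (D.t j₁)⁻¹) * D.u⁻¹ *
          D.ofG (D.t j₁ * (g₁⁻¹ * g₂) * (D.t j₂)⁻¹) := by
        rw [mul_assoc, u_inv_B hb]
        simp only [map_mul, map_inv]
        group
      rw [h2, h4, mul_assoc _ (D.ofG (g₂ * _)), h10, ← mul_assoc, pt_mul_ofG, mul_assoc])
  rw [hnn, zpow_one, units_neg_one_zpow] at h9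
  have h10 : p ∈ D.B := by
    have h11 : p = g₁ * ((D.t j₁)⁻¹ * β₁ * D.t j₁') * g₁'⁻¹ := by
      rw [h7]
      group
    rw [h11]
    exact mul_mem (mul_mem hg₁ h9) (inv_mem hg₁')
  rw [mul_assoc m, u_inv_B h10, ← mul_assoc] at hp
  have h12 := mul_right_cancel hp
  have h13 : q = m * D.ofG p * m'⁻¹ := by
    rw [← h12, mul_inv_cancel_right]
  rw [h13]
  exact mul_mem (mul_mem hmE (ofG_mem_RE D (D.h_B p h10))) (inv_mem hmE')

/-! ### Corners -/

include h3 hW hq in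
theorem corner_out (hV : V D) {v₁ v₂ v₃ : AV D} (hne : v₁ ≠ v₃)
    (h1 : Ed D 1 v₂ v₁) (h2 : Ed D 1 v₂ v₃) (h1' : Ed D q v₂ v₁) (h2' : Ed D q v₂ v₃) :
    Sp D q := by
  have hadj : ∀ k : D.Ah, ∀ e ∈ RE D, ∀ i, Ed D k (pt D (k * e)) (pt D (k * e * xi D i)) := by
    intro k e he i
    have h4 := h3.three i
    exact ⟨e, he, i, 0, by omega, by rw [pow_zero, mul_one], by rw [zero_add, pow_one]⟩
  by_cases hM : Mn D 1 v₂
  · obtain ⟨m, hm, rfl⟩ := hM
    by_cases hM' : Mn D q (pt D (1 * m))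
    · obtain ⟨m', hm', h5⟩ := hM'
      rw [one_mul] at h5
      exact Or.inl (sp_eq hq hm hm' h5)
    · obtain ⟨e, he, i, h5, _⟩ := outC h3 hW h1' h2' hne hM'
      rw [one_mul] at h5
      have h6 := hadj q e he i
      rw [← h5] at h6
      exact sp_adj hq hm he hq (Or.inr h6)
  · have h4 := outC h3 hW h1 h2 hne hM
    by_cases hM' : Mn D q v₂
    · obtain ⟨m', hm', h5⟩ := hM'
      obtain ⟨e, he, i, h6, _⟩ := h4
      have h7 := hadj 1 e he i
      rw [← h6, h5, one_mul] at h7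
      exact sp_adj hq he hm' (map_one _) (Or.inl h7)
    · exact Or.inl (out_out hV hne h4 (outC h3 hW h1' h2' hne hM'))

include h3 hW hq in
theorem corner_in (hV : V D) {v₁ v₂ v₃ : AV D} (hne : v₁ ≠ v₃)
    (h1 : Ed D 1 v₁ v₂) (h2 : Ed D 1 v₃ v₂) (h1' : Ed D q v₁ v₂) (h2' : Ed D q v₃ v₂) :
    Sp D q := by
  have hadj : ∀ k : D.Ah, ∀ e ∈ RE D, ∀ i, Ed D k (pt D (k * (e * xi D i ^ D.l i) * (xi D i)⁻¹))
      (pt D (k * (e * xi D i ^ D.l i))) := by
    intro k e he i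
    have h4 := h3.three i
    refine ⟨e, he, i, D.l i - 1, by omega, ?_, ?_⟩
    · obtain ⟨s, hs⟩ : ∃ s, D.l i = s + 1 := ⟨D.l i - 1, by omega⟩
      rw [hs, Nat.add_sub_cancel, pow_succ]
      congr 1
      group
    · rw [Nat.sub_add_cancel (by omega), mul_assoc]
  by_cases hM : Mn D 1 v₂
  · obtain ⟨m, hm, rfl⟩ := hM
    by_cases hM' : Mn D q (pt D (1 * m))
    · obtain ⟨m', hm', h5⟩ := hM'
      rw [one_mul] at h5
      exact Or.inl (sp_eq hq hm hm' h5)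
    · obtain ⟨e, he, i, h5, _⟩ := inC h3 hW h1' h2' hne hM'
      rw [one_mul] at h5
      have h6 := hadj q e he i
      rw [← h5] at h6
      exact sp_adj hq hm (mul_mem he (zi_mem_RE D i)) hq (Or.inl h6)
  · have h4 := inC h3 hW h1 h2 hne hM
    by_cases hM' : Mn D q v₂
    · obtain ⟨m', hm', h5⟩ := hM'
      obtain ⟨e, he, i, h6, _⟩ := h4
      have h7 := hadj 1 e he i
      rw [← h6, h5, one_mul] at h7
      exact sp_adj hq (mul_mem he (zi_mem_RE D i)) hm' (map_one _) (Or.inr h7)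
    · exact Or.inl (in_in hV hne h4 (inC h3 hW h1' h2' hne hM'))

/-! ### Directed lines -/

include h3 hW in
/-- Four consecutive vertices. -/
theorem four {k : D.Ah} {γ : ℤ → AV D} (h : ∀ i, Ed D k (γ i) (γ (i + 1))) (i : ℤ)
    (h1 : ¬ Mn D k (γ (i + 1))) (h2 : ¬ Mn D k (γ (i + 2))) :
    ∃ (p : D.Ah) (j : D.ι), γ i = pt D p ∧ γ (i + 1) = pt D (p * xi D j) ∧
      γ (i + 2) = pt D (p * xi D j ^ 2) ∧ γ (i + 3) = pt D (p * xi D j ^ 3) := by
  have e1 := h (i + 1)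
  have e2 := h (i + 2)
  rw [show i + 1 + 1 = i + 2 by ring] at e1
  rw [show i + 2 + 1 = i + 3 by ring] at e2
  obtain ⟨e, he, j, r, hr, t0, t1, t2⟩ := thr h3 hW (h i) e1 h1
  have hr2 : r + 2 < D.l j := by
    by_contra hn
    apply h2
    have h4 : r + 2 = D.l j := by omega
    refine ⟨e * xi D j ^ D.l j, mul_mem he (zi_mem_RE D j), ?_⟩
    rw [t2, h4, mul_assoc]
  rw [t2] at e2
  have h5 := ed_out hW k he (by omega) hr2 e2
  have h6 : γ (i + 3) = pt D (k * e * xi D j ^ (r + 2 + 1)) := by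
    rcases h5 with h5 | ⟨h5, _⟩
    · exact h5
    · omega
  refine ⟨k * e * xi D j ^ r, j, t0, ?_, ?_, ?_⟩
  · rw [t1, pow_succ, ← mul_assoc]
  · rw [t2, pow_add, ← mul_assoc]
  · rw [h6, show r + 2 + 1 = r + 3 by ring, pow_add, ← mul_assoc]

/-- The translation data of `x`. -/
theorem xi_name {p : D.Ah} {g : G} {j j' : D.ι}
    (h : pt D (p * xi D j) = pt D (p * D.ofG g * xi D j')) :
    ∃ b ∈ D.B, g * D.t j' = D.t j * b := by
  have h1 : pt D (p * D.ofG 1 * xi D j) = pt D (p * D.ofG g * xi D j') := by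
    rw [map_one, mul_one]
    exact h
  obtain ⟨b, hb, h2⟩ := out_name h1
  exact ⟨b, hb, by rw [h2, one_mul]⟩

include h3 in
/-- The comparison of two consecutive quadruples. -/
theorem quad {p p' : D.Ah} {j j' : D.ι} (h0 : pt D (p * xi D j) = pt D p')
    (h1 : pt D (p * xi D j ^ 2) = pt D (p' * xi D j'))
    (h2 : pt D (p * xi D j ^ 3) = pt D (p' * xi D j' ^ 2)) :
    j = j' ∧ ∃ b ∈ D.B, Commute b (D.t j) ∧ p' = p * xi D j * D.ofG b := by
  obtain ⟨g, rfl⟩ := (pt_eq D).1 h0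
  rw [pow_two, ← mul_assoc] at h1
  obtain ⟨β, hβ, h4⟩ := xi_name h1
  have h5 : p * xi D j * D.ofG g * xi D j' = p * xi D j * xi D j * D.ofG β := by
    rw [mul_assoc _ (xi D j) (D.ofG β), xi_B j hβ, ← h4, map_mul]
    unfold xi
    simp only [mul_assoc]
  rw [pow_two, ← mul_assoc (p * xi D j * D.ofG g), h5] at h2
  have h6 : pt D (p * xi D j * xi D j * xi D j) =
      pt D (p * xi D j * xi D j * D.ofG β * xi D j') := by
    rw [← h2]
    congr 1
    rw [pow_succ, pow_two]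
    simp only [mul_assoc]
  obtain ⟨β', hβ', h7⟩ := xi_name h6
  have h8 : (D.t j)⁻¹ * β * D.t j' ∈ D.B := by
    rw [mul_assoc, h7, inv_mul_cancel_left]
    exact hβ'
  by_cases hj : j = j' ∧ Commute β (D.t j)
  · obtain ⟨rfl, hc⟩ := hj
    have h9 : g = β := by
      apply mul_right_cancel (b := D.t j)
      rw [h4, hc.eq]
    subst h9
    exact ⟨rfl, g, hβ, hc, rfl⟩
  · exfalso
    have h9 := h3.w j j' (-1) β hβ (fun h10 hc => hj ⟨h10, hc⟩)
    rw [units_neg_one_zpow] at h9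
    have hnn : ((- -1 : ℤˣ) : ℤ) = 1 := by simp
    rw [hnn, zpow_one] at h9
    exact h9 h8

include h3 hW hq in
/-- Directed axes. -/
theorem fwd {γ : ℤ → AV D} (h1 : ∀ i, Ed D 1 (γ i) (γ (i + 1)))
    (h2 : ∀ i, Ed D q (γ i) (γ (i + 1))) {y : D.Ah} {n : ℤ} (hn : 0 < n)
    (hy : ∀ i, y • γ i = γ (i + n)) (hr : ret D y = 1) : Sp D q := by
  by_contra hS
  have hMM : ∀ i, Mn D 1 (γ i) → ¬ Mn D q (γ i) := by
    rintro i ⟨m, hm, h4⟩ ⟨m', hm', h5⟩
    rw [one_mul] at h4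
    exact hS (Or.inl (sp_eq hq hm hm' (h4.symm.trans h5)))
  have hMA : ∀ i, Mn D 1 (γ i) → ¬ Mn D q (γ (i + 1)) := by
    rintro i ⟨m, hm, h4⟩ ⟨m', hm', h5⟩
    rw [one_mul] at h4
    have h6 := h1 i
    rw [h4, h5] at h6
    exact hS (sp_adj hq hm hm' (map_one _) (Or.inl h6))
  have hAM : ∀ i, Mn D 1 (γ (i + 1)) → ¬ Mn D q (γ i) := by
    rintro i ⟨m, hm, h4⟩ ⟨m', hm', h5⟩
    rw [one_mul] at h4
    have h6 := h1 i
    rw [h4, h5] at h6
    exact hS (sp_adj hq hm hm' (map_one _) (Or.inr h6))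
  have hquad : ∀ i, ∃ (p : D.Ah) (j : D.ι), γ i = pt D p ∧ γ (i + 1) = pt D (p * xi D j) ∧
      γ (i + 2) = pt D (p * xi D j ^ 2) ∧ γ (i + 3) = pt D (p * xi D j ^ 3) := by
    intro i
    have hsh : i + 1 + 1 = i + 2 := by ring
    by_cases hA : ¬ Mn D 1 (γ (i + 1)) ∧ ¬ Mn D 1 (γ (i + 2))
    · exact four h3 hW h1 i hA.1 hA.2
    · refine four h3 hW h2 i ?_ ?_
      · by_cases hB : Mn D 1 (γ (i + 1))
        · exact hMM _ hB
        · have hC : Mn D 1 (γ (i + 2)) := by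
            by_contra hC
            exact hA ⟨hB, hC⟩
          rw [← hsh] at hC
          exact hAM _ hC
      · by_cases hB : Mn D 1 (γ (i + 1))
        · rw [← hsh]
          exact hMA _ hB
        · have hC : Mn D 1 (γ (i + 2)) := by
            by_contra hC
            exact hA ⟨hB, hC⟩
          exact hMM _ hC
  choose p j hp0 hp1 hp2 hp3 using hquad
  have hstep : ∀ i, j i = j (i + 1) ∧ ∃ b ∈ D.B, Commute b (D.t (j i)) ∧
      p (i + 1) = p i * xi D (j i) * D.ofG b := by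
    intro i
    refine quad h3 ?_ ?_ ?_
    · rw [← hp1, hp0]
    · rw [← hp2, ← hp1]
      congr 1
      ring
    · rw [← hp3, ← hp2]
      congr 1
      ring
  have hind : ∀ m : ℕ, j (m : ℤ) = j 0 ∧ ∃ b ∈ D.B, Commute b (D.t (j 0)) ∧
      p (m : ℤ) = p 0 * xi D (j 0) ^ m * D.ofG b := by
    intro m
    induction m with
    | zero => exact ⟨rfl, 1, one_mem _, Commute.one_left _, by simp⟩
    | succ m ih =>
      obtain ⟨h4, b, hb, hc, h5⟩ := ih
      obtain ⟨h6, b', hb', hc', h7⟩ := hstep (m : ℤ)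
      rw [h4] at hc' h7
      refine ⟨by push_cast; rw [← h6, h4], b * b', mul_mem hb hb', hc.mul_left hc', ?_⟩
      push_cast
      have h8 : Commute (D.ofG b) (xi D (j 0)) := (hc.map D.ofG).mul_right (D.commute_u hb)
      rw [h7, h5, mul_assoc _ (D.ofG b), h8.eq, pow_succ, map_mul]
      simp only [mul_assoc]
  have hγ : ∀ m : ℕ, γ (m : ℤ) = pt D (p 0 * xi D (j 0) ^ m) := by
    intro m
    obtain ⟨_, b, _, _, h5⟩ := hind m
    rw [hp0, h5, pt_mul_ofG]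
  obtain ⟨N, hN⟩ : ∃ N : ℕ, n = N := ⟨n.toNat, by omega⟩
  have hN0 : N ≠ 0 := by
    rintro rfl
    omega
  have h4 := hy 0
  rw [zero_add, hN, hγ N, hp0, smul_pt] at h4
  obtain ⟨g, hg⟩ := (pt_eq D).1 h4.symm
  have h5 := hy 1
  have h6 := hγ (N + 1)
  have h7 := hγ 1
  push_cast at h6 h7
  rw [hN, show (1 : ℤ) + N = N + 1 by ring, h6, h7, smul_pt, pow_one, ← mul_assoc, hg,
    pow_succ, ← mul_assoc] at h5
  obtain ⟨b, hb, h8⟩ := xi_name h5.symm
  have h9 : D.h g = 1 := by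
    have h10 := congrArg D.h h8
    rw [map_mul, map_mul, D.h_B b hb, D.h_t, mul_one] at h10
    exact mul_right_cancel (by rw [one_mul]; exact h10)
  have h10 := congrArg (ret D) hg
  rw [map_mul, map_mul, map_mul, hr, one_mul, map_pow, ret_xi, ret_ofG, mul_assoc] at h10
  have h11 : D.t (j 0) ^ N * g = 1 := by
    apply mul_left_cancel (a := ret D (p 0))
    rw [← h10, mul_one]
  have h12 := congrArg (fun x => toAdd (D.h x)) h11
  simp only [map_mul, map_pow, D.h_t, h9, mul_one, map_one, toAdd_pow, toAdd_ofAdd,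
    toAdd_one] at h12
  apply hN0
  have h13 : (N : ℤ) = 0 := by simpa using h12
  exact_mod_cast h13

end

/-- Module S2. -/
theorem stS2 : StS2 := by
  intro G _ D h3 hW hV q hq y hyE hy1 hr hyq
  rw [MonoidHom.mem_ker] at hq
  have hact := at_act D
  obtain ⟨γ, n, hn, hd, hy⟩ := Pool.Agent.Lib.MP_e6f638_al.stB1 D.Ah (AV D) (AT D)
    ⟨hact.tree, hact.adj, hact.inv⟩ y (by
      intro v hv
      obtain ⟨p, rfl⟩ := exists_pt D v
      rw [smul_pt] at hv
      obtain ⟨g, hg⟩ := (pt_eq D).1 hv.symm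
      have h1 := congrArg (ret D) hg
      rw [map_mul, map_mul, hr, one_mul, ret_ofG] at h1
      have h2 : g = 1 := by
        apply mul_left_cancel (a := ret D p)
        rw [← h1, mul_one]
      rw [h2, map_one, mul_one] at hg
      exact hy1 (mul_right_cancel (by rw [one_mul]; exact hg)))
  have hline : ∀ k : D.Ah, k⁻¹ * y * k ∈ RE D → ∀ i, (TK D k).Adj (γ i) (γ (i + 1)) := by
    intro k hk
    refine stLine D.Ah (AV D) (AT D) (TK D k) hact (tk_le D k) y γ n ⟨hn, hd, hy⟩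
      (fun v w => tk_smul D k hk v w) (pt D (k * 1)) ?_
    have h1 := tk_reach D k (one_mem (RE D)) hk
    have h2 : y • pt D (k * 1) = pt D (k * (k⁻¹ * y * k)) := by
      rw [smul_pt, mul_one]
      congr 1
      group
    rw [h2]
    exact h1
  have hL1 := hline 1 (by simpa using hyE)
  have hLq := hline q hyq
  have hne : ∀ i, γ i ≠ γ (i + 2) := by
    intro i h
    have h1 := hd i (i + 2)
    rw [← h, SimpleGraph.dist_self] at h1
    have h2 : |i - (i + 2)| = 2 := by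
      rw [show i - (i + 2) = -2 by ring]
      rfl
    rw [h2] at h1
    norm_num at h1
  have hdir : ∀ i, Dir D (γ i) (γ (i + 1)) ∨ Dir D (γ (i + 1)) (γ i) := fun i =>
    (at_adj D _ _).1 (tk_le D 1 (hL1 i))
  by_cases hc : ∃ i, (Dir D (γ i) (γ (i + 1)) ∧ Dir D (γ (i + 2)) (γ (i + 1))) ∨
      (Dir D (γ (i + 1)) (γ i) ∧ Dir D (γ (i + 1)) (γ (i + 2)))
  · obtain ⟨i, h1 | h1⟩ := hc
    · have a1 := hL1 (i + 1)
      have a2 := hLq (i + 1)
      rw [show i + 1 + 1 = i + 2 by ring] at a1 a2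
      exact corner_in h3 hW hq hV (hne i) (tk_ed (hL1 i) h1.1) (tk_ed a1.symm h1.2)
        (tk_ed (hLq i) h1.1) (tk_ed a2.symm h1.2)
    · have a1 := hL1 (i + 1)
      have a2 := hLq (i + 1)
      rw [show i + 1 + 1 = i + 2 by ring] at a1 a2
      exact corner_out h3 hW hq hV (hne i) (tk_ed (hL1 i).symm h1.1) (tk_ed a1 h1.2)
        (tk_ed (hLq i).symm h1.1) (tk_ed a2 h1.2)
  · push Not at hc
    have hsame : ∀ i, Dir D (γ i) (γ (i + 1)) ↔ Dir D (γ (i + 1)) (γ (i + 2)) := by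
      intro i
      have h4 := hdir (i + 1)
      rw [show i + 1 + 1 = i + 2 by ring] at h4
      constructor
      · intro h1
        rcases h4 with h4 | h4
        · exact h4
        · exact absurd h4 ((hc i).1 h1)
      · intro h1
        rcases hdir i with h5 | h5
        · exact h5
        · exact absurd h1 ((hc i).2 h5)
    by_cases h0 : Dir D (γ 0) (γ (0 + 1))
    · have hall : ∀ i : ℤ, Dir D (γ i) (γ (i + 1)) := by
        intro i
        induction i using Int.induction_on with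
        | zero => exact h0
        | succ i ih =>
          have h1 := (hsame i).1 ih
          rwa [show (i : ℤ) + 2 = i + 1 + 1 by ring] at h1
        | pred i ih =>
          have h1 := hsame (-(i : ℤ) - 1)
          rw [show -(i : ℤ) - 1 + 1 = -i by ring, show -(i : ℤ) - 1 + 2 = -i + 1 by ring] at h1
          have h2 := h1.2 ih
          have h4 : γ (-(i : ℤ)) = γ (-(i : ℤ) - 1 + 1) := by
            congr 1
            ring
          rw [h4] at h2
          exact h2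
      exact fwd h3 hW hq (fun i => tk_ed (hL1 i) (hall i)) (fun i => tk_ed (hLq i) (hall i)) hn hy
        hr
    · have hall : ∀ i : ℤ, ¬ Dir D (γ i) (γ (i + 1)) := by
        intro i
        induction i using Int.induction_on with
        | zero => exact h0
        | succ i ih =>
          intro h2
          apply ih
          rw [hsame]
          rwa [show (i : ℤ) + 2 = i + 1 + 1 by ring]
        | pred i ih =>
          intro h2
          apply ih
          have h1 := hsame (-(i : ℤ) - 1)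
          rw [show -(i : ℤ) - 1 + 1 = -i by ring, show -(i : ℤ) - 1 + 2 = -i + 1 by ring] at h1
          rw [show -(i : ℤ) - 1 + 1 = -i by ring] at h2
          exact h1.1 h2
      have hback : ∀ i : ℤ, Dir D (γ (-i)) (γ (-(i + 1))) := by
        intro i
        have h1 := hdir (-(i + 1))
        have h2 := hall (-(i + 1))
        rw [show -(i + 1) + 1 = -i by ring] at h1 h2
        rcases h1 with h1 | h1
        · exact absurd h1 h2
        · exact h1
      refine fwd h3 hW hq (γ := fun i => γ (-i)) (y := y⁻¹) (n := n) (fun i => ?_) (fun i => ?_)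
        hn (fun i => ?_) (by rw [map_inv, hr, inv_one])
      · have h1 := hL1 (-(i + 1))
        rw [show -(i + 1) + 1 = -i by ring] at h1
        exact tk_ed h1.symm (hback i)
      · have h1 := hLq (-(i + 1))
        rw [show -(i + 1) + 1 = -i by ring] at h1
        exact tk_ed h1.symm (hback i)
      · rw [inv_smul_eq_iff, hy]
        congr 1
        ring

end Pool.Agent.Lib.MP_551055_al.N4
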