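import Mathlib
import Pool.Agent.Lib.MP_551055_al.Trim.EA.Am
import Pool.Agent.Lib.MP_551055_al.Trim.EA.Main
import Pool.Agent.Lib.MP_551055_al.Trim.EA.Rec
import Pool.Agent.Lib.MP_551055_al.Trim.EA.Stmts
import Pool.Agent.Lib.MP_551055_al.Trim.LS.PStmts
import Pool.Agent.Lib.MP_551055_al.Trim.LS.Stmts
import Pool.Agent.Lib.MP_551055_al.Trim.MT.K1
import Pool.Agent.Lib.MP_551055_al.Trim.N4.Her_17
import Pool.Agent.Lib.MP_551055_al.Trim.N4.O_17
import Pool.Agent.Lib.MP_551055_al.Trim.N4.Rules_17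
import Pool.Agent.Lib.MP_551055_al.Trim.N4.S1_4
import Pool.Agent.Lib.MP_551055_al.Trim.N4.S2_17
import Pool.Agent.Lib.MP_551055_al.Trim.N4.Stmts
import Pool.Agent.Lib.MP_551055_al.Trim.RI.Stmts
import Pool.Agent.Lib.MP_551055_al.Trim.T4.GlDim
import Pool.Agent.Lib.MP_551055_al.Trim.VNDefs
import Pool.Agent.Lib.MP_551055_al.Trim.W17.Peel
import Pool.Agent.Lib.MP_551055_al.Trim.W17.StF
import Pool.Agent.Lib.MP_551055_al.Trim.X.MP_e6f638_al.F
import Pool.Agent.Lib.MP_551055_al.Trim.X.MP_e6f638_al.GDefs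
import Pool.Agent.Lib.MP_551055_al.Trim.X.MP_e6f638_al.I1
import Pool.Agent.Lib.MP_551055_al.Trim.X.MP_e6f638_al.I2
import Pool.Agent.Lib.MP_551055_al.Trim.X.MP_e6f638_al.Stmts

/-!
# Even Artin groups: removal of generators
-/

set_option autoImplicit false

namespace Pool.Agent.Lib.MP_551055_al
end Pool.Agent.Lib.MP_551055_al

namespace Pool.Agent.Lib.MP_e6f638_al
end Pool.Agent.Lib.MP_e6f638_al

namespace Pool.Agent.Lib.MP_551055_al.LS
end Pool.Agent.Lib.MP_551055_al.LS

namespace Pool.Agent.Lib.MP_551055_al.RI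
end Pool.Agent.Lib.MP_551055_al.RI

namespace Pool.Agent.Lib.MP_551055_al.W17
end Pool.Agent.Lib.MP_551055_al.W17

namespace Pool.Agent.Lib.MP_551055_al.N4

open Pool.Agent.Lib.MP_551055_al

open Pool.Agent.Lib.MP_e6f638_al (Dat EA gen par rho del IsDatOf IsAxis retr incl liftEA liftEA_gen hom_ext_EA gen_rel rho_mem rho_not_mem rho_par rho_mem_par gen_mem_par closure_gen incl_gen retr_mem retr_not_mem retr_incl incl_injective inD inD_gen killD killD_inD inD_injective)

open Pool.Agent.Lib.MP_551055_al.LS (TreeAct ZN)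

open Pool.Agent.Lib.MP_551055_al.RI

open Pool.Agent.Lib.MP_551055_al.W17 (SF)

open Multiplicative

variable {j : ℕ}

theorem HerJ.of_injective {G H : Type} [Group G] [Group H] (h : HerJ j G) (f : H →* G)
    (hf : Function.Injective f) : HerJ j H := herJ_lift G H f (lift_of_injective f hf) h

/-- Bijections of the generators. -/
theorem Rules.equiv {P : ∀ (G : Type) [Group G], Prop} (hP : Rules P) {S S' : Type}
    (l : S → S → ℕ) (l' : S' → S' → ℕ) (e : S' ≃ S)
    (h : ∀ a b, l (e a) (e b) = l' a b) (hG : P (EA l)) : P (EA l') := by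
  have h1 : ∀ s t, (gen l (e s) * gen l (e t)) ^ l' s t = (gen l (e t) * gen l (e s)) ^ l' s t := by
    intro s t
    rw [← h]
    exact gen_rel l _ _
  have h2 : ∀ s t, (gen l' (e.symm s) * gen l' (e.symm t)) ^ l s t =
      (gen l' (e.symm t) * gen l' (e.symm s)) ^ l s t := by
    intro s t
    have h3 := h (e.symm s) (e.symm t)
    rw [e.apply_symm_apply, e.apply_symm_apply] at h3
    rw [h3]
    exact gen_rel l' _ _
  refine hP.lift _ _ (liftEA l' (fun s => gen l (e s)) h1) (lift_of_injective _ ?_) hG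
  have h3 : (liftEA l (fun s => gen l' (e.symm s)) h2).comp (liftEA l' (fun s => gen l (e s)) h1) =
      MonoidHom.id _ := by
    refine hom_ext_EA _ fun s => ?_
    rw [MonoidHom.comp_apply, liftEA_gen, liftEA_gen, e.symm_apply_apply, MonoidHom.id_apply]
  intro a b hab
  have h4 := DFunLike.congr_fun h3 a
  have h5 := DFunLike.congr_fun h3 b
  rw [MonoidHom.comp_apply, MonoidHom.id_apply] at h4 h5
  rw [← h4, ← h5, hab]

/-- The induction step. -/
theorem Rules.step {P : ∀ (G : Type) [Group G], Prop} (hP : Rules P) (hWd : StWd) (hArt : StArt)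
    (S : Type) [Finite S] (l : S → S → ℕ)
    (hl : ∀ s t, l s t = l t s) (u : S) (h2 : ∀ s, s ≠ u → l u s ≠ 2)
    (hc : ∀ t c, t ≠ u → c ≠ u → 3 ≤ l u t → l u c = 1 → l t c ≠ 2)
    (hG : P (EA (del l u))) : P (EA l) := by
  by_cases hs : ∃ s : {x : S // x ≠ u}, l u s ≠ 1
  · obtain ⟨D, hD, i, hi1, hi2, hExt⟩ := Pool.Agent.Lib.MP_e6f638_al.stI2 S l hl u hs
    obtain ⟨hfin, h3, hV⟩ := hArt S l hl u h2 hc D hD
    have hW := hWd _ D h3
    have h4 := hP.omega _ D hfin (stS1 _ D h3 hW) (stS2 _ D h3 hW hV) hG D.isPhi_phi hW.inj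
    obtain ⟨ψ, _, _, hψ⟩ := D.exists_psi D.isPhi_phi hW.inj hExt
    exact hP.lift _ _ ψ (lift_of_injective ψ hψ) h4
  · push Not at hs
    have h4 := hP.cent _ ⊤ hG
    obtain ⟨C, hC⟩ : ∃ C, C = (⊤ : Subgroup (EA (del l u))) := ⟨_, rfl⟩
    rw [← hC] at h4
    have hall : ∀ g, g ∈ C := fun g => by rw [hC]; trivial
    have hcomm : ∀ g, (HNNExtension.t * HNNExtension.of g :
        HNNExtension (EA (del l u)) C C (MulEquiv.refl C)) = HNNExtension.of g * HNNExtension.t := by
      intro g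
      exact HNNExtension.t_mul_of (φ := MulEquiv.refl C) (⟨g, hall g⟩ : C)
    classical
    have h5 : ∀ s t, ((if h : s = u then HNNExtension.t else
          HNNExtension.of (gen (del l u) ⟨s, h⟩) :
          HNNExtension (EA (del l u)) C C (MulEquiv.refl C)) *
        (if h : t = u then HNNExtension.t else HNNExtension.of (gen (del l u) ⟨t, h⟩))) ^ l s t =
        ((if h : t = u then HNNExtension.t else
          HNNExtension.of (gen (del l u) ⟨t, h⟩)) *
        (if h : s = u then HNNExtension.t else HNNExtension.of (gen (del l u) ⟨s, h⟩))) ^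
          l s t := by
      intro s t
      by_cases hsu : s = u
      · by_cases htu : t = u
        · rw [dif_pos hsu, dif_pos htu]
        · rw [dif_pos hsu, dif_neg htu, hcomm]
      · by_cases htu : t = u
        · rw [dif_neg hsu, dif_pos htu, hcomm]
        · rw [dif_neg hsu, dif_neg htu, ← map_mul, ← map_mul, ← map_pow, ← map_pow]
          exact congrArg _ (gen_rel (del l u) ⟨s, hsu⟩ ⟨t, htu⟩)
    refine hP.lift _ _ (liftEA l _ h5) (lift_of_injective _ ?_) h4
    have h6 : ∀ a : C, gen l u * inD l u a = inD l u (MulEquiv.refl C a) * gen l u := by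
      intro a
      rw [MulEquiv.refl_apply]
      have h7 : ∀ y : EA (del l u), gen l u * inD l u y = inD l u y * gen l u := by
        intro y
        have hy : y ∈ Subgroup.closure (Set.range (gen (del l u))) := by
          rw [closure_gen]
          trivial
        induction hy using Subgroup.closure_induction with
        | mem x hx =>
          obtain ⟨s, rfl⟩ := hx
          rw [inD_gen]
          have h8 := gen_rel l u s
          rw [hs s, pow_one, pow_one] at h8
          exact h8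
        | one => rw [map_one, mul_one, one_mul]
        | mul x y _ _ hx hy =>
          rw [map_mul, ← mul_assoc, hx, mul_assoc, hy, mul_assoc]
        | inv x _ hx =>
          rw [map_inv]
          exact (Commute.inv_right (show Commute (gen l u) (inD l u x) from hx))
      exact h7 a
    have h3 : (HNNExtension.lift (φ := MulEquiv.refl C) (inD l u) (gen l u) h6).comp
        (liftEA l _ h5) = MonoidHom.id _ := by
      refine hom_ext_EA _ fun s => ?_
      rw [MonoidHom.comp_apply, liftEA_gen, MonoidHom.id_apply]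
      by_cases hsu : s = u
      · rw [dif_pos hsu, HNNExtension.lift_t, hsu]
      · rw [dif_neg hsu, HNNExtension.lift_of, inD_gen]
    intro a b hab
    have h4 := DFunLike.congr_fun h3 a
    have h5 := DFunLike.congr_fun h3 b
    rw [MonoidHom.comp_apply, MonoidHom.id_apply] at h4 h5
    rw [← h4, ← h5, hab]

section

variable {S : Type} {l : S → S → ℕ}

theorem incl_mem_par (X : Set S) (y : EA (fun a b : X => l a b)) : incl l X y ∈ par l X := by
  have hy : y ∈ Subgroup.closure (Set.range (gen (fun a b : X => l a b))) := by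
    rw [closure_gen]
    trivial
  induction hy using Subgroup.closure_induction with
  | mem x hx =>
    obtain ⟨s, rfl⟩ := hx
    rw [incl_gen]
    exact gen_mem_par l s.2
  | one => rw [map_one]; exact one_mem _
  | mul x y _ _ hx hy => rw [map_mul]; exact mul_mem hx hy
  | inv x _ hx => rw [map_inv]; exact inv_mem hx

/-- The retraction is injective on the standard subgroup. -/
theorem retr_inj {X : Set S} {y : EA l} (hy : y ∈ par l X) (h : retr l X y = 1) : y = 1 := by
  have h1 := rho_par l hy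
  rw [← h1]
  change incl l X (retr l X y) = 1
  rw [h, map_one]

theorem herJ_base (hl : ∀ s t, l s t = l t s) {k : ℕ} (hjk : j + k ≤ 2) {X : Set S}
    (hX : X.Finite) (hD : EA.Dpt l k X) : HerJ j (EA (fun a b : X => l a b)) := by
  intro H _ f hf n
  obtain ⟨J, _, τ, hτ⟩ := hf
  refine EA.sf_of_finite hl hjk X hX hD H ((incl l X).comp f) (fun g => incl_mem_par X _) J
    (fun i => (τ i).V) (fun i => (τ i).T) (fun i => (τ i).tree) (fun v => ?_) n
  refine td_map (hτ v) (MonoidHom.id H) (fun x hx => ⟨?_, fun i => congrFun hx.2 i⟩)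
    fun x _ h => h
  have h1 : incl l X (f x) = 1 := hx.1
  exact incl_injective l X (by rw [map_one]; exact h1)

theorem Rules.infinite {P : ∀ (G : Type) [Group G], Prop} (hP : Rules P) (S : Type)
    (l : S → S → ℕ) (hl : ∀ s t, l s t = l t s) (s t : S)
    (hst : s ≠ t) (h0 : l s t = 0) (h1 : P (EA (fun a b : ({s}ᶜ : Set S) => l a b)))
    (h2 : P (EA (fun a b : ({t}ᶜ : Set S) => l a b))) : P (EA l) := by
  obtain ⟨V, aV, T, hT, hv⟩ := EA.stAm S l hl s t hst h0
  have key : ∀ v : V, ∃ (X : Set S), P (EA (fun a b : X => l a b)) ∧ ∃ x : EA l,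
      ∀ g ∈ MulAction.stabilizer (EA l) v, x⁻¹ * g * x ∈ par l X := by
    intro v
    obtain ⟨x, hx | hx⟩ := hv v
    · exact ⟨_, h1, x, hx⟩
    · exact ⟨_, h2, x, hx⟩
  refine hP.tree_hom (EA l) ⟨V, aV, T, hT⟩ (fun v => ?_) fun u v _ => ?_
  · obtain ⟨X, hX, x, hx⟩ := key v
    refine hP.lift _ _ ((retr l X).comp ((MulAut.conj x⁻¹).toMonoidHom.comp
      (MulAction.stabilizer (EA l) v).subtype)) (lift_of_injective _ ?_) hX
    rw [injective_iff_map_eq_one]
    intro g hg
    have h3 : retr l X (x⁻¹ * g * x⁻¹⁻¹) = 1 := hg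
    rw [inv_inv] at h3
    have h4 := retr_inj (hx g g.2) h3
    apply Subtype.ext
    have h5 : (g : EA l) = x * (x⁻¹ * g * x) * x⁻¹ := by group
    rw [h5, h4, mul_one, mul_inv_cancel]
    rfl
  · obtain ⟨X, hX, x, hx⟩ := key u
    refine ⟨_, inferInstance, retr l X, hX, fun g hg h3 => ?_⟩
    have hg' : g ∈ MulAction.stabilizer (EA l) u := congrArg Prod.fst hg
    have h4 := retr_inj (hx g hg') (by
      rw [map_mul, map_mul, h3, mul_one, ← map_mul, inv_mul_cancel, map_one])
    have h5 : g = x * (x⁻¹ * g * x) * x⁻¹ := by group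
    rw [h5, h4, mul_one, mul_inv_cancel]

/-- Removal of an element of a finite set. -/
theorem Rules.removeX {P : ∀ (G : Type) [Group G], Prop} (hP : Rules P) (hWd : StWd)
    (hArt : StArt) (hl : ∀ s t, l s t = l t s) {X : Set S} (hX : X.Finite) (u : S) (hu : u ∈ X)
    (h2 : ∀ s ∈ X, s ≠ u → l u s ≠ 2)
    (hc : ∀ t ∈ X, ∀ c ∈ X, t ≠ u → c ≠ u → 3 ≤ l u t → l u c = 1 → l t c ≠ 2)
    (h : P (EA (fun a b : ↥(X \ {u}) => l a b))) : P (EA (fun a b : X => l a b)) := by
  have : Finite X := hX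
  refine hP.step hWd hArt X (fun a b : X => l a b) (fun a b => hl a b) ⟨u, hu⟩
    (fun s hs => h2 s s.2 fun h => hs (Subtype.ext h))
    (fun t c ht hc' => hc t t.2 c c.2 (fun h => ht (Subtype.ext h))
      fun h => hc' (Subtype.ext h)) ?_
  exact hP.equiv _ _ (S' := {x : X // x ≠ ⟨u, hu⟩}) (S := ↥(X \ {u}))
    ⟨fun a => ⟨a.1.1, a.1.2, fun h => a.2 (Subtype.ext h)⟩,
      fun a => ⟨⟨a.1, a.2.1⟩, fun h => a.2.2 (congrArg Subtype.val h)⟩,
      fun a => rfl, fun a => rfl⟩ (fun a b => rfl) h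

/-- An infinite label. -/
theorem Rules.infiniteX {P : ∀ (G : Type) [Group G], Prop} (hP : Rules P)
    (hl : ∀ s t, l s t = l t s) {X : Set S} (s t : S) (hs : s ∈ X) (ht : t ∈ X) (hst : s ≠ t)
    (h0 : l s t = 0) (h1 : P (EA (fun a b : ↥(X \ {s}) => l a b)))
    (h2 : P (EA (fun a b : ↥(X \ {t}) => l a b))) : P (EA (fun a b : X => l a b)) := by
  refine hP.infinite X (fun a b : X => l a b) (fun a b => hl a b) ⟨s, hs⟩ ⟨t, ht⟩
    (fun h => hst (congrArg Subtype.val h)) h0 ?_ ?_
  · exact hP.equiv _ _ (S' := ({⟨s, hs⟩}ᶜ : Set X)) (S := ↥(X \ {s}))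
      ⟨fun a => ⟨a.1.1, a.1.2, fun h => a.2 (Subtype.ext (show a.1.1 = s from h))⟩,
        fun a => ⟨⟨a.1, a.2.1⟩, fun h => a.2.2 (congrArg Subtype.val
          (show (⟨a.1, a.2.1⟩ : X) = ⟨s, hs⟩ from h))⟩,
        fun a => rfl, fun a => rfl⟩ (fun a b => rfl) h1
  · exact hP.equiv _ _ (S' := ({⟨t, ht⟩}ᶜ : Set X)) (S := ↥(X \ {t}))
      ⟨fun a => ⟨a.1.1, a.1.2, fun h => a.2 (Subtype.ext (show a.1.1 = t from h))⟩,
        fun a => ⟨⟨a.1, a.2.1⟩, fun h => a.2.2 (congrArg Subtype.val
          (show (⟨a.1, a.2.1⟩ : X) = ⟨t, ht⟩ from h))⟩,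
        fun a => rfl, fun a => rfl⟩ (fun a b => rfl) h2

end

end Pool.Agent.Lib.MP_551055_al.N4
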