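import Mathlib
import Pool.Agent.Lib.MP_551055_al.Trim.EA.Main
import Pool.Agent.Lib.MP_551055_al.Trim.EA.Rec
import Pool.Agent.Lib.MP_551055_al.Trim.EA.Stmts
import Pool.Agent.Lib.MP_551055_al.Trim.LS.PStmts
import Pool.Agent.Lib.MP_551055_al.Trim.LS.Stmts
import Pool.Agent.Lib.MP_551055_al.Trim.N4.Asm_17
import Pool.Agent.Lib.MP_551055_al.Trim.N4.Her_17
import Pool.Agent.Lib.MP_551055_al.Trim.RI.Stmts
import Pool.Agent.Lib.MP_551055_al.Trim.W17.Peel
import Pool.Agent.Lib.MP_551055_al.Trim.W17.StF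
import Pool.Agent.Lib.MP_551055_al.Trim.X.MP_e6f638_al.I1
import Pool.Agent.Lib.MP_551055_al.Trim.X.MP_e6f638_al.Stmts

/-!
# Relative depth
-/

set_option autoImplicit false

namespace Pool.Agent.Lib.MP_551055_al
end Pool.Agent.Lib.MP_551055_al

namespace Pool.Agent.Lib.MP_e6f638_al
end Pool.Agent.Lib.MP_e6f638_al

namespace Pool.Agent.Lib.MP_551055_al.LS
end Pool.Agent.Lib.MP_551055_al.LS

namespace Pool.Agent.Lib.MP_551055_al.RI
end Pool.Agent.Lib.MP_551055_al.RI

namespace Pool.Agent.Lib.MP_551055_al.W17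
end Pool.Agent.Lib.MP_551055_al.W17

namespace Pool.Agent.Lib.MP_551055_al.EA
end Pool.Agent.Lib.MP_551055_al.EA

namespace Pool.Agent.Lib.MP_551055_al.N4

open Pool.Agent.Lib.MP_551055_al

open Pool.Agent.Lib.MP_e6f638_al (Dat EA gen par rho del IsDatOf IsAxis retr incl liftEA liftEA_gen hom_ext_EA gen_rel rho_mem rho_not_mem rho_par rho_mem_par gen_mem_par closure_gen incl_gen retr_mem retr_not_mem retr_incl incl_injective)

open Pool.Agent.Lib.MP_551055_al.LS (TreeAct ZN)

open Pool.Agent.Lib.MP_551055_al.RI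

open Pool.Agent.Lib.MP_551055_al.W17 (SF)

open Pool.Agent.Lib.MP_551055_al.EA (TD Ell td_embed map_rho_aux Spl rho_rho)

variable {S : Type}

variable {l : S → S → ℕ}

/-- Directed unions of standard subgroups. -/
theorem herJ_of_finite {j : ℕ} (h : ∀ F : Set S, F.Finite → HerJ j (EA (fun a b : F => l a b))) :
    HerJ j (EA l) := by
  refine herJ_union _ fun s => ?_
  obtain ⟨F, hF, hs⟩ := EA.exists_finite_finset (l := l) (MonoidHom.id (EA l)) s
  refine ⟨par l F, hs, ?_⟩
  refine (h F hF).of_injective ((retr l F).comp (par l F).subtype) ?_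
  rw [injective_iff_map_eq_one]
  intro g hg
  exact Subtype.ext (retr_inj g.2 hg)

end Pool.Agent.Lib.MP_551055_al.N4
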