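import Mathlib
import Pool.Agent.Lib.MP_551055_al.Trim.EA.Main
import Pool.Agent.Lib.MP_551055_al.Trim.EA.Rec
import Pool.Agent.Lib.MP_551055_al.Trim.LD.NG
import Pool.Agent.Lib.MP_551055_al.Trim.LS.PStmts
import Pool.Agent.Lib.MP_551055_al.Trim.LS.Stmts
import Pool.Agent.Lib.MP_551055_al.Trim.MT.RCU
import Pool.Agent.Lib.MP_551055_al.Trim.N4.Asm_17
import Pool.Agent.Lib.MP_551055_al.Trim.N4.Her_17
import Pool.Agent.Lib.MP_551055_al.Trim.N4.O_17
import Pool.Agent.Lib.MP_551055_al.Trim.N4.Rules_17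
import Pool.Agent.Lib.MP_551055_al.Trim.N4.Stmts
import Pool.Agent.Lib.MP_551055_al.Trim.RI.LiftNil
import Pool.Agent.Lib.MP_551055_al.Trim.RI.Stmts
import Pool.Agent.Lib.MP_551055_al.Trim.T4.GlDim
import Pool.Agent.Lib.MP_551055_al.Trim.T4.Perf
import Pool.Agent.Lib.MP_551055_al.Trim.T6.GenF
import Pool.Agent.Lib.MP_551055_al.Trim.W17.Peel
import Pool.Agent.Lib.MP_551055_al.Trim.W17.StF
import Pool.Agent.Lib.MP_551055_al.Trim.X.MP_e6f638_al.I1
import Pool.Agent.Lib.MP_551055_al.Trim.X.MP_e6f638_al.I2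
import Pool.Agent.Lib.MP_551055_al.Trim.X.MP_e6f638_al.Stmts

/-!
# Groups whose products with good groups are good
-/

set_option autoImplicit false

namespace Pool.Agent.Lib.MP_551055_al
end Pool.Agent.Lib.MP_551055_al

namespace Pool.Agent.Lib.MP_e6f638_al
end Pool.Agent.Lib.MP_e6f638_al

namespace Pool.Agent.Lib.MP_551055_al.LS
end Pool.Agent.Lib.MP_551055_al.LS

namespace Pool.Agent.Lib.MP_551055_al.RI
end Pool.Agent.Lib.MP_551055_al.RI

namespace Pool.Agent.Lib.MP_551055_al.W17
end Pool.Agent.Lib.MP_551055_al.W17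

namespace Pool.Agent.Lib.MP_551055_al.N4

open Pool.Agent.Lib.MP_551055_al

open Pool.Agent.Lib.MP_e6f638_al (Dat EA gen par rho del IsDatOf IsAxis retr incl liftEA liftEA_gen hom_ext_EA gen_rel rho_mem rho_not_mem rho_par rho_mem_par gen_mem_par closure_gen incl_gen retr_mem retr_not_mem retr_incl incl_injective inD inD_gen killD killD_inD inD_injective)

open Pool.Agent.Lib.MP_551055_al.LS (TreeAct ZN)

open Pool.Agent.Lib.MP_551055_al.RI

open Pool.Agent.Lib.MP_551055_al.W17 (SF)

open Multiplicative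

variable {j : ℕ}

/-- Groups whose products with good groups are good. -/
def Uni (j : ℕ) (G : Type) [Group G] : Prop :=
  ∀ (Q : Type) [Group Q], HerJ j Q → HerJ j (G × Q)

theorem uni_rules (j : ℕ) : Rules (Uni j) where
  lift := by
    intro G H _ _ f hf hG Q _ hQ
    refine herJ_lift (G × Q) (H × Q) (MonoidHom.prodMap f (MonoidHom.id Q)) ?_ (hG Q hQ)
    obtain ⟨J, _, τ, h⟩ := hf
    refine ⟨J, inferInstance, fun j => (τ j).res (MonoidHom.fst H Q), fun v x hx h1 => ?_⟩
    have h2 : f x.1 = 1 := congrArg Prod.fst h1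
    have h3 : x.2 = 1 := congrArg Prod.snd h1
    exact Prod.ext (h v x.1 (fun j => hx j) h2) h3
  edge := by
    intro G _ t hv he Q _ hQ
    refine herJ_edge (G × Q) (t.res (MonoidHom.fst G Q)) (fun v => ?_) fun u v huv g => ?_
    · refine (hv v Q hQ).of_injective
        (((MonoidHom.fst G Q).comp (Subgroup.subtype _)).codRestrict
          (MulAction.stabilizer G (show t.V from v)) (fun x => x.2) |>.prod
          ((MonoidHom.snd G Q).comp (Subgroup.subtype _))) ?_
      intro x y hxy
      have h1 := congrArg Prod.snd hxy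
      refine Subtype.ext (Prod.ext ?_ h1)
      exact congrArg Subtype.val (congrArg Prod.fst hxy)
    · obtain ⟨G₁, _, a, D₁, s, hL, hG₁⟩ := he u v huv g.1
      refine ⟨G₁ × Q, inferInstance, MonoidHom.prodMap a (MonoidHom.id Q), D₁.prod ⊤, (s, g.2),
        ⟨fun x hx => ?_, fun y hy => ?_, fun x hx h1 => ?_, ?_, fun x hx h1 => ?_⟩, hG₁ Q hQ⟩
      · have h1 := hL.map x.1 (Subgroup.mem_prod.1 hx).1
        exact h1
      · have hy' : y.1 ∈ MulAction.stabilizer G ((show t.V from u), (show t.V from v)) := hy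
        obtain ⟨x, hx, hxy⟩ := hL.surj y.1 hy'
        exact ⟨(x, y.2), Subgroup.mem_prod.2 ⟨hx, trivial⟩, Prod.ext hxy rfl⟩
      · have h2 : x.2 = 1 := congrArg Prod.snd h1
        exact Prod.ext (hL.inj x.1 (Subgroup.mem_prod.1 hx).1 (congrArg Prod.fst h1)) h2
      · exact Prod.ext hL.ft rfl
      · refine Subgroup.mem_prod.2 ⟨hL.conj x.1 (Subgroup.mem_prod.1 hx).1 ?_, trivial⟩
        exact h1

theorem Uni.of_injective {G H : Type} [Group G] [Group H] (h : Uni j G) (f : H →* G)
    (hf : Function.Injective f) : Uni j H := (uni_rules j).lift G H f (lift_of_injective f hf) h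

theorem uni_subsingleton (G : Type) [Group G] (h : Subsingleton G) : Uni j G := by
  intro Q _ hQ
  refine hQ.of_injective (MonoidHom.snd G Q) fun x y hxy => ?_
  exact Prod.ext (Subsingleton.elim _ _) hxy

theorem Uni.prod {G H : Type} [Group G] [Group H] (hG : Uni j G) (hH : Uni j H) :
    Uni j (G × H) := by
  intro Q _ hQ
  refine (hG (H × Q) (hH Q hQ)).of_injective (MulEquiv.prodAssoc : (G × H) × Q ≃* _).toMonoidHom
    (MulEquiv.injective _)

theorem Uni.pi {ι : Type} [Finite ι] :
    ∀ (G : ι → Type) [∀ i, Group (G i)], (∀ i, Uni j (G i)) → Uni j (∀ i, G i) := by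
  induction ι using Finite.induction_empty_option with
  | of_equiv e ih =>
    intro G _ hG
    refine (ih (fun a => G (e a)) fun a => hG (e a)).of_injective
      (MonoidHom.mk' (fun f a => f (e a)) fun f g => rfl) fun f g hfg => ?_
    funext b
    have h1 := congrFun hfg (e.symm b)
    have h2 : ∀ b', b' = e (e.symm b) → f b' = g b' := by
      rintro b' rfl
      exact h1
    exact h2 b (e.apply_symm_apply b).symm
  | h_empty =>
    intro G _ _
    exact uni_subsingleton _ ⟨fun f g => funext fun i => i.elim⟩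
  | h_option ih =>
    intro G _ hG
    refine ((hG none).prod (ih (fun a => G (some a)) fun a => hG (some a))).of_injective
      (MonoidHom.mk' (fun f => (f none, fun a => f (some a))) fun f g => rfl) fun f g hfg => ?_
    funext o
    rcases o with _ | a
    · exact congrArg Prod.fst hfg
    · exact congrFun (congrArg Prod.snd hfg) a

/-- Groups which act on finitely many trees with trivial stabilisers of tuples. -/
theorem uni_of_trees (H : Type) [Group H] (J : Type) [Finite J] (τ : J → BTree H)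
    (h : ∀ v : ∀ j, (τ j).V, ∀ x ∈ stabV τ v, x = 1) : Uni j H :=
  (uni_rules j).lift Unit H 1 ⟨J, inferInstance, τ, fun v x hx _ => h v x hx⟩
    (uni_subsingleton Unit inferInstance)

section

variable {S : Type} {l : S → S → ℕ}

/-- The trees of an even Artin group for a group with a homomorphism to it. -/
theorem exists_ell (hl : ∀ s t, l s t = l t s) (F : Set S) (hF : F.Finite) (H : Type) [Group H]
    (f : H →* EA l) : ∃ τ : EA.Ix F → BTree H, ∀ (v : ∀ i, (τ i).V) (A : Subgroup H),
      A ≤ stabV τ v → EA.Ell l F (A.map f) := by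
  choose V a T hT hV using EA.exists_family hl F hF
  refine ⟨fun i => BTree.res ⟨V i, a i, T i, hT i⟩ f, fun v A hA =>
    EA.ell_of_PIx fun i => hV i (v i) _ ?_⟩
  rintro _ ⟨g, hg, rfl⟩
  exact hA hg i

theorem herJ_unit (hj : j ≤ 2) : HerJ j Unit :=
  (herJ_base (S := Unit) (l := fun _ _ => 0) (fun _ _ => rfl) (k := 0) (j := j) (by omega)
    (X := ∅) Set.finite_empty (EA.Dpt.empty 0)).of_injective 1
    fun _ _ _ => rfl

theorem Uni.herJ (hj : j ≤ 2) {G : Type} [Group G] (h : Uni j G) : HerJ j G :=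
  (h Unit (herJ_unit hj)).of_injective (MonoidHom.inl G Unit) (fun _ _ h => congrArg Prod.fst h)

/-- At most two generators. -/
theorem uni_two (hl : ∀ s t, l s t = l t s) {X : Set S} (hX : X.Finite) (h2 : X.ncard ≤ 2) :
    Uni j (EA (fun a b : X => l a b)) := by
  have : Finite X := hX
  obtain ⟨τ, hτ⟩ := exists_ell hl X hX _ (incl l X)
  refine uni_of_trees _ (EA.Ix X) τ fun v x hx => ?_
  have h1 := (hτ v _ le_rfl).two (Set.Subset.refl X) hX h2 (incl l X x) ⟨x, hx, rfl⟩
  rw [rho_par l (incl_mem_par X x)] at h1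
  exact incl_injective l X (by rw [h1, map_one])

/-- Commuting unions. -/
theorem Rules.union {P : ∀ (G : Type) [Group G], Prop} (hP : Rules P)
    (hprod : ∀ (G H : Type) [Group G] [Group H], P G → P H → P (G × H)) {X Y : Set S}
    (hd : Disjoint X Y) (h : ∀ x ∈ X, ∀ y ∈ Y, l x y = 1)
    (hX : P (EA (fun a b : X => l a b))) (hY : P (EA (fun a b : Y => l a b))) :
    P (EA (fun a b : ↥(X ∪ Y) => l a b)) := by
  refine hP.lift _ _ (((retr l X).prod (retr l Y)).comp (incl l (X ∪ Y)))
    (lift_of_injective _ ?_) (hprod _ _ hX hY)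
  rw [injective_iff_map_eq_one]
  intro a ha
  have h1 : retr l X (incl l (X ∪ Y) a) = 1 := congrArg Prod.fst ha
  have h2 : retr l Y (incl l (X ∪ Y) a) = 1 := congrArg Prod.snd ha
  have h3 := EA.rho_union hd h (incl l (X ∪ Y) a)
  rw [rho_par l (incl_mem_par _ a), ← EA.incl_retr, ← EA.incl_retr, h1, h2, map_one, map_one,
    mul_one] at h3
  exact incl_injective l _ (by rw [h3, map_one])

end

end Pool.Agent.Lib.MP_551055_al.N4
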