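import Mathlib
import Pool.Agent.Lib.MP_551055_al.Trim.LS.Stmts
import Pool.Agent.Lib.MP_551055_al.Trim.MT.K1
import Pool.Agent.Lib.MP_551055_al.Trim.N4.Stmts
import Pool.Agent.Lib.MP_551055_al.Trim.X.MP_e6f638_al.F
import Pool.Agent.Lib.MP_551055_al.Trim.X.MP_e6f638_al.Stmts

/-!
# N4, module W: words
-/

set_option autoImplicit false

namespace Pool.Agent.Lib.MP_e6f638_al
end Pool.Agent.Lib.MP_e6f638_al

namespace Pool.Agent.Lib.MP_e6f638_al.Dat
end Pool.Agent.Lib.MP_e6f638_al.Dat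

namespace Pool.Agent.Lib.MP_551055_al.N4

open Pool.Agent.Lib.MP_e6f638_al (Dat)

open Pool.Agent.Lib.MP_e6f638_al.Dat (hd tl)

open HNNExtension

namespace W95

variable {G : Type} [Group G] (D : Dat G)

/-! ### Reduced words -/

theorem uniq {g g' : G} {M M' : List (ℤˣ × G)} (hM : D.HRed M) (hM' : D.HRed M')
    (h : D.ofG g * D.hprod M = D.ofG g' * D.hprod M') :
    M.map Prod.fst = M'.map Prod.fst ∧ (M ≠ [] → g⁻¹ * g' ∈ D.B) := by
  obtain ⟨w, hw1, hw2, hw3⟩ := D.exists_word g M hM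
  obtain ⟨w', hw1', hw2', hw3'⟩ := D.exists_word g' M' hM'
  have h1 := HNNExtension.ReducedWord.map_fst_eq_and_of_prod_eq (MulEquiv.refl D.B)
    (w₁ := w) (w₂ := w') (by rw [hw3, hw3', h])
  rw [hw2, hw2', hw1, hw1'] at h1
  refine ⟨h1.1, fun hne => ?_⟩
  obtain ⟨p, L, rfl⟩ := List.exists_cons_of_ne_nil hne
  have := h1.2 p.1 (by simp)
  rwa [D.toSubgroup_eq] at this

theorem peel {g g' y y' : G} {e : ℤˣ} {M M' : List (ℤˣ × G)} (hb : g⁻¹ * g' ∈ D.B)
    (h : D.ofG g * D.hprod ((e, y) :: M) = D.ofG g' * D.hprod ((e, y') :: M')) :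
    D.ofG y * D.hprod M = D.ofG (g⁻¹ * g' * y') * D.hprod M' := by
  rw [D.hprod_cons, D.hprod_cons] at h
  have h1 : D.u ^ (e : ℤ) * D.ofG (g⁻¹ * g') = D.ofG (g⁻¹ * g') * D.u ^ (e : ℤ) :=
    ((D.commute_u hb).zpow_right _).symm.eq
  have h2 : D.u ^ (e : ℤ) * (D.ofG y * D.hprod M) =
      D.u ^ (e : ℤ) * (D.ofG (g⁻¹ * g' * y') * D.hprod M') := by
    have h3 : D.u ^ (e : ℤ) * (D.ofG y * D.hprod M) =
        (D.ofG g)⁻¹ * (D.ofG g * (D.u ^ (e : ℤ) * D.ofG y * D.hprod M)) := by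
      group
    rw [h3, h, map_mul D.ofG (g⁻¹ * g') y']
    calc (D.ofG g)⁻¹ * (D.ofG g' * (D.u ^ (e : ℤ) * D.ofG y' * D.hprod M'))
        = (D.ofG (g⁻¹ * g') * D.u ^ (e : ℤ)) * (D.ofG y' * D.hprod M') := by
          rw [map_mul, map_inv]
          simp only [mul_assoc]
      _ = (D.u ^ (e : ℤ) * D.ofG (g⁻¹ * g')) * (D.ofG y' * D.hprod M') := by rw [h1]
      _ = D.u ^ (e : ℤ) * (D.ofG (g⁻¹ * g') * D.ofG y' * D.hprod M') := by
          simp only [mul_assoc]
  exact mul_left_cancel h2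

/-! ### Words of `E` -/

/-- The list of the word of an element of `E` outside `K`. -/
def lst (i : D.ι) (e : ℤˣ) (y' : G) (M : List (ℤˣ × G)) : List (ℤˣ × G) :=
  List.replicate (D.l i - 2) (e, D.t i ^ (e : ℤ)) ++ (e, y') :: M

/-- Elements with a word as above. -/
def Good3 (i : D.ι) (e : ℤˣ) (y : D.Ah) : Prop :=
  ∃ (y' : G) (M : List (ℤˣ × G)), M ≠ [] ∧ D.HRed (lst D i e y' M) ∧
    y = D.ofG (hd e (D.t i)) * D.hprod (lst D i e y' M)

theorem good3_block (i : D.ι) (ε : ℤˣ) (c : G) (M : List (ℤˣ × G))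
    (h : D.HRed ((ε, tl ε (D.t i) * c) :: M)) :
    Good3 D i ε (((D.ofG (D.t i) * D.u) ^ D.l i) ^ (ε : ℤ) * (D.ofG c * D.hprod M)) := by
  obtain ⟨n, hn⟩ : ∃ n, D.l i = n + 2 := ⟨D.l i - 2, by have := D.two_le i; omega⟩
  refine ⟨D.t i ^ (ε : ℤ), (ε, tl ε (D.t i) * c) :: M, by simp, ?_, ?_⟩
  · exact D.hred_replicate ε _ _ _ _ (List.isChain_cons_cons.2 ⟨fun _ => rfl, h⟩)
  · have h1 := D.hprod_replicate ε (D.t i ^ (ε : ℤ)) n
      ((ε, D.t i ^ (ε : ℤ)) :: (ε, tl ε (D.t i) * c) :: M)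
    unfold lst
    rw [hn, show n + 2 - 2 = n by omega, h1, show n + 2 = (n + 1) + 1 from rfl, D.block_eq,
      D.hprod_cons, D.hprod_cons, map_mul D.ofG (tl _ _), pow_succ]
    simp only [mul_assoc]

theorem good3_cons (hT : Three D) (i j : D.ι) (ε ε' : ℤˣ) (a : D.h.ker) (y : D.Ah)
    (hy : Good3 D j ε' y)
    (hr : i = j → ε = -ε' → ¬ ((a : G) ∈ D.B ∧ Commute (a : G) (D.t i))) :
    Good3 D i ε (((D.ofG (D.t i) * D.u) ^ D.l i) ^ (ε : ℤ) * (D.ofG a * y)) := by
  obtain ⟨y', M, hM, h1, rfl⟩ := hy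
  obtain ⟨m, hm⟩ : ∃ m, D.l j = m + 3 := ⟨D.l j - 3, by have := hT.three j; omega⟩
  -- the list of `y` starts with two letters of sign `ε'`
  have hlst : lst D j ε' y' M = (ε', D.t j ^ (ε' : ℤ)) ::
      (List.replicate m (ε', D.t j ^ (ε' : ℤ)) ++ (ε', y') :: M) := by
    unfold lst
    rw [hm, show m + 3 - 2 = m + 1 by omega, List.replicate_succ, List.cons_append]
  obtain ⟨q, rest, hrest⟩ : ∃ (q : G) (rest : List (ℤˣ × G)),
      List.replicate m (ε', D.t j ^ (ε' : ℤ)) ++ (ε', y') :: M = (ε', q) :: rest := by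
    rcases m with _ | m
    · exact ⟨y', M, rfl⟩
    · exact ⟨D.t j ^ (ε' : ℤ), _, by rw [List.replicate_succ, List.cons_append]⟩
  rw [hlst, hrest] at h1
  rw [hlst, hrest]
  set r : G := D.t j ^ (ε' : ℤ) with hrdef
  set c : G := tl ε (D.t i) * (a * hd ε' (D.t j)) with hc
  by_cases hcan : ε = -ε' ∧ c ∈ D.B
  · obtain ⟨he, hcB⟩ := hcan
    obtain rfl : ε' = -ε := by rw [he, neg_neg]
    obtain ⟨n, hn⟩ : ∃ n, D.l i = n + 2 := ⟨D.l i - 2, by have := D.two_le i; omega⟩
    have hnc : i = j → ¬ Commute c (D.t i) := by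
      rintro rfl hcc
      refine hr rfl (by simp) ?_
      rcases Int.units_eq_one_or ε with rfl | rfl
      · have : c = a := by simp [hc, tl, hd]
        rw [← this]
        exact ⟨hcB, hcc⟩
      · have h5 : c = (D.t i)⁻¹ * (a * D.t i) := by simp [hc, tl, hd]
        have h6 : (a : G) = c := by
          have h7 : D.t i * c = a * D.t i := by rw [h5]; group
          rw [← hcc.eq] at h7
          exact (mul_right_cancel h7).symm
        rw [h6]
        exact ⟨hcB, hcc⟩
    have hmem : D.t i ^ (ε : ℤ) * c * r ∉ D.B := hT.w i j ε c hcB hnc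
    have hred1 : D.HRed ((ε, D.t i ^ (ε : ℤ) * c * r) :: (-ε, q) :: rest) := by
      refine List.isChain_cons_cons.2 ⟨fun h => absurd h hmem, (List.isChain_cons.1 h1).2⟩
    refine ⟨D.t i ^ (ε : ℤ) * c * r, (-ε, q) :: rest, by simp, ?_, ?_⟩
    · exact D.hred_replicate ε _ _ _ _ hred1
    · unfold lst
      rw [hn, show n + 2 - 2 = n by omega, show n + 2 = (n + 1) + 1 from rfl, D.block_eq,
        D.hprod_replicate, D.hprod_cons, D.hprod_cons ε]
      have h5 : D.ofG (tl ε (D.t i)) * (D.ofG a * (D.ofG (hd (-ε) (D.t j)) *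
          (D.u ^ ((-ε : ℤˣ) : ℤ) * D.ofG r * D.hprod ((-ε, q) :: rest)))) =
          D.ofG c * (D.u ^ ((-ε : ℤˣ) : ℤ) * (D.ofG r * D.hprod ((-ε, q) :: rest))) := by
        rw [hc, map_mul, map_mul]
        simp only [mul_assoc]
      have h6 : D.u ^ (ε : ℤ) * D.ofG c = D.ofG c * D.u ^ (ε : ℤ) :=
        ((D.commute_u hcB).zpow_right _).symm.eq
      rw [mul_assoc _ (D.ofG (tl ε (D.t i))), h5, pow_succ]
      have h7 : D.u ^ (ε : ℤ) * (D.ofG c * (D.u ^ ((-ε : ℤˣ) : ℤ) *
          (D.ofG r * D.hprod ((-ε, q) :: rest)))) =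
          D.ofG c * (D.ofG r * D.hprod ((-ε, q) :: rest)) := by
        rw [← mul_assoc, h6, mul_assoc, D.zpow_neg_units_mul]
      simp only [mul_assoc] at h7 ⊢
      rw [h7]
      simp only [map_mul, mul_assoc]
  · have h5 : D.HRed ((ε, tl ε (D.t i) * (a * hd ε' (D.t j))) :: (ε', r) :: (ε', q) :: rest) := by
      refine List.isChain_cons_cons.2 ⟨?_, h1⟩
      intro hmem
      by_contra hne
      refine hcan ⟨?_, hmem⟩
      have hne' : ε' = -ε := MP_e6f638_al.eq_neg_of_ne' hne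
      rw [hne', neg_neg]
    have := good3_block D i ε (a * hd ε' (D.t j)) _ h5
    rw [map_mul] at this
    simpa only [mul_assoc] using this

theorem good3_eprod (hT : Three D) (L : List (D.ι × ℤˣ × D.h.ker)) (hL : D.ERed L) :
    ∀ p ∈ L.head?, Good3 D p.1 p.2.1 (D.phi (D.eprod L)) := by
  induction L with
  | nil => simp
  | cons p L ih =>
    intro q hq
    obtain rfl : p = q := by simpa using hq
    have h1 : D.phi (D.eprod (p :: L)) = ((D.ofG (D.t p.1) * D.u) ^ D.l p.1) ^ (p.2.1 : ℤ) *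
        (D.ofG p.2.2 * D.phi (D.eprod L)) := by
      simp only [Dat.eprod, List.map_cons, List.prod_cons, map_mul, map_zpow, D.isPhi_phi.1,
        D.isPhi_phi.2, mul_assoc]
    rw [h1]
    rcases L with _ | ⟨q, L⟩
    · have h2 := good3_block D p.1 p.2.1 (p.2.2 : G) [] (List.isChain_singleton _)
      simpa [Dat.eprod, Dat.hprod] using h2
    · have h3 := ih (List.isChain_cons.1 hL).2 q (by simp)
      exact good3_cons D hT p.1 q.1 p.2.1 q.2.1 p.2.2 _ h3 (List.isChain_cons_cons.1 hL).1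

/-- The elements of `E`. -/
theorem RE_cases (hT : Three D) {y : D.Ah} (hy : y ∈ RE D) :
    (∃ a : D.h.ker, y = D.ofG a) ∨
      ∃ (g : G) (i : D.ι) (e : ℤˣ) (y' : G) (M : List (ℤˣ × G)), M ≠ [] ∧
        D.HRed (lst D i e y' M) ∧ y = D.ofG g * D.hprod (lst D i e y' M) := by
  obtain ⟨e, rfl⟩ := hy
  obtain ⟨a, L, hL, rfl⟩ := D.hasRed e
  rcases L with _ | ⟨p, L⟩
  · left
    exact ⟨a, by simp [Dat.eprod, D.isPhi_phi.1]⟩
  · right
    obtain ⟨y', M, h1, h2, h3⟩ := good3_eprod D hT _ hL p (by simp)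
    refine ⟨a * hd p.2.1 (D.t p.1), p.1, p.2.1, y', M, h1, h2, ?_⟩
    rw [map_mul, D.isPhi_phi.1, h3, map_mul, mul_assoc]

/-! ### The words of the powers of `x i` -/

theorem xpow (i : D.ι) (n : ℕ) (y : D.Ah) :
    xi D i ^ (n + 1) * y = D.ofG (D.t i) * D.hprod (List.replicate n (1, D.t i)) * (D.u * y) := by
  have h := D.block_eq i 1 n
  simp only [hd, tl, if_pos, Units.val_one, zpow_one, map_one, mul_one] at h
  have h2 := D.hprod_replicate 1 (D.t i) n []
  rw [List.append_nil] at h2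
  unfold xi
  rw [h, h2]
  simp [Dat.hprod, mul_assoc]

theorem hprod_append (M M' : List (ℤˣ × G)) : D.hprod (M ++ M') = D.hprod M * D.hprod M' := by
  simp [Dat.hprod]

theorem xpow_word (i : D.ι) (n : ℕ) (g : G) (M : List (ℤˣ × G)) :
    xi D i ^ (n + 1) * (D.ofG g * D.hprod M) =
      D.ofG (D.t i) * D.hprod (List.replicate n (1, D.t i) ++ (1, g) :: M) := by
  rw [xpow, hprod_append, D.hprod_cons, Units.val_one, zpow_one]
  simp only [mul_assoc]

theorem xinv_word (j : D.ι) (m : ℕ) :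
    (xi D j ^ m)⁻¹ = D.hprod (List.replicate m (-1, (D.t j)⁻¹)) := by
  have h2 := D.hprod_replicate (-1) (D.t j)⁻¹ m []
  rw [List.append_nil] at h2
  rw [h2]
  unfold xi
  rw [← inv_pow, mul_inv_rev]
  simp [Dat.hprod]

/-- Words starting with `x i ^ (n + 1)`. -/
theorem key (hT : Three D) (i : D.ι) (n : ℕ) (g : G) (L : List (ℤˣ × G))
    (hred : D.HRed (List.replicate n (1, D.t i) ++ (1, g) :: L))
    (hmem : D.ofG (D.t i) * D.hprod (List.replicate n (1, D.t i) ++ (1, g) :: L) ∈ RE D) :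
    ∃ (i' : D.ι) (S : List ℤˣ), S ≠ [] ∧
      List.replicate (n + 1) 1 ++ L.map Prod.fst = List.replicate (D.l i' - 1) 1 ++ S ∧
      (1 ≤ n → i' = i) := by
  have hsig : (List.replicate n ((1 : ℤˣ), D.t i) ++ (1, g) :: L).map Prod.fst =
      List.replicate (n + 1) 1 ++ L.map Prod.fst := by
    rw [List.map_append, List.map_replicate, List.map_cons, List.replicate_succ']
    simp
  rcases RE_cases D hT hmem with ⟨a, ha⟩ | ⟨g', i', e, y', M, hM, hN, he⟩
  · exfalso
    have h0 : D.HRed [] := List.isChain_nil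
    have h1 := (uniq D hred h0 (g' := (a : G)) (by rw [ha]; simp [Dat.hprod])).1
    simp at h1
  · obtain ⟨h1, h2⟩ := uniq D hred hN he
    have h3 := h2 (by simp)
    rw [hsig] at h1
    have hl := hT.three i'
    have hsig' : (lst D i' e y' M).map Prod.fst =
        List.replicate (D.l i' - 1) e ++ M.map Prod.fst := by
      unfold lst
      rw [List.map_append, List.map_replicate, List.map_cons,
        show D.l i' - 1 = (D.l i' - 2) + 1 by omega, List.replicate_succ']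
      simp
    rw [hsig'] at h1
    obtain ⟨m, hm⟩ : ∃ m, D.l i' = m + 3 := ⟨D.l i' - 3, by omega⟩
    have he1 : e = 1 := by
      rw [hm, show m + 3 - 1 = (m + 1) + 1 by omega, List.replicate_succ, List.replicate_succ,
        List.cons_append, List.cons_append, List.cons.injEq] at h1
      exact h1.1.symm
    subst he1
    refine ⟨i', M.map Prod.fst, by simpa using hM, h1, fun hn => ?_⟩
    obtain ⟨n, rfl⟩ : ∃ k, n = k + 1 := ⟨n - 1, by omega⟩
    have hlst : lst D i' 1 y' M = (1, D.t i') ::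
        (List.replicate m (1, D.t i') ++ (1, y') :: M) := by
      unfold lst
      rw [hm, show m + 3 - 2 = m + 1 by omega, List.replicate_succ, List.cons_append]
      simp
    rw [hlst, List.replicate_succ, List.cons_append] at he
    rw [hlst] at hN
    rw [List.replicate_succ, List.cons_append] at hred
    have h4 := peel D h3 he
    have h5 := (uniq D (List.isChain_cons.1 hred).2 (List.isChain_cons.1 hN).2 h4).2 (by simp)
    by_contra hne
    have h6 := hT.w i i' (-1) ((D.t i)⁻¹ * g') h3 (fun hh => absurd hh.symm hne)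
    apply h6
    have h7 : D.t i ^ (((-1 : ℤˣ)) : ℤ) * ((D.t i)⁻¹ * g') * D.t i' ^ ((-(-1) : ℤˣ) : ℤ) =
        (D.t i)⁻¹ * ((D.t i)⁻¹ * g' * D.t i') := by
      simp [mul_assoc]
    rw [h7]
    exact h5

theorem hred_one (i : D.ι) (n : ℕ) (g : G) :
    D.HRed (List.replicate n (1, D.t i) ++ [(1, g)]) :=
  D.hred_replicate 1 _ _ _ _ (List.isChain_singleton _)

theorem c1 (hT : Three D) (i : D.ι) (r : ℕ) (g : G) (h1 : 1 ≤ r) (hr : r < D.l i) :
    xi D i ^ r * D.ofG g ∉ RE D := by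
  intro h
  obtain ⟨n, rfl⟩ : ∃ k, r = k + 1 := ⟨r - 1, by omega⟩
  have h2 := xpow_word D i n g []
  have h3 : D.hprod ([] : List (ℤˣ × G)) = 1 := by simp [Dat.hprod]
  rw [h3, mul_one] at h2
  rw [h2] at h
  obtain ⟨i', S, hS, hs, hi⟩ := key D hT i n g [] (hred_one D i n g) h
  have hlen := congrArg List.length hs
  have hS' : 1 ≤ S.length := List.length_pos_iff.2 hS
  simp only [List.map_nil, List.append_nil, List.length_replicate, List.length_append] at hlen
  have hl := hT.three i'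
  have h4 := hi (by omega)
  rw [h4] at hlen
  omega

theorem z_mem (i : D.ι) : xi D i ^ D.l i ∈ RE D := ⟨D.z i, D.isPhi_phi.2 i⟩

theorem rep_le {n m k : ℕ} {S : List ℤˣ}
    (h : List.replicate (n + 1) (1 : ℤˣ) ++ List.replicate (m + 1) (-1) =
      List.replicate k 1 ++ S) : k ≤ n + 1 := by
  by_contra hk
  obtain ⟨d, rfl⟩ : ∃ d, k = (n + 1) + (d + 1) := ⟨k - (n + 1) - 1, by omega⟩
  rw [List.replicate_add (n + 1) (d + 1), List.append_assoc] at h
  have h2 := List.append_cancel_left h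
  rw [List.replicate_succ, List.replicate_succ, List.cons_append, List.cons.injEq] at h2
  exact absurd h2.1 (by decide)

theorem c0a (hT : Three D) (i j : D.ι) (r s : ℕ) (g : G) (h1 : 1 ≤ r) (hr : r < D.l i)
    (h2 : 1 ≤ s) (hg : g ∉ D.B)
    (h : xi D i ^ r * D.ofG g * (xi D j ^ s)⁻¹ ∈ RE D) : r + 1 = D.l i := by
  obtain ⟨n, rfl⟩ : ∃ k, r = k + 1 := ⟨r - 1, by omega⟩
  obtain ⟨m, rfl⟩ : ∃ k, s = k + 1 := ⟨s - 1, by omega⟩
  rw [mul_assoc, xinv_word, xpow_word] at h
  have hred : D.HRed (List.replicate n (1, D.t i) ++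
      (1, g) :: List.replicate (m + 1) (-1, (D.t j)⁻¹)) := by
    refine D.hred_replicate 1 _ _ _ _ ?_
    rw [List.replicate_succ]
    refine List.isChain_cons_cons.2 ⟨fun hh => absurd hh hg, ?_⟩
    have := D.hred_replicate (-1) (D.t j)⁻¹ m (D.t j)⁻¹ [] (List.isChain_singleton _)
    have e : List.replicate m ((-1 : ℤˣ), (D.t j)⁻¹) ++ [(-1, (D.t j)⁻¹)] =
        (-1, (D.t j)⁻¹) :: List.replicate m (-1, (D.t j)⁻¹) := by
      rw [← List.replicate_succ', List.replicate_succ]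
    rwa [e] at this
  obtain ⟨i', S, hS, hs, hi⟩ := key D hT i n g _ hred h
  rw [List.map_replicate] at hs
  have hk := rep_le hs
  have hl := hT.three i'
  have h4 := hi (by omega)
  rw [h4] at hk
  omega

theorem c0 (hT : Three D) (i j : D.ι) (r s : ℕ) (g : G) (h1 : 1 ≤ r) (hr : r < D.l i)
    (h2 : 1 ≤ s) (hs : s < D.l j) (h : xi D i ^ r * D.ofG g * (xi D j ^ s)⁻¹ ∈ RE D) :
    (r = 1 ∧ s = 1 ∧ g ∈ D.B) ∨ (i = j ∧ r = s ∧ g ∈ D.B ∧ Commute g (D.t i)) ∨
      (r + 1 = D.l i ∧ s + 1 = D.l j ∧ (D.t i)⁻¹ * g * D.t j ∈ D.B) := by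
  by_cases hg : g ∈ D.B
  · -- `g` in `B`
    have hx : D.ofG (D.t i) * D.u * D.ofG g * (D.ofG (D.t j) * D.u)⁻¹ =
        D.ofG (D.t i * g * (D.t j)⁻¹) := by
      rw [mul_inv_rev, map_mul, map_mul, map_inv]
      have := D.u_comm hg
      calc D.ofG (D.t i) * D.u * D.ofG g * (D.u⁻¹ * (D.ofG (D.t j))⁻¹)
          = D.ofG (D.t i) * (D.u * D.ofG g) * D.u⁻¹ * (D.ofG (D.t j))⁻¹ := by
            simp only [mul_assoc]
        _ = D.ofG (D.t i) * (D.ofG g * D.u) * D.u⁻¹ * (D.ofG (D.t j))⁻¹ := by rw [this]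
        _ = D.ofG (D.t i) * D.ofG g * (D.ofG (D.t j))⁻¹ := by group
    obtain ⟨n, rfl⟩ : ∃ k, r = k + 1 := ⟨r - 1, by omega⟩
    obtain ⟨m, rfl⟩ : ∃ k, s = k + 1 := ⟨s - 1, by omega⟩
    have hw : xi D i ^ (n + 1) * D.ofG g * (xi D j ^ (m + 1))⁻¹ =
        xi D i ^ n * D.ofG (D.t i * g * (D.t j)⁻¹) * (xi D j ^ m)⁻¹ := by
      rw [← hx, pow_succ, pow_succ, mul_inv_rev]
      unfold xi
      simp only [mul_assoc]
    rw [hw] at h
    rcases Nat.eq_zero_or_pos n with hn | hn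
    · rcases Nat.eq_zero_or_pos m with hm | hm
      · subst hn; subst hm
        exact Or.inl ⟨rfl, rfl, hg⟩
      · exfalso
        subst hn
        have h3 := inv_mem h
        rw [pow_zero, one_mul, mul_inv_rev, inv_inv, ← map_inv] at h3
        exact c1 D hT j m _ hm (by omega) h3
    · rcases Nat.eq_zero_or_pos m with hm | hm
      · exfalso
        subst hm
        rw [pow_zero, inv_one, mul_one] at h
        exact c1 D hT i n _ hn (by omega) h
      · by_cases hg' : D.t i * g * (D.t j)⁻¹ ∈ D.B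
        · have h3 : i = j ∧ Commute g (D.t i) := by
            by_contra hcon
            have h4 := hT.w i j 1 g hg (fun hij hc => hcon ⟨hij, hc⟩)
            apply h4
            simpa using hg'
          obtain ⟨rfl, hc⟩ := h3
          have h4 : D.t i * g * (D.t i)⁻¹ = g := by
            rw [← hc.eq, mul_assoc, mul_inv_cancel, mul_one]
          rw [h4] at h
          have h5 : ∀ k : ℕ, D.ofG g * xi D i ^ k = xi D i ^ k * D.ofG g := fun k =>
            (D.commute_tu hg hc k).eq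
          refine Or.inr (Or.inl ⟨rfl, ?_, hg, hc⟩)
          rcases lt_trichotomy n m with hlt | heq | hgt
          · exfalso
            obtain ⟨d, rfl⟩ : ∃ d, m = n + d := ⟨m - n, by omega⟩
            have h6 := inv_mem h
            have h7 : (xi D i ^ n * D.ofG g * (xi D i ^ (n + d))⁻¹)⁻¹ =
                xi D i ^ d * D.ofG g⁻¹ := by
              rw [mul_inv_rev, mul_inv_rev, inv_inv, map_inv]
              have h8 : (D.ofG g)⁻¹ * (xi D i ^ n)⁻¹ = (xi D i ^ n)⁻¹ * (D.ofG g)⁻¹ := by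
                rw [← mul_inv_rev, ← mul_inv_rev, h5]
              rw [h8, add_comm n d, pow_add]
              group
            rw [h7] at h6
            exact c1 D hT i d _ (by omega) (by omega) h6
          · rw [heq]
          · exfalso
            obtain ⟨d, rfl⟩ : ∃ d, n = m + d := ⟨n - m, by omega⟩
            have h7 : xi D i ^ (m + d) * D.ofG g * (xi D i ^ m)⁻¹ = xi D i ^ d * D.ofG g := by
              rw [mul_assoc]
              have h8 : D.ofG g * (xi D i ^ m)⁻¹ = (xi D i ^ m)⁻¹ * D.ofG g := by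
                rw [mul_inv_eq_iff_eq_mul, mul_assoc, h5, ← mul_assoc, inv_mul_cancel, one_mul]
              rw [h8, add_comm m d, pow_add]
              group
            rw [h7] at h
            exact c1 D hT i d _ (by omega) (by omega) h
        · exfalso
          have := c0a D hT i j n m _ hn (by omega) hm hg' h
          omega
  · -- `g` not in `B`
    have hri := c0a D hT i j r s g h1 hr h2 hg h
    have h3 : xi D j ^ s * D.ofG g⁻¹ * (xi D i ^ r)⁻¹ ∈ RE D := by
      have h4 := inv_mem h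
      have h5 : (xi D i ^ r * D.ofG g * (xi D j ^ s)⁻¹)⁻¹ =
          xi D j ^ s * D.ofG g⁻¹ * (xi D i ^ r)⁻¹ := by
        rw [map_inv]
        group
      rwa [h5] at h4
    have hsj := c0a D hT j i s r g⁻¹ h2 hs h1 (fun hh => hg (inv_mem_iff.1 hh)) h3
    refine Or.inr (Or.inr ⟨hri, hsj, ?_⟩)
    by_contra hB
    have h4 : (xi D i ^ D.l i)⁻¹ * (xi D i ^ r * D.ofG g * (xi D j ^ s)⁻¹) * xi D j ^ D.l j ∈
        RE D := mul_mem (mul_mem (inv_mem (z_mem D i)) h) (z_mem D j)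
    have h5 : (xi D i ^ D.l i)⁻¹ * (xi D i ^ r * D.ofG g * (xi D j ^ s)⁻¹) * xi D j ^ D.l j =
        (xi D i)⁻¹ * D.ofG g * xi D j := by
      rw [← hri, ← hsj, pow_succ (xi D i), pow_succ' (xi D j)]
      have e1 : (xi D j ^ s)⁻¹ * (xi D j * xi D j ^ s) = xi D j := by
        rw [← pow_succ', pow_succ, ← mul_assoc, inv_mul_cancel, one_mul]
      calc (xi D i ^ r * xi D i)⁻¹ * (xi D i ^ r * D.ofG g * (xi D j ^ s)⁻¹) *
            (xi D j * xi D j ^ s)
          = (xi D i)⁻¹ * D.ofG g * ((xi D j ^ s)⁻¹ * (xi D j * xi D j ^ s)) := by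
            rw [mul_inv_rev]
            simp only [mul_assoc, inv_mul_cancel_left]
        _ = _ := by rw [e1]
    have h6 : (xi D i)⁻¹ * D.ofG g * xi D j = D.ofG 1 *
        D.hprod [(-1, (D.t i)⁻¹ * g * D.t j), (1, 1)] := by
      unfold xi
      simp [Dat.hprod, mul_assoc]
    rw [h5, h6] at h4
    have hred : D.HRed [(-1, (D.t i)⁻¹ * g * D.t j), (1, 1)] :=
      List.isChain_cons_cons.2 ⟨fun hh => absurd hh hB, List.isChain_singleton _⟩
    rcases RE_cases D hT h4 with ⟨a, ha⟩ | ⟨g', i', e, y', M, hM, hN, he⟩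
    · have h0 : D.HRed [] := List.isChain_nil
      have h1 := (uniq D hred h0 (g' := (a : G)) (by rw [ha]; simp [Dat.hprod])).1
      simp at h1
    · have h7 := congrArg List.length (uniq D hred hN he).1
      have hl := hT.three i'
      have hM' : 1 ≤ M.length := List.length_pos_iff.2 hM
      unfold lst at h7
      simp only [List.length_map, List.length_cons, List.length_nil, List.length_append,
        List.length_replicate] at h7
      omega

/-! ### The theorem -/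

theorem not_range {g g' : G} {i : D.ι} {e : ℤˣ} {y' : G} {M : List (ℤˣ × G)}
    (hN : D.HRed (lst D i e y' M)) : D.ofG g * D.hprod (lst D i e y' M) ≠ D.ofG g' := by
  intro h
  have h0 : D.HRed [] := List.isChain_nil
  have h1 := (uniq D hN h0 (g := g) (g' := g') (by rw [h]; simp [Dat.hprod])).1
  simp [lst] at h1

end W95

/-- Module W. -/
theorem stWd : StWd := by
  intro G _ D hT
  have hinj : Function.Injective D.phi := by
    rw [injective_iff_map_eq_one]
    intro e he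
    obtain ⟨a, L, hL, rfl⟩ := D.hasRed e
    rcases L with _ | ⟨p, L⟩
    · simp only [Dat.eprod, List.map_nil, List.prod_nil, mul_one, D.isPhi_phi.1] at he ⊢
      have h1 : (a : G) = 1 := HNNExtension.of_injective (φ := MulEquiv.refl D.B)
        (by rw [map_one]; exact he)
      have h2 : a = 1 := Subtype.ext h1
      rw [h2, map_one]
    · exfalso
      obtain ⟨y', M, h1, h2, h3⟩ := W95.good3_eprod D hT _ hL p (by simp)
      rw [map_mul, D.isPhi_phi.1, h3, ← mul_assoc, ← map_mul] at he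
      exact W95.not_range D h2 (g' := 1) (by rw [he, map_one])
  refine ⟨hinj, ?_, fun i r g h1 h2 => W95.c1 D hT i r g h1 h2,
    fun i j r s g h1 h2 h3 h4 h5 => W95.c0 D hT i j r s g h1 h2 h3 h4 h5⟩
  rintro e ⟨g, hg⟩
  obtain ⟨a, L, hL, rfl⟩ := D.hasRed e
  rcases L with _ | ⟨p, L⟩
  · exact ⟨a, by simp [Dat.eprod]⟩
  · exfalso
    obtain ⟨y', M, h1, h2, h3⟩ := W95.good3_eprod D hT _ hL p (by simp)
    rw [map_mul, D.isPhi_phi.1, h3, ← mul_assoc, ← map_mul] at hg
    exact W95.not_range D h2 hg.symm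

end Pool.Agent.Lib.MP_551055_al.N4
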